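import Pool.Agent.H30.TC.Plo
import Pool.Agent.H21.BD.Fin

/-!
# TC: a call of the theorem on chains of places

`PD`: the data of a picture on a fixed space, without the law. `Lnk`: two places which follow each
other, the change of frame is a constant matrix. `call_gen`: at one of the places the `(d + 2)`-point
vectors are small.
-/

set_option autoImplicit false

namespace Pool.TC

open Finset Real Matrix
open Pool.Agent.H49.Ent Pool.Agent.H32.Dense Pool.STK Pool.POT Pool.FAD Pool.SLO Pool.TQ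
open Pool.BFL (Pb)
open Pool.TT37 (dd)
open Pool.BD64 (QHd BodyDS)
open Pool.TC35 (Pl Chn TcStmt)

/-- The data of a picture of degree `n` on the space `Ω`. -/
structure PD (Ω : Type) (c k n : ℕ) where
  B : Type
  Vt : Type
  Tt : Type
  b : Ω → B
  nu : Ω → Fin c → ℤ
  v : Ω → Vt
  th : Ω → Tt
  tau : Tt → ℤ
  E : Tt → Fin k → Fin c → ℝ
  y : Vt → Fin k → ℤ
  be : Vt → Fin (n + 1) → Fin c → ℝ
  g : Tt → Vt → Fin c → ℤ
  a0 : Tt → Fin c → ℝ
  b0 : Vt → Fin c → ℝ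

/-- The picture with the law `p`. -/
def PD.q {Ω : Type} [iΩ : Fintype Ω] {c k n : ℕ} (H : PD Ω c k n) (p : Ω → ℝ) : QHd c k n :=
  { H with Ω := Ω, iΩ := iΩ, p := p }

/-- The data of a picture. -/
def PD.of {c k n : ℕ} (H : QHd c k n) : PD H.Ω c k n := { H with }

/-- The line. -/
def PD.line {Ω : Type} {c k n : ℕ} (H : PD Ω c k n) (ω : Ω) : (Fin c → ℤ) × (H.Vt × H.B) :=
  (H.nu ω, (H.v ω, H.b ω))

/-- The height. -/
def PD.hgt {Ω : Type} {c k n : ℕ} (H : PD Ω c k n) (ω : Ω) : Fin c → ℤ :=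
  H.nu ω + H.g (H.th ω) (H.v ω)

/-- **The direction, at one place**: equal heights modulo the direction `v` give near heights
modulo the direction over the visible labels. -/
def DirV {Ω : Type} {c : ℕ} (V : Vis Ω c) (Dv : (Fin c → ℝ) → V.Dr) (p : Ω → ℝ) {τ B : Type}
    (th : Ω → τ) (b : Ω → B) (hgt : Ω → Fin c → ℤ) (K : ℝ) : Prop :=
  ∀ (v : Fin c → ℝ) (i0 : Fin c), (∀ i, |v i| ≤ |v i0|) → v i0 ≠ 0 → ∀ ω ω', 0 < p ω → 0 < p ω' →
    V.Wd ω = V.Wd ω' → th ω = th ω' → b ω = b ω' →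
    pr i0 (fun i => v i / v i0) (hgt ω) = pr i0 (fun i => v i / v i0) (hgt ω') →
    ∀ i, |((V.Q (Dv v) (V.Wd ω) (V.R ω) (V.Z ω) i -
      V.Q (Dv v) (V.Wd ω') (V.R ω') (V.Z ω') i : ℤ) : ℝ)| ≤ K

/-- **Two places which follow each other.** The change of the frame is a constant matrix. -/
structure Lnk {Ω : Type} {c k d : ℕ} (H H' : PD Ω c k d) (V' : Vis Ω c)
    (Mt : Matrix (Fin c) (Fin c) ℝ) (ph : Fin k → ℝ) (p : Ω → ℝ) (X : ℕ) (γ : ℝ) : Prop where
  RL : Det p V'.R H.line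
  tau_eq : ∀ ω, H'.tau (H'.th ω) = H.tau (H.th ω)
  M_det : Mt.det ≠ 0
  M_b : ∀ i j, |Mt i j| ≤ 2 ^ (γ * X)
  M_inv : ∀ i j, |Mt⁻¹ i j| ≤ 2 ^ (γ * X)
  ph_b : ∀ u, |ph u| ≤ 2 ^ (γ * X)
  chg : ∀ ω, 0 < p ω → ∀ u i,
    |H'.E (H'.th ω) u i - ph u * (Mt *ᵥ H.E (H.th ω) u) i| ≤ 2 ^ (γ * X) / 2 ^ X

/-- **A call of TC.** -/
theorem call_gen {c k d : ℕ} (hd : 1 ≤ d) (hT : TcStmt c k d) {h x x₀ ε₀ : ℝ} (A : ℕ)
    (hh : 0 < h) (hh1 : h ≤ 1) (hx : 0 ≤ x) (hx₀ : 0 < x₀) (hxx : x + x₀ < h) (hε₀ : 0 < ε₀) :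
    ∃ (N : ℕ) (γ δ δ₂ io ϖ : ℝ), 0 < γ ∧ 0 < δ ∧ 0 < δ₂ ∧ 0 < io ∧ 0 < ϖ ∧
    ∀ C s : ℝ, 1 ≤ C → 0 < s → s ≤ 1 → ∃ X0 : ℕ,
    ∀ (Ω : Type) [Fintype Ω] (p : Ω → ℝ) (H : ℕ → PD Ω c k d) (V : ℕ → Vis Ω c)
      (Dv : ∀ m, (Fin c → ℝ) → (V m).Dr)
      (Mt : ℕ → Matrix (Fin c) (Fin c) ℝ) (ph : ℕ → Fin k → ℝ) (X : ℕ), X0 ≤ X → IsLaw p →
      (∀ m ≤ N, ((H m).q p).OkNS X C (io * X)) →
      (∀ m ≤ N, (V m).Ok p (H m).th (H m).b (H m).hgt X γ io h x ϖ) →
      (∀ m ≤ N, DirV (V m) (Dv m) p (H m).th (H m).b (H m).hgt (2 ^ (A * δ * X))) →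
      (∀ m ≤ N, Pb (tup p (H m).line 1) (fun w =>
        |(((H m).tau ((H m).th (w 0)) - (H m).tau ((H m).th (w 1)) : ℤ) : ℝ)| ≤ s * 2 ^ X) ≤ δ₂) →
      (∀ m < N, Lnk (H m) (H (m + 1)) (V (m + 1)) (Mt m) (ph m) p X γ) →
      ∃ m < N, Pb (tup p (H m).line (d + 2)) (fun w => ∃ u i,
        2 ^ (-(x₀ * X)) <
          |dd d (H m).tau (H m).E u (fun j => (H m).th (w j.succ)) i|) ≤ ε₀ := by
  classical
  obtain ⟨N, γ, δ, δ₂, io, η, ϖ, a1, a2, a3, a4, a5, a6, hTc⟩ := hT h x x₀ ε₀ A hh hh1 hx hx₀ hxx hε₀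
  obtain ⟨io₀, b1, hP⟩ := plOf_ok (Pool.BD64.body_ds c k d hd) a5
  refine ⟨N, γ, δ, δ₂, min io io₀, ϖ, a1, a2, a3, lt_min a4 b1, a6, ?_⟩
  intro C s hC hs hs1
  obtain ⟨K1, X1, hP⟩ := hP C hC
  obtain ⟨X2, hTc⟩ := hTc C s K1 hC hs hs1
  refine ⟨max X1 X2, ?_⟩
  intro Ω _ p H V Dv Mt ph X hX hp hO hV hD htm hL
  have hX1 : X1 ≤ X := (le_max_left _ _).trans hX
  have hX2 : X2 ≤ X := (le_max_right _ _).trans hX
  have hX0 : (0 : ℝ) ≤ X := Nat.cast_nonneg X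
  have hO0 : ∀ m ≤ N, ((H m).q p).OkNS X C (io₀ * X) := fun m hm =>
    { hO m hm with
      h0 := (hO m hm).h0.trans (mul_le_mul_of_nonneg_right (min_le_right _ _) hX0)
      h2 := (hO m hm).h2.trans (mul_le_mul_of_nonneg_right (min_le_right _ _) hX0)
      y_f := le_trans (sub_le_sub_left (mul_le_mul_of_nonneg_right (min_le_right _ _) hX0) _)
        (hO m hm).y_f
      t_f := le_trans (sub_le_sub_left (mul_le_mul_of_nonneg_right (min_le_right _ _) hX0) _)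
        (hO m hm).t_f }
  have hO1 : ∀ m ≤ N, ((H m).q p).OkNS X C (io * X) := fun m hm =>
    { hO m hm with
      h0 := (hO m hm).h0.trans (mul_le_mul_of_nonneg_right (min_le_left _ _) hX0)
      h2 := (hO m hm).h2.trans (mul_le_mul_of_nonneg_right (min_le_left _ _) hX0)
      y_f := le_trans (sub_le_sub_left (mul_le_mul_of_nonneg_right (min_le_left _ _) hX0) _)
        (hO m hm).y_f
      t_f := le_trans (sub_le_sub_left (mul_le_mul_of_nonneg_right (min_le_left _ _) hX0) _)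
        (hO m hm).t_f }
  have hA : ∀ m, ∃ A0 : (Fin (d + 2) → (H m).Tt) → Matrix (Fin c) (Fin c) ℝ, m ≤ N →
      ∀ (V : Vis Ω c) (s γ δ₂ io h x ϖ : ℝ), ((H m).q p).OkNS X C (io * X) →
        V.Ok p (H m).th (H m).b (H m).hgt X γ io h x ϖ →
        (Pb (tup p (H m).line 1) (fun w =>
          |(((H m).tau ((H m).th (w 0)) - (H m).tau ((H m).th (w 1)) : ℤ) : ℝ)| ≤ s * 2 ^ X) ≤
            δ₂) →
        (plOf ((H m).q p) V A0).Ok p X C K1 s γ δ₂ io η h x ϖ := by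
    intro m
    by_cases hm : m ≤ N
    · obtain ⟨A0, hA0⟩ := hP ((H m).q p) X hX1 (hO0 m hm)
      exact ⟨A0, fun _ => hA0⟩
    · exact ⟨fun _ => 1, fun h => absurd h hm⟩
  choose A0 hA0 using hA
  have hVo : ∀ m ≤ N, (V m).Ok p (H m).th (H m).b (H m).hgt X γ io h x ϖ := fun m hm =>
    { hV m hm with
      wd := (hV m hm).wd.trans (mul_le_mul_of_nonneg_right (min_le_left _ _) hX0) }
  have hchn : ∀ m < N, Chn (plOf ((H m).q p) (V m) (A0 m))
      (plOf ((H (m + 1)).q p) (V (m + 1)) (A0 (m + 1))) (fun _ => Mt m) (ph m) (fun _ => True) p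
      X A γ δ δ₂ h := by
    intro m hm
    have hl := hL m hm
    have hmN : m + 1 ≤ N := hm
    exact
      { RL := hl.RL
        tau_eq := hl.tau_eq
        M_det := fun _ => hl.M_det
        M_b := fun _ => hl.M_b
        M_inv := fun _ => hl.M_inv
        ph_b := hl.ph_b
        chg := ⟨fun _ _ _ _ => 0, fun ω hω u i => by
          have h1 := hl.chg ω hω u i
          refine le_trans (le_of_eq ?_) h1
          simp only [zero_mul, Finset.sum_const_zero, add_zero]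
          rfl⟩
        gd := by
          refine le_trans (le_of_eq ?_) a3.le
          unfold Pb
          refine Finset.sum_eq_zero fun v _ => if_neg ?_
          exact fun h1 => h1 trivial
        dir := by
          intro g
          obtain ⟨f, hf⟩ : ∃ f : (V (m + 1)).ρ → (Fin c → ℝ), ∀ ω, 0 < p ω →
              f ((V (m + 1)).R ω) = Mt m *ᵥ g ((H m).line ω) := by
            refine ⟨fun r => if h : ∃ ω, 0 < p ω ∧ (V (m + 1)).R ω = r then
              Mt m *ᵥ g ((H m).line h.choose) else 0, fun ω hω => ?_⟩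
            have h1 : ∃ ω', 0 < p ω' ∧ (V (m + 1)).R ω' = (V (m + 1)).R ω := ⟨ω, hω, rfl⟩
            beta_reduce
            rw [dif_pos h1]
            congr 2
            exact hl.RL _ _ h1.choose_spec.1 hω h1.choose_spec.2
          refine ⟨fun r => Dv (m + 1) (f r), ?_⟩
          intro ω ω' p1 p2 e1 e2 e3 _ i0 hmax hthr hpr i
          have e2' : (H (m + 1)).th ω = (H (m + 1)).th ω' := Subtype.ext_iff.1 e2
          have hR : (V (m + 1)).R ω = (V (m + 1)).R ω' :=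
            (hV (m + 1) hmN).bR ω ω' p1 p2 e3
          have hfω := hf ω p1
          have hv0 : f ((V (m + 1)).R ω) i0 ≠ 0 := by
            rw [hfω]
            intro h0
            have h1 : (0 : ℝ) < 2 ^ (-(h * X)) := Real.rpow_pos_of_pos (by norm_num) _
            have h2 : |(Mt m *ᵥ g ((H m).line ω)) i0| = 0 := by rw [h0, abs_zero]
            exact absurd (hthr.trans h2.le) (not_le.2 h1)
          have h3 := hD (m + 1) hmN (f ((V (m + 1)).R ω)) i0 (by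
            rw [hfω]
            exact hmax) hv0 ω ω' p1 p2 e1 e2' e3 (by
            rw [hfω]
            exact hpr) i
          have h4 : Dv (m + 1) (f ((V (m + 1)).R ω)) = Dv (m + 1) (f ((V (m + 1)).R ω')) := by
            rw [hR]
          change |(((V (m + 1)).Q (Dv (m + 1) (f ((V (m + 1)).R ω))) ((V (m + 1)).Wd ω)
            ((V (m + 1)).R ω) ((V (m + 1)).Z ω) i -
            (V (m + 1)).Q (Dv (m + 1) (f ((V (m + 1)).R ω'))) ((V (m + 1)).Wd ω')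
            ((V (m + 1)).R ω') ((V (m + 1)).Z ω') i : ℤ) : ℝ)| ≤ _
          rw [← h4]
          exact h3 }

  exact hTc Ω p (fun m => plOf ((H m).q p) (V m) (A0 m)) (fun m _ => Mt m) ph
    (fun _ _ => True) X hX2 hp
    (fun m hm => hA0 m hm (V m) s γ δ₂ io h x ϖ (hO1 m hm) (hVo m hm) (htm m hm)) hchn

end Pool.TC
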