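import Pool.Agent.H37.TT.Cnd
import Pool.Agent.H16.TT.TqG
import Pool.Agent.H5.TT.Few

/-!
# The coefficients of the own slopes are closed data

`coef_few`: if the slopes are polynomials of the time with coefficients which are functions of the
line, and the abstract time is almost independent of the line given the context, then the
coefficients are functions of the context up to few bits: `d + 1` other times of the line know them,
and these times are almost independent of the line.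
-/

set_option autoImplicit false

namespace Pool.TC

open Finset Real
open Pool.Agent.H49.Ent Pool.Agent.H32.Dense Pool.STK Pool.POT
open Pool.BFL (Pb)
open Pool.SLO (tup tup_nonneg)
open Pool.TT37 (pb_union pb_mono pb_or ips ips_cf ips_deg ip ip_deg ip_cf lg lg_eval)

/-! ### Entropy -/

section ent

variable {Ω S : Type} [Fintype Ω] {p : Ω → ℝ}

/-- An integer which is known up to `D` off an event. -/
theorem CH_near1 (hp : IsLaw p) (X f : Ω → ℤ) (F : Ω → Prop) {B D : ℝ} (hB : 0 ≤ B) (hD : 0 ≤ D)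
    (hX : ∀ ω, 0 < p ω → |(X ω : ℝ)| ≤ B)
    (h : ∀ ω, 0 < p ω → ¬ F ω → |(X ω : ℝ) - f ω| ≤ D) :
    CH p X f ≤ Real.log 2 + (Pb p F * Real.log (2 * B + 1) + Real.log (2 * D + 1)) := by
  classical
  have h0 := hp.nonneg
  have e2 := CH_le_add h0 X (fun ω => decide (F ω)) f
  have e3 : CH p (fun ω => decide (F ω)) f ≤ Real.log 2 := by
    have k := CH_le_card hp.nonneg hp.sum_one (fun ω => decide (F ω)) f
      (fun _ => Finset.univ) (fun ω _ => Finset.mem_univ _)
    rw [Ex_const hp.sum_one] at k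
    simpa using k
  have e4 := CH_le_card h0 hp.sum_one X (fun ω => (decide (F ω), f ω))
    (fun w => if w.1 = true then Finset.Icc ⌈-B⌉ ⌊B⌋ else Finset.Icc ⌈(w.2 : ℝ) - D⌉ ⌊(w.2 : ℝ) + D⌋)
    (by
      intro ω hω
      by_cases hF : F ω
      · simp only [hF, decide_true, if_true, Finset.mem_Icc]
        have h1 := abs_le.1 (hX ω hω)
        exact ⟨Int.ceil_le.2 h1.1, Int.le_floor.2 h1.2⟩
      · simp only [hF, decide_false, Bool.false_eq_true, if_false, Finset.mem_Icc]
        have h1 := abs_le.1 (h ω hω hF)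
        exact ⟨Int.ceil_le.2 (by linarith [h1.1]), Int.le_floor.2 (by linarith [h1.2])⟩)
  have hcard : ∀ x R : ℝ, 0 ≤ R → Real.log ((Finset.Icc ⌈x - R⌉ ⌊x + R⌋).card) ≤
      Real.log (2 * R + 1) := by
    intro x R hR
    rcases Nat.eq_zero_or_pos (Finset.Icc ⌈x - R⌉ ⌊x + R⌋).card with h4 | h4
    · rw [h4, Nat.cast_zero, Real.log_zero]
      exact Real.log_nonneg (by linarith)
    · refine Real.log_le_log (by exact_mod_cast h4) ?_
      have h5 := Int.floor_le (x + R)
      have h6 := Int.le_ceil (x - R)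
      rw [Int.card_Icc] at h4 ⊢
      have h7 : ((⌊x + R⌋ + 1 - ⌈x - R⌉ : ℤ) : ℝ) ≤ 2 * R + 1 := by
        push_cast
        linarith
      have h8 : 0 ≤ ⌊x + R⌋ + 1 - ⌈x - R⌉ := by omega
      have h9 : (((⌊x + R⌋ + 1 - ⌈x - R⌉).toNat : ℤ) : ℝ) = ((⌊x + R⌋ + 1 - ⌈x - R⌉ : ℤ) : ℝ) := by
        rw [Int.toNat_of_nonneg h8]
      rw [← h9] at h7
      exact_mod_cast h7
  have e5 : Ex p (fun ω => Real.log (((if (decide (F ω), f ω).1 = true then
      Finset.Icc ⌈-B⌉ ⌊B⌋ else Finset.Icc ⌈((decide (F ω), f ω).2 : ℝ) - D⌉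
        ⌊((decide (F ω), f ω).2 : ℝ) + D⌋) : Finset ℤ).card)) ≤
      Pb p F * Real.log (2 * B + 1) + Real.log (2 * D + 1) := by
    have k1 : ∀ ω, Real.log (((if (decide (F ω), f ω).1 = true then
      Finset.Icc ⌈-B⌉ ⌊B⌋ else Finset.Icc ⌈((decide (F ω), f ω).2 : ℝ) - D⌉
        ⌊((decide (F ω), f ω).2 : ℝ) + D⌋) : Finset ℤ).card) ≤
        (if F ω then Real.log (2 * B + 1) else 0) + Real.log (2 * D + 1) := by
      intro ω
      have l2 : 0 ≤ Real.log (2 * D + 1) := Real.log_nonneg (by linarith)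
      by_cases hF : F ω
      · simp only [hF, decide_true, if_true]
        have := hcard 0 B hB
        rw [zero_sub, zero_add] at this
        linarith
      · simp only [hF, decide_false, Bool.false_eq_true, if_false]
        have := hcard (f ω) D hD
        linarith
    refine (Ex_mono h0 fun ω _ => k1 ω).trans (le_of_eq ?_)
    obtain ⟨l1, hl1⟩ : ∃ l1 : ℝ, l1 = Real.log (2 * B + 1) := ⟨_, rfl⟩
    obtain ⟨l2, hl2⟩ : ∃ l2 : ℝ, l2 = Real.log (2 * D + 1) := ⟨_, rfl⟩
    rw [← hl1, ← hl2]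
    have k2 : l2 = ∑ ω, p ω * l2 := by
      rw [← Finset.sum_mul, hp.sum_one, one_mul]
    rw [show Pb p F * l1 + l2 = Pb p F * l1 + ∑ ω, p ω * l2 from by rw [← k2]]
    unfold Ex Pb
    rw [Finset.sum_mul, ← Finset.sum_add_distrib]
    refine Finset.sum_congr rfl fun ω _ => ?_
    beta_reduce
    by_cases hF : F ω
    · rw [if_pos hF, if_pos hF]
      ring
    · rw [if_neg hF, if_neg hF]
      ring
  linarith [e4.trans e5]

end ent

/-! ### Interpolation -/

section ip

variable {d : ℕ}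

/-- The value of the interpolation polynomial at a node. -/
theorem ip_at (y v : Fin (d + 1) → ℝ) (hy : Function.Injective y) (l : Fin (d + 1)) :
    (ip y v).eval (y l) = v l := by
  classical
  unfold ip
  rw [Polynomial.eval_finsetSum, Finset.sum_eq_single l]
  · rw [Polynomial.eval_mul, Polynomial.eval_C, lg_eval, Finset.prod_eq_one, mul_one]
    intro k _
    split_ifs with h
    · rfl
    · rw [inv_mul_cancel₀]
      rw [sub_ne_zero]
      exact fun h1 => h (hy h1).symm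
  · intro j _ hj
    rw [Polynomial.eval_mul, Polynomial.eval_C, lg_eval,
      Finset.prod_eq_zero (Finset.mem_univ l), mul_zero]
    rw [if_neg hj.symm, sub_self, mul_zero]
  · intro h
    exact absurd (Finset.mem_univ l) h

/-- The interpolation polynomial of a polynomial of degree `≤ d`. -/
theorem ip_self (y : Fin (d + 1) → ℝ) (hy : Function.Injective y) (Q : Polynomial ℝ)
    (hQ : Q.natDegree ≤ d) : ip y (fun j => Q.eval (y j)) = Q := by
  classical
  refine Polynomial.eq_of_degree_sub_lt_of_eval_finset_eq (Finset.univ.image y) ?_ ?_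
  · rw [Finset.card_image_of_injective _ hy, Finset.card_univ, Fintype.card_fin]
    refine lt_of_le_of_lt Polynomial.degree_le_natDegree ?_
    have h1 : (ip y (fun j => Q.eval (y j)) - Q).natDegree ≤ d :=
      (Polynomial.natDegree_sub_le _ _).trans (max_le (ip_deg _ _) hQ)
    exact_mod_cast Nat.lt_succ_of_le h1
  · intro x hx
    obtain ⟨l, -, rfl⟩ := Finset.mem_image.1 hx
    exact ip_at y _ hy l

theorem ip_sub (y v v' : Fin (d + 1) → ℝ) : ip y v - ip y v' = ip y (fun j => v j - v' j) := by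
  unfold ip
  rw [← Finset.sum_sub_distrib]
  refine Finset.sum_congr rfl fun j _ => ?_
  rw [Polynomial.C_sub]
  ring

/-- **The coefficients are known from `d + 1` values**, up to the error. -/
theorem ip_near (y v : Fin (d + 1) → ℝ) (Q : Polynomial ℝ) (hQ : Q.natDegree ≤ d) {s e : ℝ}
    (hs : 0 < s) (hs1 : s ≤ 1) (hy : ∀ k, |y k| ≤ 1) (hsep : ∀ j k, k ≠ j → s ≤ |y j - y k|)
    (h : ∀ j, |v j - Q.eval (y j)| ≤ e) (n : ℕ) :
    |(ip y v).coeff n - Q.coeff n| ≤ (d + 1) * (e * (2 / s) ^ (d + 1)) := by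
  have hinj : Function.Injective y := by
    intro j k hjk
    by_contra hne
    have h1 := hsep j k fun h => hne h.symm
    rw [hjk, sub_self, abs_zero] at h1
    linarith
  have e1 : (ip y v).coeff n - Q.coeff n = (ip y (fun j => v j - Q.eval (y j))).coeff n := by
    rw [← ip_sub, ip_self y hinj Q hQ, Polynomial.coeff_sub]
  rw [e1]
  exact ip_cf y _ hs hs1 hy hsep h n

end ip

/-! ### The coefficients -/

/-- **The coefficients of the slopes are functions of the context, up to few bits.** -/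
theorem coef_few {Ω Λ T B : Type} [Fintype Ω] {p : Ω → ℝ} (hl : IsLaw p) (L : Ω → Λ) (th : Ω → T)
    (b : Ω → B) (hb : Det p L b) (tau : T → ℤ) {c k X : ℕ} (d : ℕ) (E : T → Fin k → Fin c → ℝ)
    {C s e δ₁ δ₂ io D : ℝ} (hC : 0 ≤ C) (hs : 0 < s) (hs1 : s ≤ 1) (he : 0 ≤ e)
    (ht : ∀ ω, 0 ≤ tau (th ω) ∧ tau (th ω) < 2 ^ X)
    (ep : Λ → Fin (d + 1) → Fin c → Fin k → ℝ) (hep : ∀ z n i u, |ep z n i u| ≤ C)
    (hn : Pb p (fun ω => ¬ ∀ i u, |E (th ω) u i -
      ∑ n, ep (L ω) n i u * ((tau (th ω) : ℝ) / 2 ^ X) ^ (n : ℕ)| ≤ e) ≤ δ₁)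
    (hTM : Pb (tup p L 1) (fun w =>
      |((tau (th (w 0)) - tau (th (w 1)) : ℤ) : ℝ)| ≤ s * 2 ^ X) ≤ δ₂)
    (h0 : MI p th L b ≤ io) (Y : ℕ)
    (hD : (2 : ℝ) ^ Y * ((d + 1) * (e * (2 / s) ^ (d + 1))) + 1 ≤ D) :
    CH p (fun ω (v : Fin (d + 1) × (Fin c × Fin k)) => ⌊(2 : ℝ) ^ Y * ep (L ω) v.1 v.2.1 v.2.2⌋) b ≤
      (d + 1) * io + ((d + 1) * (c * k)) * (Real.log 2 +
        (((d + 1) * δ₁ + (d + 1) ^ 2 * δ₂) * Real.log (2 * (2 ^ Y * C + 1) + 1) +
          Real.log (2 * D + 1))) := by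
  classical
  have p0 := hl.nonneg
  have hX : (0 : ℝ) < 2 ^ X := by positivity
  have hY : (0 : ℝ) < 2 ^ Y := by positivity
  have q0 := Pool.SLO.tup_isLaw hl L (d + 1)
  have hδ₂ : 0 ≤ δ₂ := (Pool.TT37.pb_nonneg (Pool.SLO.tup_isLaw hl L 1).nonneg _).trans hTM
  have hD0 : 0 ≤ D := by
    refine le_trans ?_ hD
    positivity
  -- the bad events
  obtain ⟨B0, hB0⟩ : ∃ B0 : Ω → Prop, B0 = fun ω => ¬ ∀ i u, |E (th ω) u i -
      ∑ n, ep (L ω) n i u * ((tau (th ω) : ℝ) / 2 ^ X) ^ (n : ℕ)| ≤ e := ⟨_, rfl⟩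
  rw [← hB0] at hn
  obtain ⟨B1, hB1⟩ : ∃ B1 : Fin (d + 1) → (Fin (d + 2) → Ω) → Prop, B1 = fun m w =>
    B0 (w m.succ) := ⟨_, rfl⟩
  obtain ⟨B2, hB2⟩ : ∃ B2 : Fin (d + 1) × Fin (d + 1) → (Fin (d + 2) → Ω) → Prop,
    B2 = fun m w => m.1 ≠ m.2 ∧
      |((tau (th (w m.1.succ)) - tau (th (w m.2.succ)) : ℤ) : ℝ)| ≤ s * 2 ^ X := ⟨_, rfl⟩
  have b1 : ∀ m, Pb (tup p L (d + 1)) (B1 m) ≤ δ₁ := by
    intro m
    have m1 := Pool.LBL.pmarg (Pool.SLO.tup_marg p0 L (d + 1) m.succ) B0
    rw [hB1]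
    exact m1.le.trans hn
  have b2 : ∀ m, Pb (tup p L (d + 1)) (B2 m) ≤ δ₂ := by
    intro m
    by_cases hm : m.1 = m.2
    · refine le_trans (le_of_eq ?_) hδ₂
      unfold Pb
      refine Finset.sum_eq_zero fun v _ => if_neg ?_
      rw [hB2]
      exact fun h => h.1 hm
    · have hinj : Function.Injective (![m.1.succ, m.2.succ] : Fin 2 → Fin (d + 2)) := by
        intro a b h
        fin_cases a <;> fin_cases b
        · rfl
        · exact absurd (Fin.succ_injective _ h) hm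
        · exact absurd (Fin.succ_injective _ h).symm hm
        · rfl
      have m2 := Pool.LBL.pmarg (Pool.SLO.tup_sub p0 L (M := 1) (N := d + 1)
        ![m.1.succ, m.2.succ] hinj)
        (fun w => |((tau (th (w 0)) - tau (th (w 1)) : ℤ) : ℝ)| ≤ s * 2 ^ X)
      refine le_trans (pb_mono q0.nonneg fun v _ hv => ?_) (m2.le.trans hTM)
      rw [hB2] at hv
      exact hv.2
  obtain ⟨F, hF⟩ : ∃ F : (Fin (d + 2) → Ω) → Prop, F = fun w =>
    (∃ m, B1 m w) ∨ ∃ m, B2 m w := ⟨_, rfl⟩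
  have bF : Pb (tup p L (d + 1)) F ≤ (d + 1) * δ₁ + (d + 1) ^ 2 * δ₂ := by
    have k1 := pb_union q0.nonneg B1
    have k2 := pb_union q0.nonneg B2
    have k3 : ∑ m, Pb (tup p L (d + 1)) (B1 m) ≤ (d + 1) * δ₁ := by
      refine (Finset.sum_le_sum fun m _ => b1 m).trans (le_of_eq ?_)
      rw [Finset.sum_const, Finset.card_univ, Fintype.card_fin, nsmul_eq_mul]
      push_cast
      ring
    have k4 : ∑ m, Pb (tup p L (d + 1)) (B2 m) ≤ (d + 1) ^ 2 * δ₂ := by
      refine (Finset.sum_le_sum fun m _ => b2 m).trans (le_of_eq ?_)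
      rw [Finset.sum_const, Finset.card_univ, Fintype.card_prod, Fintype.card_fin, nsmul_eq_mul]
      push_cast
      ring
    refine (pb_or q0.nonneg (A := fun v => ∃ m, B1 m v) (B := fun v => ∃ m, B2 m v)
      fun v _ hv => ?_).trans (by linarith)
    rw [hF] at hv
    exact hv
  -- the digits and their interpolation
  obtain ⟨G, hG⟩ : ∃ G : Λ → Fin (d + 1) × (Fin c × Fin k) → ℤ, G = fun z v =>
    ⌊(2 : ℝ) ^ Y * ep z v.1 v.2.1 v.2.2⌋ := ⟨_, rfl⟩
  obtain ⟨f, hf⟩ : ∃ f : (Fin (d + 1) → T) → Fin (d + 1) × (Fin c × Fin k) → ℤ, f = fun t v =>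
    ⌊(2 : ℝ) ^ Y * (ips s (fun j => (tau (t j) : ℝ) / 2 ^ X)
      (fun j => E (t j) v.2.2 v.2.1)).coeff v.1⌋ := ⟨_, rfl⟩
  have eG : (fun ω (v : Fin (d + 1) × (Fin c × Fin k)) =>
      ⌊(2 : ℝ) ^ Y * ep (L ω) v.1 v.2.1 v.2.2⌋) = fun ω => G (L ω) := by
    rw [hG]
  rw [eG]
  have e1 := (im_tup p0 L (d + 1) 0).CH (fun ω => G (L ω)) b
  rw [← e1]
  have e2 := Pool.TQ.tup_miN (N := d + 1) p0 hb h0 (fun ω => G (L ω))
  have e3 : CH (tup p L (d + 1)) (fun w => G (L (w 0))) (fun w => b (w 0)) =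
      MI (tup p L (d + 1)) (fun w => G (L (w 0))) (fun w (j : Fin (d + 1)) => th (w j.succ))
        (fun w => b (w 0)) + CH (tup p L (d + 1)) (fun w => G (L (w 0)))
        (fun w => ((fun (j : Fin (d + 1)) => th (w j.succ)), b (w 0))) := by
    unfold MI
    ring
  rw [e3]
  have e4 : CH (tup p L (d + 1)) (fun w => G (L (w 0)))
      (fun w => ((fun (j : Fin (d + 1)) => th (w j.succ)), b (w 0))) ≤
      ∑ v : Fin (d + 1) × (Fin c × Fin k), CH (tup p L (d + 1)) (fun w => G (L (w 0)) v)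
        (fun w => f (fun j => th (w j.succ)) v) := by
    refine (Pool.TT5.CH_psum q0.nonneg _ _).trans (Finset.sum_le_sum fun v _ => ?_)
    refine CH_mono_cond q0.nonneg fun w w' _ _ h => ?_
    have h1 : (fun j : Fin (d + 1) => th (w j.succ)) = fun j => th (w' j.succ) :=
      (Prod.ext_iff.1 h).1
    rw [h1]
  have e5 : ∀ v : Fin (d + 1) × (Fin c × Fin k), CH (tup p L (d + 1)) (fun w => G (L (w 0)) v)
      (fun w => f (fun j => th (w j.succ)) v) ≤ Real.log 2 +
        (((d + 1) * δ₁ + (d + 1) ^ 2 * δ₂) * Real.log (2 * (2 ^ Y * C + 1) + 1) +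
          Real.log (2 * D + 1)) := by
    intro v
    have hB : (0 : ℝ) ≤ 2 ^ Y * C + 1 := by positivity
    refine (CH_near1 q0 (fun w => G (L (w 0)) v) (fun w => f (fun j => th (w j.succ)) v) F hB hD0
      ?_ ?_).trans ?_
    · intro w _
      rw [hG]
      have h1 := Int.floor_le ((2 : ℝ) ^ Y * ep (L (w 0)) v.1 v.2.1 v.2.2)
      have h2 := Int.lt_floor_add_one ((2 : ℝ) ^ Y * ep (L (w 0)) v.1 v.2.1 v.2.2)
      have h3 : |(2 : ℝ) ^ Y * ep (L (w 0)) v.1 v.2.1 v.2.2| ≤ 2 ^ Y * C := by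
        rw [abs_mul, abs_of_pos hY]
        exact mul_le_mul_of_nonneg_left (hep _ _ _ _) hY.le
      rw [abs_le] at h3 ⊢
      constructor <;> linarith [h3.1, h3.2]
    · intro w hw hFw
      have hL : ∀ j, L (w j) = L (w 0) := fun j => tup_line p0 L hw j
      have hgood : ∀ (m : Fin (d + 1)) i u, |E (th (w m.succ)) u i -
          ∑ n, ep (L (w 0)) n i u * ((tau (th (w m.succ)) : ℝ) / 2 ^ X) ^ (n : ℕ)| ≤ e := by
        intro m i u
        by_contra hcon
        refine hFw ?_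
        rw [hF]
        refine Or.inl ⟨m, ?_⟩
        rw [hB1, hB0]
        intro hall
        have := hall i u
        rw [hL] at this
        exact hcon this
      have hsep : ∀ m l : Fin (d + 1), m ≠ l →
          s * 2 ^ X < |((tau (th (w m.succ)) - tau (th (w l.succ)) : ℤ) : ℝ)| := by
        intro m l hml
        by_contra hcon
        refine hFw ?_
        rw [hF]
        refine Or.inr ⟨(m, l), ?_⟩
        rw [hB2]
        exact ⟨hml, not_lt.1 hcon⟩
      obtain ⟨y, hy⟩ : ∃ y : Fin (d + 1) → ℝ, y = fun j => (tau (th (w j.succ)) : ℝ) / 2 ^ X :=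
        ⟨_, rfl⟩
      have hyj : ∀ j, y j = (tau (th (w j.succ)) : ℝ) / 2 ^ X := fun j => by rw [hy]
      have hy1 : ∀ k, |y k| ≤ 1 := by
        intro j
        have a1 : (0 : ℝ) ≤ (tau (th (w j.succ)) : ℝ) := by exact_mod_cast (ht (w j.succ)).1
        have a2 : (tau (th (w j.succ)) : ℝ) ≤ 2 ^ X := by exact_mod_cast (ht (w j.succ)).2.le
        rw [hyj, abs_div, abs_of_pos hX, div_le_one hX, abs_of_nonneg a1]
        exact a2
      have hys : ∀ j k, k ≠ j → s ≤ |y j - y k| := by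
        intro j k hkj
        have h1 := hsep j k hkj.symm
        push_cast at h1
        rw [hyj, hyj, ← sub_div, abs_div, abs_of_pos hX, le_div_iff₀ hX]
        exact h1.le
      obtain ⟨Q, hQ⟩ : ∃ Q : Polynomial ℝ, Q = ∑ n : Fin (d + 1),
        Polynomial.C (ep (L (w 0)) n v.2.1 v.2.2) * Polynomial.X ^ (n : ℕ) := ⟨_, rfl⟩
      have hQd : Q.natDegree ≤ d := by
        rw [hQ]
        refine Polynomial.natDegree_sum_le_of_forall_le _ _ fun n _ => ?_
        exact (Polynomial.natDegree_C_mul_X_pow_le _ _).trans (Nat.lt_succ_iff.1 n.2)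
      have hQe : ∀ x : ℝ, Q.eval x = ∑ n : Fin (d + 1), ep (L (w 0)) n v.2.1 v.2.2 * x ^ (n : ℕ) := by
        intro x
        rw [hQ, Polynomial.eval_finsetSum]
        refine Finset.sum_congr rfl fun n _ => ?_
        simp
      have hQc : Q.coeff v.1 = ep (L (w 0)) v.1 v.2.1 v.2.2 := by
        rw [hQ, Polynomial.finsetSum_coeff, Finset.sum_eq_single v.1]
        · rw [Polynomial.coeff_C_mul, Polynomial.coeff_X_pow, if_pos rfl, mul_one]
        · intro n _ hn
          rw [Polynomial.coeff_C_mul, Polynomial.coeff_X_pow, if_neg, mul_zero]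
          intro h1
          exact hn (Fin.ext h1.symm)
        · intro h1
          exact absurd (Finset.mem_univ _) h1
      have hnr := ip_near y (fun j => E (th (w j.succ)) v.2.2 v.2.1) Q hQd hs hs1 hy1 hys
        (fun j => by
          rw [hQe, hyj]
          exact hgood j v.2.1 v.2.2) v.1
      have eips : ips s (fun j => (tau (th (w (Fin.succ j))) : ℝ) / 2 ^ X)
          (fun j => E (th (w (Fin.succ j))) v.2.2 v.2.1) =
          ip y (fun j => E (th (w j.succ)) v.2.2 v.2.1) := by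
        rw [← hy]
        unfold ips
        rw [if_pos ⟨hys, hy1⟩]
      rw [hG, hf]
      beta_reduce
      rw [eips]
      rw [hQc] at hnr
      obtain ⟨a, ha⟩ : ∃ a : ℝ, a = (ip y (fun j => E (th (w j.succ)) v.2.2 v.2.1)).coeff v.1 :=
        ⟨_, rfl⟩
      rw [← ha] at hnr ⊢
      have h5 := Pool.TT5.fl_sca (σ := (2 : ℝ) ^ Y) hY.le
        (x := ep (L (w 0)) v.1 v.2.1 v.2.2) (y := a)
        (δ := (d + 1) * (e * (2 / s) ^ (d + 1))) (by
          rw [abs_sub_comm]
          exact hnr)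
      exact h5.trans hD
    · have l1 : 0 ≤ Real.log (2 * (2 ^ Y * C + 1) + 1) := Real.log_nonneg (by linarith)
      have := mul_le_mul_of_nonneg_right bF l1
      linarith
  have e6 : ∑ v : Fin (d + 1) × (Fin c × Fin k), CH (tup p L (d + 1)) (fun w => G (L (w 0)) v)
        (fun w => f (fun j => th (w j.succ)) v) ≤ ((d + 1) * (c * k)) * (Real.log 2 +
        (((d + 1) * δ₁ + (d + 1) ^ 2 * δ₂) * Real.log (2 * (2 ^ Y * C + 1) + 1) +
          Real.log (2 * D + 1))) := by
    refine (Finset.sum_le_sum fun v _ => e5 v).trans (le_of_eq ?_)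
    rw [Finset.sum_const, Finset.card_univ, Fintype.card_prod, Fintype.card_prod,
      Fintype.card_fin, Fintype.card_fin, Fintype.card_fin, nsmul_eq_mul]
    push_cast
    ring
  push_cast at e2
  linarith

end Pool.TC
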