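import Pool.Agent.H30.TC.Plo
import Pool.Agent.H48.TC.Def

/-!
# TC: the visible side of a place, definitions

The record is the closed context `(i, j)` and the window of the time. The heights `yy` are arbitrary
(in the applications: the heights over ONE frame of the first place, in the units of the place
`(i, j)`, against a reference which is a function of the closed context and of the exact time).
-/

set_option autoImplicit false

namespace Pool.TC

open Finset Real
open Pool.Agent.H49.Ent Pool.Agent.H32.Dense Pool.STK Pool.STAT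

section

variable (D : NDat2) (i j : ℕ) (yy : D.Ω → ℕ → ℝ)
variable {c k : ℕ} (J w X : ℕ) (ys : Fin k → ℕ) (gs : Fin c → ℕ)

/-- **The visible side of the place `(i, j)`.** The record is the closed context and the window. -/
noncomputable def visOf (Dr : Type)
    (Q : Dr → ℕ × (Fin k → ℤ) → D.Γ × ℕ → (Fin c → ℤ) → Fin c → ℤ) : Vis D.Ω c where
  ρ := D.Γ × ℕ
  β := ℕ × (Fin k → ℤ)
  Dr := Dr
  R := fun ω => (D.c i j ω, D.T ω / 2 ^ (J - w))
  Wd := fun ω => (D.T ω, fun a => ⌊(2 : ℝ) ^ X * yy ω (ys a)⌋)
  Z := fun ω u => ⌊(2 : ℝ) ^ X * yy ω (gs u)⌋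
  Q := Q

end

end Pool.TC
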