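import Pool.Agent.H30.TC.Ent
import Pool.Agent.H30.TC.Call
import Pool.Agent.H30.TC.Few
import Pool.Agent.H30.TC.Vis
import Pool.Agent.H12.TT.Yl
import Pool.Agent.H48.TC.Qb

/-!
# TC: the interface of the two calls

`Pic`: a picture seen from the visible side of a place. `VisF`: the visible side of a place is good
for all pictures. `Col`: a column of places. `repr`: the representative of a line which is a function
of the record at the next place.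
-/

set_option autoImplicit false

namespace Pool.TC

open Finset Real Matrix
open Pool.Agent.H49.Ent Pool.Agent.H32.Dense Pool.STK Pool.STAT Pool.POT
open Pool.BFL (Pb)
open Pool.SLO (tup)
open Pool.P4 (t0 rt bb ze zt z0 cl1 dg dgp Ry cb LLC tq GoodS FrP err)
open Pool.BD64 (QHd)

section

variable (D : NDat2) (J w z i j r d X n : ℕ) (th : ℝ) (gam : ℕ → ℝ) (C : ℝ)
  (P : D.Γ × D.Γ → ℕ → PN) (S : Slo D) {c k0 k1 : ℕ} (ys : Fin (k0 + k1) → ℕ) (gs : Fin c → ℕ)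

/-- **A picture, seen from the visible side of the place `(i, j)`**: abstract times `t`, context `b`,
data of the line `v` [without the heights], heights `hgt`. -/
structure Pic (p : D.Ω → ℝ) (ρ : D.Ω → D.Ω) {τ B Vt : Type} (t : D.Ω → τ) (b : D.Ω → B)
    (v : D.Ω → Vt) (hgt : D.Ω → Fin c → ℤ) (N₁ io : ℝ) : Prop where
  tt : Det p t (tv (c := c) (k0 := k0) (k1 := k1) D J w z i j r X C S ys gs)
  bb : Det p b (cb D J w i j r)
  vv : Det p v (fun ω => vv (c := c) (k0 := k0) (k1 := k1) D J w z i j r d X C P ys gs (ρ ω))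
  near : ∀ ω, 0 < p ω → ∀ u, |(hgt ω u : ℝ) -
    hv (c := c) (k0 := k0) (k1 := k1) D z i j r X C P S gs n th gam ω u| ≤ N₁
  mi : MI p hgt v (fun ω => (t ω, b ω)) ≤ io * X

/-- **The visible side of a place is good** for all the laws `cond q G True`, `G ⊆ E` large, and for
all pictures. -/
def VisF (M : ℕ) (q : D.Ω → ℝ) (E : D.Ω → Prop) (V : Vis D.Ω c) (Dv : (Fin c → ℝ) → V.Dr)
    (N₁ γ io h x ϖ Kd : ℝ) : Prop :=
  ∀ G : D.Ω → Prop, (∀ ω, G ω → E ω) → 1 / 2 ≤ Pb q G → ∀ (i' : ℕ) (ρ : D.Ω → D.Ω),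
    Prm D J w z i j r i' M X C q E (Pool.Agent.H49.Ent.cond q G True) ρ →
    ∀ (τ B Vt : Type) (t : D.Ω → τ) (b : D.Ω → B) (v : D.Ω → Vt) (hgt : D.Ω → Fin c → ℤ),
    Pic D J w z i j r d X n th gam C P S ys gs (Pool.Agent.H49.Ent.cond q G True) ρ t b v hgt
      N₁ (io / 2) →
    V.Ok (Pool.Agent.H49.Ent.cond q G True) t b hgt X γ io h x ϖ ∧
      DirV V Dv (Pool.Agent.H49.Ent.cond q G True) t b hgt Kd

/-- The record of the place: the closed context and the window. -/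
def rcR (ω : D.Ω) : D.Γ × ℕ := (D.c i j ω, D.T ω / 2 ^ (J - w))

end

/-- **A column of places.** -/
structure Col (D : NDat2) (n d K K' J a₀ w₀ z M w j r r2 r' r'' y a X Np : ℕ) (th : ℝ)
    (lam gam : ℕ → ℝ) (κ C₁ C : ℝ) (q : D.Ω → ℝ) (E : D.Ω → Prop) (i : ℕ → ℕ)
    (P : ℕ → D.Γ × D.Γ → ℕ → PN) (S : ℕ → Slo D) {c k0 k1 : ℕ} (ys : Fin (k0 + k1) → ℕ)
    (gs : Fin c → ℕ) : Prop where
  hyp : ∀ m ≤ Np, Hyp D n d K K' J a₀ w₀ z M w (i m) j r r2 r' r'' y a X th lam gam κ C₁ C q E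
    (P m) (S m) ys gs
  st : ∀ m ≤ Np, i m + r ≤ i (m + 1) + 1
  le : ∀ m ≤ Np, i m ≤ i (m + 1)
  dp : ∀ m ≤ Np, exp (C * z) * 2 ^ X ≤ 2 ^ ((i (m + 1) - i m) * z)
  iM : i (Np + 1) < M

section

variable {D : NDat2} {n d K K' J a₀ w₀ z M w j r r2 r' r'' y a X Np : ℕ} {th : ℝ}
    {lam gam : ℕ → ℝ} {κ C₁ C : ℝ} {q : D.Ω → ℝ} {E : D.Ω → Prop} {i : ℕ → ℕ}
    {P : ℕ → D.Γ × D.Γ → ℕ → PN} {S : ℕ → Slo D} {c k0 k1 : ℕ} {ys : Fin (k0 + k1) → ℕ}
    {gs : Fin c → ℕ}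

theorem Col.mono (H : Col D n d K K' J a₀ w₀ z M w j r r2 r' r'' y a X Np th lam gam κ C₁ C q E i P
    S ys gs) {m m' : ℕ} (h : m ≤ m') (h' : m' ≤ Np + 1) : i m ≤ i m' := by
  induction m', h using Nat.le_induction with
  | base => exact le_rfl
  | succ m' hm ih => exact (ih (by omega)).trans (H.le m' (by omega))

theorem Col.lt (H : Col D n d K K' J a₀ w₀ z M w j r r2 r' r'' y a X Np th lam gam κ C₁ C q E i P
    S ys gs) {m : ℕ} (h : m ≤ Np + 1) : i m < M := (H.mono h le_rfl).trans_lt H.iM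

/-- The record of a later place determines the record of the place. -/
theorem Col.rR (H : Col D n d K K' J a₀ w₀ z M w j r r2 r' r'' y a X Np th lam gam κ C₁ C q E i P
    S ys gs) {m m' : ℕ} (h : m ≤ m') (h' : m' ≤ Np + 1) :
    Det q (rcR D J w (i m') j) (rcR D J w (i m) j) := by
  intro ω ω' p1 p2 e
  have H0 := H.hyp 0 (Nat.zero_le _)
  have hj : j ≤ M := by have := H0.j2; omega
  have h1 := H.mono h h'
  have h2 := H.lt h'
  obtain ⟨e1, e2⟩ := Prod.ext_iff.1 e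
  refine Prod.ext ?_ e2
  exact Pool.TC12.c_down H0.ok hj (i m' - i m) (by omega) p1 p2 (by
    rw [Nat.add_sub_cancel' h1]
    exact e1)

/-- The record of the next place determines the context. -/
theorem Col.rcb (H : Col D n d K K' J a₀ w₀ z M w j r r2 r' r'' y a X Np th lam gam κ C₁ C q E i P
    S ys gs) {m : ℕ} (h : m ≤ Np) :
    Det q (rcR D J w (i (m + 1)) j) (cb D J w (i m) j r) := by
  intro ω ω' p1 p2 e
  have H0 := H.hyp m h
  have hj : j ≤ M := by have := H0.j2; omega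
  obtain ⟨e1, e2⟩ := Prod.ext_iff.1 e
  refine Prod.ext ?_ e2
  have h2 := H.lt (m := m + 1) (by omega)
  exact Pool.TC12.bb_det H0.ok H0.i0 (H.st m h) (H.le m h) h2.le hj H0.j1 p1 p2 e1

/-- The record is a function of the line and of the window. -/
theorem Col.rwn (H : Col D n d K K' J a₀ w₀ z M w j r r2 r' r'' y a X Np th lam gam κ C₁ C q E i P
    S ys gs) {m : ℕ} (h : m ≤ Np + 1) :
    Det q (D.wn J w) (rcR D J w (i m) j) := by
  intro ω ω' p1 p2 e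
  have H0 := H.hyp 0 (Nat.zero_le _)
  have hj : j ≤ M := by have := H0.j2; omega
  obtain ⟨e1, e2⟩ := Prod.ext_iff.1 e
  have e2' : D.T ω / 2 ^ (J - w) = D.T ω' / 2 ^ (J - w) := e2
  have hw := H0.w1
  have hwJ : w ≤ J := by
    have := H0.wX
    omega
  refine Prod.ext ?_ e2
  refine H0.ok.c_wn (i m) (H.lt h).le j hj ω ω' p1 p2 (Prod.ext e1 ?_)
  change D.T ω / 2 ^ (J - (w₀ + j * z)) = D.T ω' / 2 ^ (J - (w₀ + j * z))
  have h1 : (2 : ℕ) ^ (J - (w₀ + j * z)) = 2 ^ (J - w) * 2 ^ (w - (w₀ + j * z)) := by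
    rw [← pow_add]
    congr 1
    omega
  rw [h1, ← Nat.div_div_eq_div_mul, ← Nat.div_div_eq_div_mul, e2']

end

/-! ### The representative -/

open Classical in
/-- **The representative of the line**: a function of the record at the place `(i', j)`. -/
noncomputable def repr (D : NDat2) (J w i' j : ℕ) (q : D.Ω → ℝ) (E : D.Ω → Prop) (ω : D.Ω) : D.Ω :=
  if h : ∃ ω', (0 < q ω' ∧ E ω') ∧ rcR D J w i' j ω' = rcR D J w i' j ω then h.choose else ω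

theorem repr_spec {D : NDat2} {J w i' j : ℕ} {q : D.Ω → ℝ} {E : D.Ω → Prop} {ω : D.Ω}
    (h1 : 0 < q ω) (h2 : E ω) : 0 < q (repr D J w i' j q E ω) ∧ E (repr D J w i' j q E ω) ∧
      rcR D J w i' j (repr D J w i' j q E ω) = rcR D J w i' j ω := by
  have h : ∃ ω', (0 < q ω' ∧ E ω') ∧ rcR D J w i' j ω' = rcR D J w i' j ω := ⟨ω, ⟨h1, h2⟩, rfl⟩
  unfold repr
  rw [dif_pos h]
  exact ⟨h.choose_spec.1.1, h.choose_spec.1.2, h.choose_spec.2⟩

theorem repr_det {D : NDat2} {J w i' j : ℕ} {q : D.Ω → ℝ} {E : D.Ω → Prop} {p : D.Ω → ℝ}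
    (hp : ∀ ω, 0 < p ω → 0 < q ω ∧ E ω) :
    Det p (rcR D J w i' j) (repr D J w i' j q E) := by
  intro ω ω' p1 p2 e
  have h : ∃ ω₁, (0 < q ω₁ ∧ E ω₁) ∧ rcR D J w i' j ω₁ = rcR D J w i' j ω :=
    ⟨ω, hp ω p1, rfl⟩
  have h' : ∃ ω₁, (0 < q ω₁ ∧ E ω₁) ∧ rcR D J w i' j ω₁ = rcR D J w i' j ω' :=
    ⟨ω', hp ω' p2, rfl⟩
  unfold repr
  rw [dif_pos h, dif_pos h']
  have : ∀ v v' : D.Γ × ℕ, v = v' → ∀ (g : ∃ ω₁, (0 < q ω₁ ∧ E ω₁) ∧ rcR D J w i' j ω₁ = v)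
      (g' : ∃ ω₁, (0 < q ω₁ ∧ E ω₁) ∧ rcR D J w i' j ω₁ = v'), g.choose = g'.choose := by
    intro v v' hv
    subst hv
    exact fun _ _ => rfl
  exact this _ _ e h h'

section

variable {D : NDat2} {n d K K' J a₀ w₀ z M w j r r2 r' r'' y a X Np : ℕ} {th : ℝ}
    {lam gam : ℕ → ℝ} {κ C₁ C : ℝ} {q : D.Ω → ℝ} {E : D.Ω → Prop} {i : ℕ → ℕ}
    {P : ℕ → D.Γ × D.Γ → ℕ → PN} {S : ℕ → Slo D} {c k0 k1 : ℕ} {ys : Fin (k0 + k1) → ℕ}
    {gs : Fin c → ℕ}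

/-- The support. -/
theorem cond_sup {q : D.Ω → ℝ} (hq : ∀ ω, 0 ≤ q ω) {G : D.Ω → Prop} {ω : D.Ω}
    (h : 0 < Pool.Agent.H49.Ent.cond q G True ω) : 0 < q ω ∧ G ω :=
  ⟨((Pool.Agent.H49.Ent.cond_pos_iff hq G True ω).1 h).1,
    of_eq_true ((Pool.Agent.H49.Ent.cond_pos_iff hq G True ω).1 h).2⟩

/-- **The representative is good.** -/
theorem Col.prm (H : Col D n d K K' J a₀ w₀ z M w j r r2 r' r'' y a X Np th lam gam κ C₁ C q E i P
    S ys gs) {m : ℕ} (h : m ≤ Np) {G : D.Ω → Prop} (hGE : ∀ ω, G ω → E ω)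
    (hG : 1 / 2 ≤ Pb q G) {X' : ℕ} (hX : X' ≤ X) :
    Prm D J w z (i m) j r (i (m + 1)) M X' C q E (Pool.Agent.H49.Ent.cond q G True)
      (repr D J w (i (m + 1)) j q E) where
  law := cnd_law (H.hyp 0 (Nat.zero_le _)).ok.isLaw hG
  hs := fun ω hω => by
    obtain ⟨h1, h2⟩ := cond_sup (H.hyp 0 (Nat.zero_le _)).ok.isLaw.nonneg hω
    exact ⟨h1, hGE ω h2⟩
  hr := fun ω hω => by
    obtain ⟨h1, h2⟩ := cond_sup (H.hyp 0 (Nat.zero_le _)).ok.isLaw.nonneg hω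
    obtain ⟨h3, h4, h5⟩ := repr_spec (w := w) (i' := i (m + 1)) (j := j) (J := J) h1 (hGE ω h2)
    exact ⟨h3, h4, H.rcb h _ _ h3 h1 h5, (Prod.ext_iff.1 h5).1⟩
  ii := H.le m h
  iM := H.lt (by omega)
  dp := by
    refine le_trans ?_ (H.dp m h)
    exact mul_le_mul_of_nonneg_left (pow_le_pow_right₀ one_le_two hX) (exp_pos _).le

end

end Pool.TC
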