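import Pool.Agent.H64.BD.Dd
import Pool.Agent.H55.GEN.TupC
import Pool.Agent.H21.UE.Dg
import Pool.Agent.H16.TT.Ev
import Pool.Agent.H21.POT.Lin
import Pool.Agent.H5.TT.Few

/-!
# Conditioning of the pictures on an event

`mi_cnd`, `low_cnd`, `tup_cnd`: informations, lower bounds of entropies and tuples, given an event of
probability `≥ 1 / 2`. `QHd.cnd`: the picture, given an event.
-/

set_option autoImplicit false

namespace Pool.TC

open Finset Real
open Pool.Agent.H49.Ent Pool.Agent.H32.Dense Pool.STK Pool.POT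
open Pool.BFL (Pb)
open Pool.SLO (tup tup_nonneg)
open Pool.BD64 (QHd)
open Pool.K2S (Pe)
open Pool.UE (mi_event CH_prop_le)
open Pool.TQ (cond_law)

section gen

variable {Ω S T U : Type} [Fintype Ω] {p : Ω → ℝ}

theorem Pb_eq_Pe (p : Ω → ℝ) (A : Ω → Prop) : Pb p A = Pe p A := by
  rw [Pool.K2S.Pe_eq]
  rfl

theorem cnd_law (hp : IsLaw p) {E : Ω → Prop} (hE : 1 / 2 ≤ Pb p E) :
    IsLaw (Pool.Agent.H49.Ent.cond p E True) := by
  refine cond_law hp.nonneg ?_
  rw [← Pb_eq_Pe]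
  linarith

/-- **Informations given an event.** -/
theorem mi_cnd (hp : IsLaw p) (X : Ω → S) (Y : Ω → T) (Z : Ω → U) {E : Ω → Prop}
    (hE : 1 / 2 ≤ Pb p E) {d : ℝ} (h : MI p X Y Z ≤ d) :
    MI (Pool.Agent.H49.Ent.cond p E True) X Y Z ≤ 2 * (d + Real.log 2) := by
  have h1 := mi_event hp E X Y Z
  have h2 : 0 ≤ MI (Pool.Agent.H49.Ent.cond p E True) X Y Z :=
    MI_nonneg (cond_nonneg hp.nonneg E True) X Y Z
  rw [← Pb_eq_Pe] at h1
  unfold MI at h h2 ⊢
  nlinarith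

/-- **Lower bounds of entropies given an event.** `R` is a bound of the entropy for all laws. -/
theorem low_cnd (hp : IsLaw p) (X : Ω → S) (Z : Ω → U) {E : Ω → Prop} (hE : 1 / 2 ≤ Pb p E)
    {d R : ℝ} (h : R - d ≤ CH p X Z) (hR : ∀ p' : Ω → ℝ, IsLaw p' → CH p' X Z ≤ R) :
    R - 2 * (d + Real.log 2) ≤ CH (Pool.Agent.H49.Ent.cond p E True) X Z := by
  classical
  have h0 := hp.nonneg
  have hl2 : 0 ≤ Real.log 2 := Real.log_nonneg (by norm_num)
  have e1 := CH_le_add h0 X E Z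
  have e2 : CH p E Z ≤ Real.log 2 := CH_prop_le hp E Z
  have e3 : CH p X (fun ω => (E ω, Z ω)) = law p E True * CH (cond p E True) X (fun ω => (E ω, Z ω))
      + law p E False * CH (cond p E False) X (fun ω => (E ω, Z ω)) :=
    Pool.TQ.CH_ev h0 X (fun ω => (E ω, Z ω)) fun _ _ _ _ e => (Prod.ext_iff.1 e).1
  have e4 : CH (cond p E True) X (fun ω => (E ω, Z ω)) ≤ CH (cond p E True) X Z :=
    CH_mono_cond (cond_nonneg h0 E True) fun _ _ _ _ e => (Prod.ext_iff.1 e).2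
  have e5 : CH (cond p E False) X (fun ω => (E ω, Z ω)) ≤ CH (cond p E False) X Z :=
    CH_mono_cond (cond_nonneg h0 E False) fun _ _ _ _ e => (Prod.ext_iff.1 e).2
  have e6 := Pool.TQ.law_ev hp E
  have e7 : law p E True = Pb p E := by
    rw [Pb_eq_Pe]
  have e8 : 0 ≤ law p E False := law_nonneg h0 _ _
  have hRt := hR _ (cnd_law hp hE)
  have e9 : law p E False * CH (cond p E False) X Z ≤ law p E False * R := by
    rcases e8.eq_or_lt with h9 | h9
    · rw [← h9, zero_mul, zero_mul]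
    · exact mul_le_mul_of_nonneg_left
        (hR _ ⟨cond_nonneg h0 E False, sum_cond _ _ h9.ne'⟩) e8
  have e10 : law p E True * CH (cond p E True) X (fun ω => (E ω, Z ω)) ≤
      law p E True * CH (cond p E True) X Z :=
    mul_le_mul_of_nonneg_left e4 (by rw [e7]; linarith)
  have e11 : law p E False * CH (cond p E False) X (fun ω => (E ω, Z ω)) ≤
      law p E False * CH (cond p E False) X Z := mul_le_mul_of_nonneg_left e5 e8
  obtain ⟨V, hV⟩ : ∃ V, V = CH (cond p E True) X Z := ⟨_, rfl⟩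
  have e12 : R - d ≤ Real.log 2 + (Pb p E * V + (1 - Pb p E) * R) := by
    have : law p E False = 1 - Pb p E := by linarith
    rw [this] at e9 e11 e3
    rw [e7] at e10 e3
    rw [hV]
    linarith
  rw [← hV] at hRt ⊢
  nlinarith

theorem pb_pr (p : Ω → ℝ) (A : Ω → Prop) : Pb p A = Pool.KAF.Pr p {ω | A ω} := by
  classical
  rw [Pool.KAF.Pr_eq]
  unfold Pb
  exact Finset.sum_congr rfl fun ω _ => by simp only [Set.mem_ofPred_eq]

/-- **Tuples given an event.** -/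
theorem tup_cnd (hp : IsLaw p) {Λ : Type} (L : Ω → Λ) {E : Ω → Prop} (hE : 1 / 2 ≤ Pb p E)
    {δ : ℝ} (hδ : 0 < δ) (N : ℕ) (A : (Fin (N + 1) → Ω) → Prop) {ε : ℝ}
    (h : Pb (tup p L N) A ≤ δ ^ N * ε) :
    Pb (tup (Pool.Agent.H49.Ent.cond p E True) L N) A ≤ 2 * δ + 2 * ε := by
  have h1 : Pool.KAF.Pr p {ω | E ω} = Pb p E := (pb_pr p E).symm
  have hG : 0 < Pool.KAF.Pr p {ω | E ω} := by
    rw [h1]
    linarith
  have key := Pool.SLO.tup_cond_ge hp L hG hδ N {w | A w}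
  rw [h1, ← pb_pr, ← pb_pr] at key
  have h2 : 0 ≤ Pb (tup p L N) A := by
    classical
    unfold Pb
    refine Finset.sum_nonneg fun w _ => ?_
    split_ifs
    · exact tup_nonneg hp.nonneg L N w
    · exact le_rfl
  have h3 : δ / Pb p E ≤ 2 * δ := by
    rw [div_le_iff₀ (by linarith)]
    nlinarith
  have h4 : Pb (tup p L N) A / (δ ^ N * Pb p E) ≤ 2 * ε := by
    have h5 : 0 < δ ^ N := by positivity
    rw [div_le_iff₀ (by positivity)]
    have h6 : 0 ≤ δ ^ N * ε := h2.trans h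
    nlinarith
  exact key.trans (by linarith)

end gen

/-! ### The picture -/

variable {c k n : ℕ}

/-- The picture, given an event. -/
noncomputable def _root_.Pool.BD64.QHd.cnd (H : QHd c k n) (E : H.Ω → Prop) : QHd c k n where
  Ω := H.Ω
  iΩ := H.iΩ
  B := H.B
  Vt := H.Vt
  Tt := H.Tt
  p := Pool.Agent.H49.Ent.cond H.p E True
  b := H.b
  nu := H.nu
  v := H.v
  th := H.th
  tau := H.tau
  E := H.E
  y := H.y
  be := H.be
  g := H.g
  a0 := H.a0
  b0 := H.b0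

/-- The digits in `[0, 2 ^ X)` have at most `X` bits. -/
theorem dig_le {Ω U : Type} [Fintype Ω] {p : Ω → ℝ} (hp : IsLaw p) {X : ℕ} (t : Ω → ℤ)
    (Z : Ω → U) (h : ∀ ω, 0 ≤ t ω ∧ t ω < 2 ^ X) : CH p t Z ≤ X * Real.log 2 := by
  classical
  have k := CH_le_card hp.nonneg hp.sum_one t Z (fun _ => Finset.Ico 0 (2 ^ X)) (fun ω _ => by
    rw [Finset.mem_Ico]
    exact h ω)
  rw [Ex_const hp.sum_one] at k
  refine k.trans (le_of_eq ?_)
  rw [Int.card_Ico, sub_zero, ← Real.log_pow]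
  congr 1
  have h1 : ((2 : ℤ) ^ X).toNat = 2 ^ X := by
    have : ((2 : ℤ) ^ X) = ((2 ^ X : ℕ) : ℤ) := by push_cast; rfl
    rw [this, Int.toNat_natCast]
  rw [h1]
  push_cast
  rfl

theorem digs_le {Ω U : Type} [Fintype Ω] {p : Ω → ℝ} (hp : IsLaw p) {X k : ℕ}
    (t : Ω → Fin k → ℤ) (Z : Ω → U) (h : ∀ ω j, 0 ≤ t ω j ∧ t ω j < 2 ^ X) :
    CH p t Z ≤ k * X * Real.log 2 := by
  classical
  refine (Pool.TT5.CH_psum hp.nonneg t Z).trans ?_
  refine (Finset.sum_le_sum fun j _ => dig_le hp (fun ω => t ω j) Z fun ω => h ω j).trans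
    (le_of_eq ?_)
  rw [Finset.sum_const, Finset.card_univ, Fintype.card_fin, nsmul_eq_mul]
  ring

/-- **The hypotheses of the picture, given an event.** -/
theorem _root_.Pool.BD64.QHd.OkNS.cnd {H : QHd c k n} {X : ℕ} {C d : ℝ} (h : H.OkNS X C d)
    {E : H.Ω → Prop} (hE : 1 / 2 ≤ Pb H.p E) : (H.cnd E).OkNS X C (2 * (d + Real.log 2)) where
  law := cnd_law h.law hE
  tau_r := h.tau_r
  y_r := h.y_r
  E_b := h.E_b
  be_b := h.be_b
  hgt_b := h.hgt_b
  g_eq := h.g_eq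
  h0 := by
    have p0 := h.law.nonneg
    have p1 := (cnd_law h.law hE).nonneg
    have e1 : ∀ p : H.Ω → ℝ, (∀ ω, 0 ≤ p ω) → CH p H.th (fun ω => (H.line ω, H.b ω)) =
        CH p H.th H.line := by
      intro p hp
      refine le_antisymm ?_ ?_ <;>
      · refine CH_mono_cond hp fun ω ω' _ _ e => ?_
        simp only [QHd.line, Prod.mk.injEq] at e ⊢
        tauto
    have e2 : MI H.p H.th H.line H.b ≤ d := by
      unfold MI
      rw [e1 _ p0]
      exact h.h0
    have e3 := mi_cnd h.law H.th H.line H.b hE e2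
    unfold MI at e3
    rw [e1 _ p1] at e3
    exact e3
  h2 := mi_cnd h.law H.hgt H.v (fun ω => (H.th ω, H.b ω)) hE (d := d) h.h2
  y_f := low_cnd h.law (fun ω => H.y (H.v ω)) H.b hE h.y_f fun p' hp' =>
    digs_le hp' _ _ fun ω j => h.y_r ω j
  t_f := low_cnd h.law (fun ω => H.tau (H.th ω)) H.b hE h.t_f fun p' hp' =>
    dig_le hp' _ _ fun ω => h.tau_r ω

end Pool.TC
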