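import Pool.Agent.H30.TC.Lab

/-!
# TC: the coordinates of the group with labels with gain

`GfT`: at every good sample, a covector which is almost zero on the differences of the points of the
thin box over the own sheet. `GfT.data`: the contact data of `labTC`.
-/

set_option autoImplicit false

namespace Pool.TC

open Finset Real MvPolynomial
open Pool.Agent.H49.Ent Pool.Agent.H32.Dense Pool.STK Pool.STAT Pool.MIC.Frm Pool.MIC7 Pool.FRM
open Pool.GSD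
open Pool.BFL (Pb)
open Pool.P4 (t0 rt pp bb ze zt z0 cl1 dg dgp Ry cb LLC tq GoodS FrP GnL NewLabT NBT GoodU)
open Pool.P5 (PB)
open Pool.LBL (Ld)

open Classical in
/-- **(GF)** in TC letters, at one sample. -/
def GfT : Prop :=
  ∀ (n d K K' c k0 k1 : ℕ) (C₀ C₁ Cu th : ℝ) (gam : ℕ → ℝ), 0 ≤ C₀ → 0 ≤ C₁ → 0 ≤ Cu →
    ∃ F : ℝ, 0 ≤ F ∧ ∀ C : ℝ, F ≤ C → ∃ C₂ : ℝ, 1 ≤ C₂ ∧
    ∀ (D : NDat2) (U : GnL D) (R : ℕ → Prop) (J a₀ w₀ z M w i j r r2 r' r'' y a X Q : ℕ)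
      (lam : ℕ → ℝ) (κ : ℝ) (q : D.Ω → ℝ) (E : D.Ω → Prop) (P : D.Γ × D.Γ → ℕ → PN)
      (S : Slo D) (ys : Fin (k0 + k1) → ℕ) (gs : Fin c → ℕ),
      Hyp D n d K K' J a₀ w₀ z M w i j r r2 r' r'' y a X th lam gam κ C₁ C q E P S ys gs →
      Geo D n d K' J w₀ z i j r r2 r' r'' th gam C₀ (exp (C₀ * z) / 2 ^ (y * z)) q E P S →
      (∀ ω, E ω → 0 < q ω ∧ GoodS D n K' w₀ z M C₀ ω ∧
        FrP D n K' z i j r C₀ (P (bb D i j r ω)) ω) →
      U.Ok n K J a₀ w₀ z M Q R C₁ q →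
      ∀ ω, E ω → GoodU D U n J w₀ z M R Cu ω → ∀ g, gs g < n → ¬ R (gs g) →
        ∃ fL : Fin c → ℝ, Ld g fL ∧ (∀ u, |fL u| ≤ exp (C₂ * z)) ∧
          ∀ l, gs g < gs l → ∀ b, NBT D U z Q R i (j + 1) (a₀ + i * z) (gs l) ω b →
            |∑ u, fL u * ((nat (D.g i j) (P (bb D i j r ω)) b (gs u) - ze D i j r P ω (gs u)) -
              ∑ a, S.S ω (gs u) (ys a) * (nat (D.g i j) (P (bb D i j r ω)) b (ys a) -
                ze D i j r P ω (ys a)))| ≤ exp (C₂ * z) * (1 / 2 ^ (y * z) + 1 / 2 ^ (Q * z))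

/-- **The contact data of `labTC`**, from the data at one sample. -/
theorem gft_data {D : NDat2} {n d K K' J a₀ w₀ z M w i j r r2 r' r'' y a X Q : ℕ} {th : ℝ}
    {lam gam : ℕ → ℝ} {κ C₁ C : ℝ} {q : D.Ω → ℝ} {E : D.Ω → Prop} {P : D.Γ × D.Γ → ℕ → PN}
    {S : Slo D} {c k0 k1 : ℕ} {ys : Fin (k0 + k1) → ℕ} {gs : Fin c → ℕ} {U : GnL D}
    {R : ℕ → Prop} {Ev : D.Ω → Prop} {C₂ ε : ℝ} (m : ℕ)
    (H : Hyp D n d K K' J a₀ w₀ z M w i j r r2 r' r'' y a X th lam gam κ C₁ C q E P S ys gs)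
    (hε : 0 ≤ ε)
    (h : ∀ ω, Ev ω → ∀ g, gs g < n → ¬ R (gs g) →
        ∃ fL : Fin c → ℝ, Ld g fL ∧ (∀ u, |fL u| ≤ exp (C₂ * z)) ∧
          ∀ l, gs g < gs l → ∀ b, NBT D U z Q R i (j + 1) (a₀ + i * z) (gs l) ω b →
            |∑ u, fL u * ((nat (D.g i j) (P (bb D i j r ω)) b (gs u) - ze D i j r P ω (gs u)) -
              ∑ a, S.S ω (gs u) (ys a) * (nat (D.g i j) (P (bb D i j r ω)) b (ys a) -
                ze D i j r P ω (ys a)))| ≤ ε) :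
    ∃ (fL : D.Ω → Fin c → Fin c → ℝ) (fp : D.Ω → Fin c → Fin (k0 + k1) → Polynomial ℝ),
      (∀ ω, Ev ω → ∀ g, gs g < n → ¬ R (gs g) →
        Ld g (fL ω g) ∧ ∀ u, |fL ω g u| ≤ exp ((C₂ + (C + c)) * z)) ∧
      (∀ ω, Ev ω → ∀ g, gs g < n → ¬ R (gs g) → ∀ a, PB m (exp ((C₂ + (C + c)) * z)) (fp ω g a) ∧
        (gs g < ys a → fp ω g a = 0)) ∧
      (∀ ω, Ev ω → ∀ g, gs g < n → ¬ R (gs g) → ∀ a,
        |∑ u, fL ω g u * S.S ω (gs u) (ys a) - (fp ω g a).eval (rt D J w ω)| ≤ ε) ∧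
      (∀ ω, Ev ω → ∀ l g, gs g < n → ¬ R (gs g) → gs g < gs l → ∀ b : ℕ → ℝ,
        NBT D U z Q R i (j + 1) (a₀ + i * z) (gs l) ω b →
        |∑ u, fL ω g u * (nat (D.g i j) (P (bb D i j r ω)) b (gs u) - ze D i j r P ω (gs u)) -
          ∑ a, (fp ω g a).eval (rt D J w ω) *
            (nat (D.g i j) (P (bb D i j r ω)) b (ys a) - ze D i j r P ω (ys a))| ≤ ε) := by
  classical
  have hz : (1 : ℝ) ≤ z := by exact_mod_cast H.z1
  have hC := H.Cg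
  have hfx : ∀ ω g, ∃ fL : Fin c → ℝ, (Ev ω → gs g < n → ¬ R (gs g) →
      Ld g fL ∧ (∀ u, |fL u| ≤ exp (C₂ * z)) ∧
          ∀ l, gs g < gs l → ∀ b, NBT D U z Q R i (j + 1) (a₀ + i * z) (gs l) ω b →
            |∑ u, fL u * ((nat (D.g i j) (P (bb D i j r ω)) b (gs u) - ze D i j r P ω (gs u)) -
              ∑ a, S.S ω (gs u) (ys a) * (nat (D.g i j) (P (bb D i j r ω)) b (ys a) -
                ze D i j r P ω (ys a)))| ≤ ε) := by
    intro ω g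
    by_cases h1 : Ev ω ∧ gs g < n ∧ ¬ R (gs g)
    · obtain ⟨fL, h2⟩ := h ω h1.1 g h1.2.1 h1.2.2
      exact ⟨fL, fun _ _ _ => h2⟩
    · exact ⟨0, fun a1 a2 a3 => absurd ⟨a1, a2, a3⟩ h1⟩
  choose fL hfL using hfx
  have hc : (0 : ℝ) ≤ c := Nat.cast_nonneg c
  have e1 : exp (C₂ * z) ≤ exp ((C₂ + (C + c)) * z) := by
    refine exp_le_exp.2 ?_
    nlinarith
  have e2 : (c : ℝ) * (exp (C₂ * z) * exp (C * z)) ≤ exp ((C₂ + (C + c)) * z) := by
    have e3 : (c : ℝ) ≤ exp (c * z) := by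
      have := Real.add_one_le_exp ((c : ℝ) * z)
      nlinarith
    calc (c : ℝ) * (exp (C₂ * z) * exp (C * z)) ≤ exp (c * z) * (exp (C₂ * z) * exp (C * z)) :=
          mul_le_mul_of_nonneg_right e3 (by positivity)
      _ = _ := by
        rw [← exp_add, ← exp_add]
        ring_nf
  refine ⟨fL, fun ω g a => Polynomial.C (∑ u, fL ω g u * S.S ω (gs u) (ys a)), ?_, ?_, ?_, ?_⟩
  · intro ω hω g h1 h2
    obtain ⟨a1, a2, -⟩ := hfL ω g hω h1 h2
    exact ⟨a1, fun u => (a2 u).trans e1⟩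
  · intro ω hω g h1 h2 a
    obtain ⟨a1, a2, -⟩ := hfL ω g hω h1 h2
    refine ⟨⟨by rw [Polynomial.natDegree_C]; exact Nat.zero_le _, fun s => ?_⟩, fun h3 => ?_⟩
    · rw [Polynomial.coeff_C]
      split_ifs
      · refine (Finset.abs_sum_le_sum_abs _ _).trans (le_trans ?_ e2)
        have e4 : ∀ u ∈ (univ : Finset (Fin c)), |fL ω g u * S.S ω (gs u) (ys a)| ≤
            exp (C₂ * z) * exp (C * z) := fun u _ => by
          rw [abs_mul]
          exact mul_le_mul (a2 u) (H.geo.bS ω (gs u) (ys a)) (abs_nonneg _) (exp_pos _).le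
        refine (Finset.sum_le_sum e4).trans (le_of_eq ?_)
        rw [Finset.sum_const, Finset.card_univ, Fintype.card_fin, nsmul_eq_mul]
      · rw [abs_zero]
        exact (exp_pos _).le
    · have e5 : ∑ u, fL ω g u * S.S ω (gs u) (ys a) = 0 := by
        refine Finset.sum_eq_zero fun u _ => ?_
        rcases lt_or_ge g u with hu | hu
        · rw [a1.2 u hu, zero_mul]
        · rw [H.geo.tS ω (gs u) (ys a) ((H.gs_in.monotone hu).trans h3.le), mul_zero]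
      change Polynomial.C (∑ u, fL ω g u * S.S ω (gs u) (ys a)) = 0
      rw [e5, Polynomial.C_0]
  · intro ω hω g h1 h2 a
    rw [Polynomial.eval_C, sub_self, abs_zero]
    exact hε
  · intro ω hω l g h1 h2 h3 b hb
    obtain ⟨-, -, a3⟩ := hfL ω g hω h1 h2
    refine le_trans (le_of_eq ?_) (a3 l h3 b hb)
    congr 1
    simp only [Polynomial.eval_C, mul_sub, Finset.sum_sub_distrib, Finset.mul_sum,
      Finset.sum_mul]
    rw [Finset.sum_comm (f := fun u a => fL ω g u * (S.S ω (gs u) (ys a) *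
      nat (D.g i j) (P (bb D i j r ω)) b (ys a))),
      Finset.sum_comm (f := fun u a => fL ω g u * (S.S ω (gs u) (ys a) *
      ze D i j r P ω (ys a)))]
    simp only [mul_assoc]

end Pool.TC
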