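import Pool.Agent.H30.TC.Pass

/-!
# TC: the first call, in a block of places
-/

set_option autoImplicit false

namespace Pool.TC

open Finset Real Matrix
open Pool.Agent.H49.Ent Pool.Agent.H32.Dense Pool.STK Pool.STAT Pool.POT
open Pool.BFL (Pb)
open Pool.SLO (tup)
open Pool.TT37 (dd)
open Pool.BD64 (QHd)
open Pool.TC35 (TcStmt)
open Pool.P4 (t0 rt bb ze zt z0 cl1 dg dgp Ry cb LLC tq GoodS FrP err)

/-- The line of the first picture. -/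
abbrev LA (G : Type) (c k0 k1 d : ℕ) : Type :=
  (Fin c → ℤ) × (VT G c k0 k1 d × (((G × G) × ℕ) × (Unit × CA k0 k1 d)))

section

variable (D : NDat2) (d J w z j r X : ℕ) (C : ℝ) (q : D.Ω → ℝ) (E : D.Ω → Prop) (i : ℕ → ℕ)
  (P : ℕ → D.Γ × D.Γ → ℕ → PN) (S : ℕ → Slo D) {c k0 k1 : ℕ} (ys : Fin (k0 + k1) → ℕ)
  (gs : Fin c → ℕ)

/-- The line of the first picture at the place `m`. -/
noncomputable def lnA (m : ℕ) : D.Ω → LA D.Γ c k0 k1 d :=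
  (pcA (c := c) (k0 := k0) (k1 := k1) D d J w z j r X C q E i P S ys gs m).line

end

section

variable (D : NDat2) (J w z j r X : ℕ) (C : ℝ) (i : ℕ → ℕ) (S : ℕ → Slo D) {c k k0 k1 : ℕ}
  (ys : Fin (k0 + k1) → ℕ) (gs : Fin c → ℕ) (f : Fin k → Fin (k0 + k1))

/-- The slopes are polynomials of degree `e` in the time up to `η`, at the place `m`. -/
def Nr {Λ : Type} (e m : ℕ) (L : D.Ω → Λ) (ep : Λ → Fin (e + 1) → Fin c → Fin k → ℝ) (η : ℝ)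
    (ω : D.Ω) : Prop :=
  ∀ (u : Fin c) (l : Fin k),
    |ET X f (tv (c := c) (k0 := k0) (k1 := k1) D J w z (i m) j r X C (S m) ys gs ω) l u -
      ∑ n, ep (L ω) n u l *
        ((tauT J w X (tv (c := c) (k0 := k0) (k1 := k1) D J w z (i m) j r X C (S m) ys gs ω) :
          ℝ) / 2 ^ X) ^ (n : ℕ)| ≤ η

end

/-- **The coefficients**, from the result of a call. -/
theorem con_col {c k k0 k1 d₀ : ℕ} {D : NDat2} {J w z j r X : ℕ} {C : ℝ} {i : ℕ → ℕ}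
    {S : ℕ → Slo D} {ys : Fin (k0 + k1) → ℕ} {gs : Fin c → ℕ} (f : Fin k → Fin (k0 + k1))
    (hwX : w + X ≤ J) {q : D.Ω → ℝ} (hq : IsLaw q) {G : D.Ω → Prop} (hG : 1 / 2 ≤ Pb q G)
    {R Λ : Type} {rc : D.Ω → R} (hrc : Det q (D.wn J w) rc) {L : D.Ω → Λ}
    (hL : Det (Pool.Agent.H49.Ent.cond q G True) rc L) {s δ₃ ε₀ e : ℝ} (hs : 0 < s) (hs1 : s ≤ 1)
    (hδ : 0 < δ₃)
    (htm : ∀ (Λ : Type) (L : D.Ω → Λ), (∀ ω ω', 0 < q ω → 0 < q ω' →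
      D.wn J w ω = D.wn J w ω' → L ω = L ω') →
    Pb (tup q L 1) (fun v => |(((tq J w X (D.T (v 0)) : ℤ) - tq J w X (D.T (v 1)) : ℤ) : ℝ)| ≤
      s * 2 ^ X) ≤ δ₃ * δ₃) {m : ℕ}
    (h3 : Pb (tup (Pool.Agent.H49.Ent.cond q G True) L (d₀ + 2)) (fun v => ∃ l u,
        e < |dd d₀ (tauT J w X) (ET X f) l
          (fun j' => tv (c := c) (k0 := k0) (k1 := k1) D J w z (i m) j r X C (S m) ys gs
            (v j'.succ)) u|) ≤ ε₀) :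
    ∃ ep : Λ → Fin (d₀ + 1) → Fin c → Fin k → ℝ,
      (∀ z n u l, |ep z n u l| ≤ (d₀ + 1) * (1 * (2 / s) ^ (d₀ + 1))) ∧
      Pb (Pool.Agent.H49.Ent.cond q G True) (fun ω => ¬ Nr D J w z j r X C i S ys gs f d₀ m L ep
        (e / s ^ (d₀ + 2)) ω) ≤ (d₀ + 2) * ε₀ + (d₀ + 2) ^ 2 * (4 * δ₃) := by
  have htm' := tm_cnd hq hG hrc hL hδ htm
  have hX : (0 : ℝ) < 2 ^ X := by positivity
  exact Pool.TT37.con_d' (cnd_law hq hG) L L (fun _ _ h => h)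
    (fun ω => tv (c := c) (k0 := k0) (k1 := k1) D J w z (i m) j r X C (S m) ys gs ω)
    (tauT J w X) d₀ (ET X f) (C := 1) zero_le_one hs hs1
    (fun ω => by
      change 0 ≤ ((tq J w X (D.T ω) : ℕ) : ℤ) ∧ ((tq J w X (D.T ω) : ℕ) : ℤ) < 2 ^ X
      exact ⟨Int.natCast_nonneg _, by exact_mod_cast tq_lt hwX⟩)
    (fun ω u a => div_bd (tv_bd (S := S m) (C := C) (z := z) (i := i m) (j := j) (r := r)
      (J := J) (w := w) (ys := ys) (gs := gs) ω a (f u))) h3 htm'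

/-- **The first call, in a block of places.** -/
theorem blk {c k0 k1 d : ℕ} (hd : 1 ≤ d) (hA : TcStmt c k1 d) {h x x₀ ε₀ : ℝ} (A : ℕ)
    (hh : 0 < h) (hh1 : h ≤ 1) (hx : 0 ≤ x) (hx₀ : 0 < x₀) (hxx : x + x₀ < h) (hε₀ : 0 < ε₀) :
    ∃ (Na : ℕ) (γ δ δ₂ io ϖ : ℝ), 0 < γ ∧ 0 < δ ∧ 0 < δ₂ ∧ 0 < io ∧ 0 < ϖ ∧
    ∀ s : ℝ, 0 < s → s ≤ 1 → ∃ X0 : ℕ,
    ∀ (D : NDat2) (n K K' J a₀ w₀ z M w j r r2 r' r'' y a X Np : ℕ) (th : ℝ)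
      (lam gam : ℕ → ℝ) (κ C₁ C : ℝ) (q : D.Ω → ℝ) (E : D.Ω → Prop) (i : ℕ → ℕ)
      (P : ℕ → D.Γ × D.Γ → ℕ → PN) (S : ℕ → Slo D) (ys : Fin (k0 + k1) → ℕ) (gs : Fin c → ℕ),
      X0 ≤ X →
      Col D n d K K' J a₀ w₀ z M w j r r2 r' r'' y a X Np th lam gam κ C₁ C q E i P S ys gs →
      ∀ (V : ℕ → Vis D.Ω c) (Dv : ∀ m, (Fin c → ℝ) → (V m).Dr) (N₁ γ₁ δ₁ δ₃ io₁ io' ϖ₁ : ℝ),
      γ₁ ≤ γ → δ₁ ≤ δ → 0 < δ₃ → 4 * δ₃ ≤ δ₂ → io₁ ≤ io → ϖ₁ ≤ ϖ → cN d k0 k1 + 1 ≤ N₁ →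
      0 ≤ io' → io' * X + cR c d k0 k1 + io' * X + io' * X + io' * X + cA c d k0 k1 ≤
        io₁ / 2 * X →
      Sid D n d J w z j r M X Np th gam C q E i P S ys gs V Dv A N₁ γ₁ δ₁ (δ₃ * δ₃) io₁ io' h x
        ϖ₁ s →
      ∀ m0, m0 + Na ≤ Np → ∃ m, m0 ≤ m ∧ m < m0 + Na ∧
        ∃ ep : LA D.Γ c k0 k1 d → Fin (d + 1) → Fin c → Fin k1 → ℝ,
        (∀ z n u l, |ep z n u l| ≤ (d + 1) * (1 * (2 / s) ^ (d + 1))) ∧
        Pb (Pool.Agent.H49.Ent.cond q E True) (fun ω => ¬ Nr D J w z j r X C i S ys gs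
          (Fin.natAdd k0) d m (lnA (c := c) (k0 := k0) (k1 := k1) D d J w z j r X C q E i P S ys gs
            m) ep (2 ^ (-(x₀ * X)) / s ^ (d + 2)) ω) ≤
          (d + 2) * ε₀ + (d + 2) ^ 2 * (4 * δ₃) := by
  obtain ⟨Na, γ, δ, δ₂, io, ϖ, a1, a2, a3, a4, a5, hcall⟩ :=
    call_col (k0 := k0) (k1 := k1) (d := d) (Fin.natAdd k0) hd hA A hh hh1 hx hx₀ hxx hε₀
  refine ⟨Na, γ, δ, δ₂, io, ϖ, a1, a2, a3, a4, a5, ?_⟩
  intro s hs hs1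
  obtain ⟨X0, hcall⟩ := hcall (cB d k0 k1) s (by linarith [cB_ge d k0 k1]) hs hs1
  refine ⟨X0, ?_⟩
  intro D n K K' J a₀ w₀ z M w j r r2 r' r'' y a X Np th lam gam κ C₁ C q E i P S ys gs hX HC V Dv
    N₁ γ₁ δ₁ δ₃ io₁ io' ϖ₁ b1 b2 b3 b4 b5 b6 b7 b8 b9 HS m0 hm0
  have hH0 := HC.hyp 0 (Nat.zero_le _)
  have hq := hH0.ok.isLaw
  have hE := hH0.pE
  have hPc : ∀ t ≤ Na, PcOk D n d J w z j r X th gam C q E i P S ys gs (Fin.natAdd k0)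
      (Pool.Agent.H49.Ent.cond q E True) N₁ io₁ (cB d k0 k1)
      (pcA (c := c) (k0 := k0) (k1 := k1) D d J w z j r X C q E i P S ys gs (m0 + t)) (m0 + t) :=
    fun t ht => HC.pcA_ok (by omega) le_rfl (HC.hyp (m0 + t) (by omega)) (fun _ h => h) hE b8
      (HS.ent (m0 + t) (by omega) E hE) b7 b9
  obtain ⟨t, ht, h1⟩ := hcall D n K K' J a₀ w₀ z M w j r r2 r' r'' y a X X Np th lam gam κ C₁ C q
    E i P S ys gs hX le_rfl HC V Dv N₁ γ₁ δ₁ δ₃ io₁ io' ϖ₁ b1 b2 b3 b4 b5 b6 HS E (fun _ h => h) hE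
    (fun t => pcA (c := c) (k0 := k0) (k1 := k1) D d J w z j r X C q E i P S ys gs (m0 + t))
    (fun t => m0 + t) (fun t _ => by omega) (fun t ht => by omega) hPc
  refine ⟨m0 + t, by omega, by omega, ?_⟩
  exact con_col (Fin.natAdd k0) hH0.wX hq hE (HC.rwn (m := m0 + t + 1) (by omega))
    (hPc t ht.le).line hs hs1 b3 HS.tm h1

end Pool.TC
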