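import Pool.Agent.H30.TC.CalG

/-!
# TC: the pictures of the two calls at the places of a column
-/

set_option autoImplicit false

namespace Pool.TC

open Finset Real Matrix
open Pool.Agent.H49.Ent Pool.Agent.H32.Dense Pool.STK Pool.STAT Pool.POT
open Pool.BFL (Pb)
open Pool.SLO (tup)
open Pool.TT37 (dd)
open Pool.BD64 (QHd)
open Pool.TC35 (TcStmt)
open Pool.P4 (t0 rt bb ze zt z0 cl1 dg dgp Ry cb LLC tq GoodS FrP err)

section

variable {D : NDat2} {n d K K' J a₀ w₀ z M w i j r r2 r' r'' y a X : ℕ} {th : ℝ}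
  {lam gam : ℕ → ℝ} {κ C₁ C : ℝ} {q : D.Ω → ℝ} {E : D.Ω → Prop} {P : D.Γ × D.Γ → ℕ → PN}
  {S : Slo D} {c k0 k1 : ℕ} {ys : Fin (k0 + k1) → ℕ} {gs : Fin c → ℕ}
  {i' : ℕ} {p : D.Ω → ℝ} {ρ : D.Ω → D.Ω}

/-- The price of the representative. -/
noncomputable def cR (c d k0 k1 : ℕ) : ℝ := c * lg 3 + cV c d k0 k1

theorem cR_nn (c d k0 k1 : ℕ) : 0 ≤ cR c d k0 k1 := by
  have l3 : 0 ≤ lg 3 := lg_nn (by norm_num)
  unfold cR cV
  positivity

/-- **(H0) with the line of the representative.** -/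
theorem Prm.h0_rv
    (H : Hyp D n d K K' J a₀ w₀ z M w i j r r2 r' r'' y a X th lam gam κ C₁ C q E P S ys gs)
    (h : Prm D J w z i j r i' M X C q E p ρ) {e0 : ℝ}
    (h0 : CH p (tv (c := c) (k0 := k0) (k1 := k1) D J w z i j r X C S ys gs) (cb D J w i j r) ≤
      CH p (tv (c := c) (k0 := k0) (k1 := k1) D J w z i j r X C S ys gs)
        (fun ω => (lv (c := c) (k0 := k0) (k1 := k1) D J w z i j r d X C P ys gs ω,
          cb D J w i j r ω)) + e0) :
    CH p (tv (c := c) (k0 := k0) (k1 := k1) D J w z i j r X C S ys gs) (cb D J w i j r) ≤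
      CH p (tv (c := c) (k0 := k0) (k1 := k1) D J w z i j r X C S ys gs)
        (fun ω => (lv (c := c) (k0 := k0) (k1 := k1) D J w z i j r d X C P ys gs (ρ ω),
          cb D J w i j r ω)) + (e0 + cR c d k0 k1) := by
  have hp := h.law.nonneg
  have b1 := CH_le_add hp (tv (c := c) (k0 := k0) (k1 := k1) D J w z i j r X C S ys gs)
    (fun ω => lv (c := c) (k0 := k0) (k1 := k1) D J w z i j r d X C P ys gs (ρ ω))
    (fun ω => (lv (c := c) (k0 := k0) (k1 := k1) D J w z i j r d X C P ys gs ω,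
      cb D J w i j r ω))
  have b2 : CH p (tv (c := c) (k0 := k0) (k1 := k1) D J w z i j r X C S ys gs)
      (fun ω => (lv (c := c) (k0 := k0) (k1 := k1) D J w z i j r d X C P ys gs (ρ ω),
        (lv (c := c) (k0 := k0) (k1 := k1) D J w z i j r d X C P ys gs ω,
          cb D J w i j r ω))) ≤
      CH p (tv (c := c) (k0 := k0) (k1 := k1) D J w z i j r X C S ys gs)
        (fun ω => (lv (c := c) (k0 := k0) (k1 := k1) D J w z i j r d X C P ys gs (ρ ω),
          cb D J w i j r ω)) :=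
    CH_mono_cond hp fun ω ω' _ _ e =>
      Prod.ext (Prod.ext_iff.1 e).1 (Prod.ext_iff.1 (Prod.ext_iff.1 e).2).2
  have b3 := CH_le_add hp
    (fun ω => lv (c := c) (k0 := k0) (k1 := k1) D J w z i j r d X C P ys gs (ρ ω))
    (fun ω => nuv D J w z i j r X C P gs (ρ ω))
    (fun ω => (lv (c := c) (k0 := k0) (k1 := k1) D J w z i j r d X C P ys gs ω,
      cb D J w i j r ω))
  have b4 := CH_shift h.law (U := nuv D J w z i j r X C P gs)
    (U' := fun ω => nuv D J w z i j r X C P gs (ρ ω))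
    (W := fun ω => (lv (c := c) (k0 := k0) (k1 := k1) D J w z i j r d X C P ys gs ω,
      cb D J w i j r ω)) (N := 3) (fun ω hω k => Prm.nu (ys := ys) H h hω k)
    (fun ω ω' _ _ e => (Prod.ext_iff.1 (Prod.ext_iff.1 e).1).1)
  have b5 : CH p (fun ω => lv (c := c) (k0 := k0) (k1 := k1) D J w z i j r d X C P ys gs (ρ ω))
      (fun ω => (nuv D J w z i j r X C P gs (ρ ω),
        (lv (c := c) (k0 := k0) (k1 := k1) D J w z i j r d X C P ys gs ω,
      cb D J w i j r ω))) ≤ cV c d k0 k1 := by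
    refine le_trans (CH_mono_left hp ?_) (Prm.vv_few H h (W := fun ω =>
      (nuv D J w z i j r X C P gs (ρ ω),
        (lv (c := c) (k0 := k0) (k1 := k1) D J w z i j r d X C P ys gs ω,
      cb D J w i j r ω))) fun ω ω' _ _ e =>
        (Prod.ext_iff.1 (Prod.ext_iff.1 (Prod.ext_iff.1 e).2).1).2)
    intro ω ω' _ _ e
    have e1 := Prod.ext_iff.1 e
    exact Prod.ext (Prod.ext_iff.1 e1.2).1 e1.1
  rw [Fintype.card_fin] at b4
  unfold cR
  linarith

end

/-- A larger error. -/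
theorem okns_mono {c k n : ℕ} {H : QHd c k n} {X : ℕ} {C d d' : ℝ} (h : H.OkNS X C d)
    (hd : d ≤ d') : H.OkNS X C d' :=
  { h with
    h0 := h.h0.trans hd
    h2 := h.h2.trans hd
    y_f := le_trans (sub_le_sub_left hd _) h.y_f
    t_f := le_trans (sub_le_sub_left hd _) h.t_f }

/-! ### The first picture -/

section

variable (D : NDat2) (d J w z j r X : ℕ) (C : ℝ) (q : D.Ω → ℝ) (E : D.Ω → Prop) (i : ℕ → ℕ)
  (P : ℕ → D.Γ × D.Γ → ℕ → PN) (S : ℕ → Slo D) {c k0 k1 : ℕ} (ys : Fin (k0 + k1) → ℕ)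
  (gs : Fin c → ℕ)

/-- The first picture at the place `m`. -/
noncomputable def pcA (m : ℕ) : PD D.Ω c k1 d :=
  PD.of (qa (c := c) (k0 := k0) (k1 := k1) D J w z (i m) j r d X C (P m) (S m) ys gs q
    (repr D J w (i (m + 1)) j q E) (fun _ => ()))

/-- The second picture at the place `m`. -/
noncomputable def pcB {JT : Type} (jq : D.Ω → JT) (jr : JT → Fin (d + 1) → Fin c → Fin k1 → ℝ)
    (m : ℕ) : PD D.Ω c k0 (2 * d) :=
  PD.of (qb (c := c) (k0 := k0) (k1 := k1) D J w z (i m) j r d X C (P m) (S m) ys gs q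
    (repr D J w (i (m + 1)) j q E) jq jr)

end

section

variable {D : NDat2} {n d K K' J a₀ w₀ z M w j r r2 r' r'' y a X X' Np : ℕ} {th : ℝ}
    {lam gam : ℕ → ℝ} {κ C₁ C : ℝ} {q : D.Ω → ℝ} {E : D.Ω → Prop} {i : ℕ → ℕ}
    {P : ℕ → D.Γ × D.Γ → ℕ → PN} {S : ℕ → Slo D} {c k0 k1 : ℕ} {ys : Fin (k0 + k1) → ℕ}
    {gs : Fin c → ℕ}
  (H : Col D n d K K' J a₀ w₀ z M w j r r2 r' r'' y a X Np th lam gam κ C₁ C q E i P S ys gs)

include H

/-- The line data of the representative are functions of the record at the next place. -/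
theorem Col.ln {m : ℕ} (hm : m ≤ Np) {p : D.Ω → ℝ} (hp : ∀ ω, 0 < p ω → 0 < q ω ∧ E ω) {R : Type}
    (f : D.Ω → R) : Det p (rcR D J w (i (m + 1)) j)
      (fun ω => (f (repr D J w (i (m + 1)) j q E ω), cb D J w (i m) j r ω)) := by
  intro ω ω' p1 p2 e
  have e1 := repr_det hp ω ω' p1 p2 e
  have e2 := H.rcb hm ω ω' (hp ω p1).1 (hp ω' p2).1 e
  exact Prod.ext (congrArg f e1) e2

/-- **The first picture is fine.** -/
theorem Col.pcA_ok {m : ℕ} (hm : m ≤ Np) (hX : X' ≤ X)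
    (h : Hyp D n d K K' J a₀ w₀ z M w (i m) j r r2 r' r'' y a X' th lam gam κ C₁ C q E (P m) (S m)
      ys gs) {G : D.Ω → Prop} (hGE : ∀ ω, G ω → E ω) (hG : 1 / 2 ≤ Pb q G) {io io' N₁ : ℝ}
    (hio : 0 ≤ io')
    (he : EntP D n d J w z (i m) j r X' th gam C (P m) (S m) ys gs
      (Pool.Agent.H49.Ent.cond q G True) (io' * X'))
    (hN : cN d k0 k1 + 1 ≤ N₁)
    (hn : io' * X' + cR c d k0 k1 + io' * X' + io' * X' + io' * X' + cA c d k0 k1 ≤
      io / 2 * X') :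
    PcOk D n d J w z j r X' th gam C q E i P S ys gs (Fin.natAdd k0)
      (Pool.Agent.H49.Ent.cond q G True) N₁ io (cB d k0 k1)
      (pcA (c := c) (k0 := k0) (k1 := k1) D d J w z j r X' C q E i P S ys gs m) m := by
  have hpm := H.prm hm hGE hG hX
  obtain ⟨p, hp⟩ : ∃ p : D.Ω → ℝ, p = Pool.Agent.H49.Ent.cond q G True := ⟨_, rfl⟩
  rw [← hp] at he hpm ⊢
  have hX0 : (0 : ℝ) ≤ io' * X' := mul_nonneg hio (Nat.cast_nonneg X')
  have hcR := cR_nn c d k0 k1
  have hok := qa_ok (jq := fun _ => ()) h hpm (Rv := fun ω =>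
    lv (c := c) (k0 := k0) (k1 := k1) D J w z (i m) j r d X' C (P m) ys gs
      (repr D J w (i (m + 1)) j q E ω)) (fun ω ω' _ _ e => e)
    (e0 := io' * X' + cR c d k0 k1) (e2 := io' * X') (e3 := io' * X') (et := io' * X') (ej := 0)
    (by linarith) hX0 hX0 hX0 (Prm.h0_rv h hpm he.h0) he.h2 he.lf he.tf
    (le_of_eq (CH_eq_zero hpm.law.nonneg fun _ _ _ _ _ => rfl))
  refine ⟨?_, ?_, ?_, ?_, ?_, ?_, ?_, ?_⟩
  · have h1 : io' * X' + cR c d k0 k1 + io' * X' + io' * X' + io' * X' + 3 * 0 + cA c d k0 k1 ≤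
      io / 2 * X' := by linarith
    exact okns_mono hok h1
  · intro ω ω' _ _ e
    exact (Prod.ext_iff.1 e).1
  · intro ω ω' _ _ e
    exact (Prod.ext_iff.1 e).1
  · intro ω ω' _ _ e
    exact e
  · intro ω hω u
    exact (qa_near h hpm (jq := fun _ => ()) hω u).trans hN
  · intro ω ω' p1 p2 e
    have e1 := H.ln hm hpm.hs (f := fun ω₁ =>
      lv (c := c) (k0 := k0) (k1 := k1) D J w z (i m) j r d X' C (P m) ys gs ω₁) ω ω' p1 p2 e
    have e2 := Prod.ext_iff.1 e1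
    have e3 : lv (c := c) (k0 := k0) (k1 := k1) D J w z (i m) j r d X' C (P m) ys gs
      (repr D J w (i (m + 1)) j q E ω) =
      lv (c := c) (k0 := k0) (k1 := k1) D J w z (i m) j r d X' C (P m) ys gs
      (repr D J w (i (m + 1)) j q E ω') := e2.1
    have e4 := Prod.ext_iff.1 e3
    have e5 : (() : Unit) = () := rfl
    exact Prod.ext e4.1 (Prod.ext e4.2 (Prod.ext e2.2 (Prod.ext e5 (congrArg cxa e4.2))))
  · intro ω
    rfl
  · intro ω l u
    rfl

/-- **The second picture is fine.** -/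
theorem Col.pcB_ok {m : ℕ} (hm : m ≤ Np) (hX : X' ≤ X)
    (h : Hyp D n d K K' J a₀ w₀ z M w (i m) j r r2 r' r'' y a X' th lam gam κ C₁ C q E (P m) (S m)
      ys gs) {G : D.Ω → Prop} (hGE : ∀ ω, G ω → E ω) (hG : 1 / 2 ≤ Pb q G)
    {JT : Type} {jq : D.Ω → JT} {jr : JT → Fin (d + 1) → Fin c → Fin k1 → ℝ}
    {io io' N₁ N N' ej : ℝ} (hio : 0 ≤ io')
    (he : EntP D n d J w z (i m) j r X' th gam C (P m) (S m) ys gs
      (Pool.Agent.H49.Ent.cond q G True) (io' * X'))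
    (hjL : Det (Pool.Agent.H49.Ent.cond q G True) (rcR D J w (i (m + 1)) j) jq)
    (hN0 : 0 ≤ N) (hN' : 0 ≤ N') (hjr : ∀ jt s u l, |jr jt s u l| ≤ N)
    (hj : ∀ ω, 0 < Pool.Agent.H49.Ent.cond q G True ω → ∀ u (l : Fin k1),
      |(Sv D z X' C (S m) ys gs ω u (Fin.natAdd k0 l) : ℝ) / 2 ^ X' -
      ∑ s : Fin (d + 1), jr (jq ω) s u l * ((tq J w X' (D.T ω) : ℝ) / 2 ^ X') ^ (s : ℕ)| ≤
        N' / 2 ^ X')
    (hej : CH (Pool.Agent.H49.Ent.cond q G True) jq (cb D J w (i m) j r) ≤ ej)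
    (hN : cNb d k0 k1 N' ≤ N₁)
    (hn : io' * X' + cR c d k0 k1 + io' * X' + io' * X' + io' * X' + 3 * ej + cC c d k0 k1 N' ≤
      io / 2 * X') :
    PcOk D n d J w z j r X' th gam C q E i P S ys gs (Fin.castAdd k1)
      (Pool.Agent.H49.Ent.cond q G True) N₁ io (cBb d k0 k1 N)
      (pcB (c := c) (k0 := k0) (k1 := k1) D d J w z j r X' C q E i P S ys gs jq jr m) m := by
  have hpm := H.prm hm hGE hG hX
  obtain ⟨p, hp⟩ : ∃ p : D.Ω → ℝ, p = Pool.Agent.H49.Ent.cond q G True := ⟨_, rfl⟩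
  rw [← hp] at he hpm hjL hj hej ⊢
  have hX0 : (0 : ℝ) ≤ io' * X' := mul_nonneg hio (Nat.cast_nonneg X')
  have hcR := cR_nn c d k0 k1
  have hok := qb_ok (jq := jq) (jr := jr) h hpm (Rv := fun ω =>
    lv (c := c) (k0 := k0) (k1 := k1) D J w z (i m) j r d X' C (P m) ys gs
      (repr D J w (i (m + 1)) j q E ω)) (fun ω ω' _ _ e => e) hN0 hN' hjr hj
    (e0 := io' * X' + cR c d k0 k1) (e2 := io' * X') (e3 := io' * X') (et := io' * X') (ej := ej)
    (by linarith) hX0 hX0 hX0 (Prm.h0_rv h hpm he.h0) he.h2 he.yf he.tf hej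
  refine ⟨?_, ?_, ?_, ?_, ?_, ?_, ?_, ?_⟩
  · exact okns_mono hok hn
  · intro ω ω' _ _ e
    exact e
  · intro ω ω' _ _ e
    exact (Prod.ext_iff.1 e).1
  · intro ω ω' _ _ e
    exact (Prod.ext_iff.1 e).2
  · intro ω hω u
    exact (qb_near h hpm (jq := jq) (jr := jr) hN' hω (hj ω hω) u).trans hN
  · intro ω ω' p1 p2 e
    have e1 := H.ln hm hpm.hs (f := fun ω₁ =>
      lv (c := c) (k0 := k0) (k1 := k1) D J w z (i m) j r d X' C (P m) ys gs ω₁) ω ω' p1 p2 e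
    have e2 := Prod.ext_iff.1 e1
    have e3 : lv (c := c) (k0 := k0) (k1 := k1) D J w z (i m) j r d X' C (P m) ys gs
      (repr D J w (i (m + 1)) j q E ω) =
      lv (c := c) (k0 := k0) (k1 := k1) D J w z (i m) j r d X' C (P m) ys gs
      (repr D J w (i (m + 1)) j q E ω') := e2.1
    have e4 := Prod.ext_iff.1 e3
    have e5 := hjL ω ω' p1 p2 e
    exact Prod.ext e4.1 (Prod.ext (Prod.ext e5 e4.2) (Prod.ext e2.2 e5))
  · intro ω
    rfl
  · intro ω l u
    rfl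

end

end Pool.TC
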