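import Pool.Agent.H30.TC.CorS

/-!
# TC: a call over places of a column

`call_col`: the places `μ 0 < μ 1 < ..` of a column, pictures with the slopes
`Sv .. u (f l) / 2 ^ X`. At one of the places the slopes are, off a small event, polynomials in the
time with coefficients which are functions of the line of the picture.
-/

set_option autoImplicit false

namespace Pool.TC

open Finset Real Matrix
open Pool.Agent.H49.Ent Pool.Agent.H32.Dense Pool.STK Pool.STAT Pool.POT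
open Pool.BFL (Pb)
open Pool.SLO (tup)
open Pool.TT37 (dd)
open Pool.BD64 (QHd)
open Pool.TC35 (TcStmt)
open Pool.P4 (t0 rt bb ze zt z0 cl1 dg dgp Ry cb LLC tq GoodS FrP err)

/-! ### Tuples -/

section gen

variable {Ω : Type} [Fintype Ω] {p : Ω → ℝ}

open Classical in
/-- Tuples depend on the fibres of the line only. -/
theorem tup_cg (hp : ∀ ω, 0 ≤ p ω) {Λ Λ' : Type} (L : Ω → Λ) (L' : Ω → Λ')
    (h : ∀ ω ω', 0 < p ω → 0 < p ω' → (L ω = L ω' ↔ L' ω = L' ω')) (N : ℕ) :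
    tup p L N = tup p L' N := by
  funext v
  rw [Pool.SLO.tup_eq, Pool.SLO.tup_eq]
  by_cases hv : ∀ j, 0 < p (v j)
  · have e1 : (∀ j, L (v j) = L (v 0)) ↔ ∀ j, L' (v j) = L' (v 0) :=
      forall_congr' fun j => h _ _ (hv j) (hv 0)
    have e2 : law p L (L (v 0)) = law p L' (L' (v 0)) := by
      unfold law
      refine Finset.sum_congr rfl fun ω _ => ?_
      rcases (hp ω).eq_or_lt with h0 | h0
      · rw [← h0]
        simp
      · have h2 := h ω (v 0) h0 (hv 0)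
        by_cases h1 : L ω = L (v 0)
        · rw [if_pos h1, if_pos (h2.1 h1)]
        · rw [if_neg h1, if_neg (fun h3 => h1 (h2.2 h3))]
    rw [e2]
    by_cases h1 : ∀ j, L (v j) = L (v 0)
    · rw [if_pos h1, if_pos (e1.1 h1)]
    · rw [if_neg h1, if_neg fun h2 => h1 (e1.2 h2)]
  · push Not at hv
    obtain ⟨j, hj⟩ := hv
    have h0 : p (v j) = 0 := le_antisymm hj (hp _)
    have h1 : ∏ j, p (v j) = 0 := Finset.prod_eq_zero (Finset.mem_univ j) h0
    rw [h1]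
    simp

/-- Two times of a line, given an event. -/
theorem tm_cnd {q : Ω → ℝ} (hq : IsLaw q) {G : Ω → Prop} (hG : 1 / 2 ≤ Pb q G) {W R Λ : Type}
    {wn : Ω → W} {rc : Ω → R} (hrc : Det q wn rc) {L : Ω → Λ}
    (hL : Det (Pool.Agent.H49.Ent.cond q G True) rc L) {A : (Fin 2 → Ω) → Prop} {δ : ℝ}
    (hδ : 0 < δ)
    (h : ∀ (Λ : Type) (L : Ω → Λ), (∀ ω ω', 0 < q ω → 0 < q ω' → wn ω = wn ω' → L ω = L ω') →
      Pb (tup q L 1) A ≤ δ * δ) :
    Pb (tup (Pool.Agent.H49.Ent.cond q G True) L 1) A ≤ 4 * δ := by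
  classical
  obtain ⟨p, hp⟩ : ∃ p : Ω → ℝ, p = Pool.Agent.H49.Ent.cond q G True := ⟨_, rfl⟩
  rw [← hp] at hL ⊢
  have hpl : IsLaw p := by
    rw [hp]
    exact cnd_law hq hG
  obtain ⟨L', hL'⟩ : ∃ L' : Ω → Option Λ, L' = fun ω =>
    if h : ∃ ω', 0 < p ω' ∧ rc ω' = rc ω then some (L h.choose) else none := ⟨_, rfl⟩
  have e1 : ∀ ω, 0 < p ω → L' ω = some (L ω) := by
    intro ω hω
    have h1 : ∃ ω', 0 < p ω' ∧ rc ω' = rc ω := ⟨ω, hω, rfl⟩
    rw [hL']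
    beta_reduce
    rw [dif_pos h1, hL _ _ h1.choose_spec.1 hω h1.choose_spec.2]
  have e2 : ∀ ω ω', rc ω = rc ω' → L' ω = L' ω' := by
    intro ω ω' e
    rw [hL']
    beta_reduce
    have key : ∀ v v' : R, v = v' → (if h : ∃ ω', 0 < p ω' ∧ rc ω' = v then some (L h.choose)
        else none) = (if h : ∃ ω', 0 < p ω' ∧ rc ω' = v' then some (L h.choose) else none) := by
      intro v v' hv
      rw [hv]
    exact key _ _ e
  have e3 := h (Option Λ) L' fun ω ω' a b e => e2 ω ω' (hrc ω ω' a b e)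
  have e4 := tup_cnd hq L' hG hδ 1 A (ε := δ) (by rwa [pow_one])
  rw [← hp] at e4
  rw [tup_cg hpl.nonneg L L' (fun ω ω' a b => by rw [e1 ω a, e1 ω' b, Option.some_inj]) 1]
  linarith

/-- The `(d + 2)`-point vectors in other letters. -/
theorem dd_cg {T T' : Type} {c k : ℕ} (d : ℕ) {tau : T → ℤ} {E : T → Fin k → Fin c → ℝ}
    {tau' : T' → ℤ} {E' : T' → Fin k → Fin c → ℝ} {t : Fin (d + 2) → T} {t' : Fin (d + 2) → T'}
    (h1 : ∀ j, tau (t j) = tau' (t' j)) (h2 : ∀ j u i, E (t j) u i = E' (t' j) u i) (u : Fin k)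
    (i : Fin c) : dd d tau E u t i = dd d tau' E' u t' i := by
  unfold dd
  simp only [h1, h2]

end gen

/-- The real time of an abstract time. -/
def tauT {G : Type} {c k0 k1 : ℕ} (J w X : ℕ) (t : TT G c k0 k1) : ℤ := (tq J w X t.2.1 : ℕ)

/-- The slopes of an abstract time. -/
noncomputable def ET {G : Type} {c k k0 k1 : ℕ} (X : ℕ) (f : Fin k → Fin (k0 + k1))
    (t : TT G c k0 k1) (l : Fin k) (u : Fin c) : ℝ := (t.2.2 u (f l) : ℝ) / 2 ^ X

/-- The hypotheses on the pictures of a call: the picture `H` at the place `m`. -/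
structure PcOk (D : NDat2) (n d J w z j r X : ℕ) (th : ℝ) (gam : ℕ → ℝ) (C : ℝ) (q : D.Ω → ℝ)
    (E : D.Ω → Prop) (i : ℕ → ℕ) (P : ℕ → D.Γ × D.Γ → ℕ → PN) (S : ℕ → Slo D) {c k k0 k1 d₀ : ℕ}
    (ys : Fin (k0 + k1) → ℕ) (gs : Fin c → ℕ) (f : Fin k → Fin (k0 + k1)) (p : D.Ω → ℝ)
    (N₁ io Cc : ℝ) (H : PD D.Ω c k d₀) (m : ℕ) : Prop where
  ok : (H.q p).OkNS X Cc (io / 2 * X)
  tt : Det p H.th (tv (c := c) (k0 := k0) (k1 := k1) D J w z (i m) j r X C (S m) ys gs)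
  bb : Det p H.b (cb D J w (i m) j r)
  vv : Det p H.v (fun ω => vv (c := c) (k0 := k0) (k1 := k1) D J w z (i m) j r d X C (P m) ys gs
    (repr D J w (i (m + 1)) j q E ω))
  near : ∀ ω, 0 < p ω → ∀ u, |(H.hgt ω u : ℝ) -
    hv (c := c) (k0 := k0) (k1 := k1) D z (i m) j r X C (P m) (S m) gs n th gam ω u| ≤ N₁
  line : Det p (rcR D J w (i (m + 1)) j) H.line
  tau : ∀ ω, H.tau (H.th ω) = (tq J w X (D.T ω) : ℕ)
  slo : ∀ ω l u, H.E (H.th ω) l u = (Sv D z X C (S m) ys gs ω u (f l) : ℝ) / 2 ^ X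

/-- **A call over places of a column.** -/
theorem call_col {c k k0 k1 d₀ d : ℕ} (f : Fin k → Fin (k0 + k1)) (hd : 1 ≤ d₀)
    (hT : TcStmt c k d₀) {h x x₀ ε₀ : ℝ} (A : ℕ) (hh : 0 < h) (hh1 : h ≤ 1) (hx : 0 ≤ x)
    (hx₀ : 0 < x₀) (hxx : x + x₀ < h) (hε₀ : 0 < ε₀) :
    ∃ (Nn : ℕ) (γ δ δ₂ io ϖ : ℝ), 0 < γ ∧ 0 < δ ∧ 0 < δ₂ ∧ 0 < io ∧ 0 < ϖ ∧
    ∀ Cc s : ℝ, 1 ≤ Cc → 0 < s → s ≤ 1 → ∃ X0 : ℕ,
    ∀ (D : NDat2) (n K K' J a₀ w₀ z M w j r r2 r' r'' y a XC X Np : ℕ) (th : ℝ)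
      (lam gam : ℕ → ℝ) (κ C₁ C : ℝ) (q : D.Ω → ℝ) (E : D.Ω → Prop) (i : ℕ → ℕ)
      (P : ℕ → D.Γ × D.Γ → ℕ → PN) (S : ℕ → Slo D) (ys : Fin (k0 + k1) → ℕ) (gs : Fin c → ℕ),
      X0 ≤ X → X ≤ XC →
      Col D n d K K' J a₀ w₀ z M w j r r2 r' r'' y a XC Np th lam gam κ C₁ C q E i P S ys gs →
      ∀ (V : ℕ → Vis D.Ω c) (Dv : ∀ m, (Fin c → ℝ) → (V m).Dr) (N₁ γ₁ δ₁ δ₃ io₁ io' ϖ₁ : ℝ),
      γ₁ ≤ γ → δ₁ ≤ δ → 0 < δ₃ → 4 * δ₃ ≤ δ₂ → io₁ ≤ io → ϖ₁ ≤ ϖ →
      Sid D n d J w z j r M X Np th gam C q E i P S ys gs V Dv A N₁ γ₁ δ₁ (δ₃ * δ₃) io₁ io' h x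
        ϖ₁ s →
      ∀ (G : D.Ω → Prop), (∀ ω, G ω → E ω) → 1 / 2 ≤ Pb q G →
      ∀ (H : ℕ → PD D.Ω c k d₀) (μ : ℕ → ℕ),
      (∀ t < Nn, μ t < μ (t + 1)) → (∀ t ≤ Nn, μ t ≤ Np) →
      (∀ t ≤ Nn, PcOk D n d J w z j r X th gam C q E i P S ys gs f
        (Pool.Agent.H49.Ent.cond q G True) N₁ io₁ Cc (H t) (μ t)) →
      ∃ t < Nn, Pb (tup (Pool.Agent.H49.Ent.cond q G True) (H t).line (d₀ + 2)) (fun v => ∃ l u,
        2 ^ (-(x₀ * X)) < |dd d₀ (tauT J w X) (ET X f) l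
          (fun j' => tv (c := c) (k0 := k0) (k1 := k1) D J w z (i (μ t)) j r X C (S (μ t)) ys gs
            (v j'.succ)) u|) ≤ ε₀ := by
  obtain ⟨Nn, γ, δ, δ₂, io, ϖ, a1, a2, a3, a4, a5, hcall⟩ :=
    call_gen hd hT A hh hh1 hx hx₀ hxx hε₀
  refine ⟨Nn, γ, δ, δ₂, io, ϖ, a1, a2, a3, a4, a5, ?_⟩
  intro Cc s hCc hs hs1
  obtain ⟨X0, hcall⟩ := hcall Cc s hCc hs hs1
  refine ⟨X0, ?_⟩
  intro D n K K' J a₀ w₀ z M w j r r2 r' r'' y a XC X Np th lam gam κ C₁ C q E i P S ys gs hX hXC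
    HC V Dv N₁ γ₁ δ₁ δ₃ io₁ io' ϖ₁ b1 b2 b3 b4 b5 b6 HS G hGE hG H μ hμ hμN HP
  have hq := (HC.hyp 0 (Nat.zero_le _)).ok.isLaw
  have hX0 : (0 : ℝ) ≤ X := Nat.cast_nonneg X
  have h2 : (1 : ℝ) ≤ 2 := one_le_two
  obtain ⟨p, hp⟩ : ∃ p : D.Ω → ℝ, p = Pool.Agent.H49.Ent.cond q G True := ⟨_, rfl⟩
  have hpl : IsLaw p := by
    rw [hp]
    exact cnd_law hq hG
  have hsup : ∀ ω, 0 < p ω → 0 < q ω ∧ E ω := fun ω hω => by
    rw [hp] at hω
    obtain ⟨c1, c2⟩ := cond_sup hq.nonneg hω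
    exact ⟨c1, hGE ω c2⟩
  have hdet : ∀ {R R' : Type} {f : D.Ω → R} {g : D.Ω → R'}, Det q f g → Det p f g :=
    fun hfg ω ω' a b e => hfg ω ω' (hsup ω a).1 (hsup ω' b).1 e
  rw [← hp] at HP ⊢
  have hγX : ∀ {γ' : ℝ}, γ₁ ≤ γ' → (2 : ℝ) ^ (γ₁ * X) ≤ 2 ^ (γ' * X) := fun h' =>
    Real.rpow_le_rpow_of_exponent_le h2 (mul_le_mul_of_nonneg_right h' hX0)
  have hvis : ∀ t ≤ Nn, (V (μ t)).Ok p (H t).th (H t).b (H t).hgt X γ₁ io₁ h x ϖ₁ ∧
      DirV (V (μ t)) (Dv (μ t)) p (H t).th (H t).b (H t).hgt (2 ^ (A * δ₁ * X)) := by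
    intro t ht
    have hm := hμN t ht
    have hpm := HC.prm hm hGE hG hXC
    have hok := (HP t ht).ok
    rw [hp] at HP hok ⊢
    refine HS.vis (μ t) hm G hGE hG (i (μ t + 1)) (repr D J w (i (μ t + 1)) j q E) hpm _ _ _ _ _
      (H t).v _ ⟨(HP t ht).tt, (HP t ht).bb, (HP t ht).vv, (HP t ht).near, ?_⟩
    have h3 := hok.h2
    unfold MI
    exact h3
  obtain ⟨m, hmN, hm⟩ := hcall D.Ω p H (fun t => V (μ t)) (fun t => Dv (μ t))
    (fun t => if ht : t < Nn then (HS.chg (μ t) (μ (t + 1)) (hμ t ht) (hμN (t + 1) ht)).choose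
      else 1)
    (fun t l => if ht : t < Nn then
      (HS.chg (μ t) (μ (t + 1)) (hμ t ht) (hμN (t + 1) ht)).choose_spec.choose (f l) else 0)
    X hX hpl
    (fun t ht => by
      have h3 := (HP t ht).ok
      have h4 : io₁ / 2 * X ≤ io * X := by
        refine mul_le_mul_of_nonneg_right ?_ hX0
        by_cases h5 : 0 ≤ io₁
        · linarith
        · linarith
      exact { h3 with
        h0 := h3.h0.trans h4
        h2 := h3.h2.trans h4
        y_f := le_trans (sub_le_sub_left h4 _) h3.y_f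
        t_f := le_trans (sub_le_sub_left h4 _) h3.t_f })
    (fun t ht => by
      have h3 := (hvis t ht).1
      exact
        { bR := h3.bR
          Z_b := fun ω i => (h3.Z_b ω i).trans
            (mul_le_mul_of_nonneg_right (hγX b1) (by positivity))
          Q_b := fun ω e i => (h3.Q_b ω e i).trans
            (mul_le_mul_of_nonneg_right (hγX b1) (by positivity))
          rel := fun ω ω' c1 c2 c3 c4 c5 c6 i => (h3.rel ω ω' c1 c2 c3 c4 c5 c6 i).trans (hγX b1)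
          wd := h3.wd.trans (mul_le_mul_of_nonneg_right b5 hX0)
          b1 := fun G' hG' => h3.b1 G' (b6.trans hG')
          b2 := fun f' G' hG' => h3.b2 f' G' (b6.trans hG') })
    (fun t ht => by
      have h3 := (hvis t ht).2
      intro v i0 c1 c2 ω ω' c3 c4 c5 c6 c7 c8 i'
      refine (h3 v i0 c1 c2 ω ω' c3 c4 c5 c6 c7 c8 i').trans ?_
      refine Real.rpow_le_rpow_of_exponent_le h2 ?_
      refine mul_le_mul_of_nonneg_right ?_ hX0
      exact mul_le_mul_of_nonneg_left b2 (Nat.cast_nonneg _))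
    (fun t ht => by
      have h3 := HP t ht
      have hm := hμN t ht
      have e1 : (fun v : Fin 2 → D.Ω => |(((H t).tau ((H t).th (v 0)) -
          (H t).tau ((H t).th (v 1)) : ℤ) : ℝ)| ≤ s * 2 ^ X) =
          (fun v => |(((tq J w X (D.T (v 0)) : ℤ) - tq J w X (D.T (v 1)) : ℤ) : ℝ)| ≤
            s * 2 ^ X) := by
        funext v
        rw [h3.tau, h3.tau]
      have e2 := h3.line
      refine le_trans (le_of_eq ?_) ((tm_cnd hq hG (HC.rwn (m := μ t + 1) (by omega))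
        (L := (H t).line) (by rw [← hp]; exact e2) b3 HS.tm).trans b4)
      rw [← hp, ← e1])
    (fun t ht => by
      have h3 := HP t ht.le
      have h4 := HP (t + 1) ht
      obtain ⟨g1, g2, g3, g4, g5⟩ :=
        (HS.chg (μ t) (μ (t + 1)) (hμ t ht) (hμN (t + 1) ht)).choose_spec.choose_spec
      have hm1 := hμN (t + 1) ht
      have hm2 := hμ t ht
      exact
        { RL := by
            intro ω ω' p1 p2 e
            have e1 := HS.hR (μ (t + 1)) hm1 ω ω' (hsup ω p1).1 (hsup ω' p2).1 e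
            have e2 := HC.rR (m := μ t + 1) (m' := μ (t + 1)) hm2 (by omega) ω ω' (hsup ω p1).1
              (hsup ω' p2).1 e1
            exact h3.line ω ω' p1 p2 e2
          tau_eq := fun ω => by rw [h3.tau, h4.tau]
          M_det := by
            rw [dif_pos ht]
            exact g1
          M_b := fun u v => by
            rw [dif_pos ht]
            exact (g2 u v).trans (hγX b1)
          M_inv := fun u v => by
            rw [dif_pos ht]
            exact (g3 u v).trans (hγX b1)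
          ph_b := fun l => by
            rw [dif_pos ht]
            exact (g4 (f l)).trans (hγX b1)
          chg := fun ω hω l u => by
            rw [dif_pos ht, dif_pos ht]
            have e1 := g5 ω (hsup ω hω).1 (hsup ω hω).2 (f l) u
            have e2 : (H t).E ((H t).th ω) l = fun v =>
                (Sv D z X C (S (μ t)) ys gs ω v (f l) : ℝ) / 2 ^ X := by
              funext v
              exact h3.slo ω l v
            rw [h4.slo, e2]
            exact e1.trans (div_le_div_of_nonneg_right (hγX b1) (by positivity)) })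
  refine ⟨m, hmN, le_trans (le_of_eq ?_) hm⟩
  have h3 := HP m hmN.le
  congr 1
  funext v
  refine propext (exists_congr fun l => exists_congr fun u => ?_)
  have e1 : dd d₀ (tauT J w X) (ET X f) l
      (fun j' => tv (c := c) (k0 := k0) (k1 := k1) D J w z (i (μ m)) j r X C (S (μ m)) ys gs
        (v j'.succ)) u =
      dd d₀ (H m).tau (H m).E l (fun j' => (H m).th (v j'.succ)) u := by
    refine dd_cg d₀ (fun j' => ?_) (fun j' l' u' => ?_) l u
    · rw [h3.tau]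
      rfl
    · rw [h3.slo]
      rfl
  rw [e1]

end Pool.TC
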