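import Pool.Agent.H30.TC.Cor

/-!
# TC: the two calls, the statement

`Sid`: everything which is used for `X` digits at a column of places. `CoreStmt`: at one of the
places the own slopes of the group are polynomials of degree `2 d` in the time, with coefficients
which are functions of the line.
-/

set_option autoImplicit false

namespace Pool.TC

open Finset Real Matrix
open Pool.Agent.H49.Ent Pool.Agent.H32.Dense Pool.STK Pool.STAT Pool.POT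
open Pool.BFL (Pb)
open Pool.SLO (tup)
open Pool.P4 (t0 rt bb ze zt z0 cl1 dg dgp Ry cb LLC tq GoodS FrP err)

/-- **The hypotheses of a call** at the digits `X`, at the places `i 0, .., i Np`. -/
structure Sid (D : NDat2) (n d J w z j r M X Np : ℕ) (th : ℝ) (gam : ℕ → ℝ) (C : ℝ)
    (q : D.Ω → ℝ) (E : D.Ω → Prop) (i : ℕ → ℕ) (P : ℕ → D.Γ × D.Γ → ℕ → PN) (S : ℕ → Slo D)
    {c k0 k1 : ℕ} (ys : Fin (k0 + k1) → ℕ) (gs : Fin c → ℕ) (V : ℕ → Vis D.Ω c)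
    (Dv : ∀ m, (Fin c → ℝ) → (V m).Dr) (A : ℕ) (N₁ γ δ δ₂ io io' h x ϖ s : ℝ) : Prop where
  /-- the entropies [`ent_cnd`], errors `io' X` with `io'` small against `io` -/
  ent : ∀ m ≤ Np, ∀ G : D.Ω → Prop, 1 / 2 ≤ Pb q G →
    EntP D n d J w z (i m) j r X th gam C (P m) (S m) ys gs (Pool.Agent.H49.Ent.cond q G True)
      (io' * X)
  /-- two times of a line are not near [`TMStmt`] -/
  tm : ∀ (Λ : Type) (L : D.Ω → Λ), (∀ ω ω', 0 < q ω → 0 < q ω' →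
      D.wn J w ω = D.wn J w ω' → L ω = L ω') →
    Pb (tup q L 1) (fun v => |(((tq J w X (D.T (v 0)) : ℤ) - tq J w X (D.T (v 1)) : ℤ) : ℝ)| ≤
      s * 2 ^ X) ≤ δ₂
  /-- the change of the own slopes between two places -/
  chg : ∀ m m', m < m' → m' ≤ Np → ∃ (Mt : Matrix (Fin c) (Fin c) ℝ) (ph : Fin (k0 + k1) → ℝ),
    Mt.det ≠ 0 ∧ (∀ u v, |Mt u v| ≤ 2 ^ (γ * X)) ∧ (∀ u v, |Mt⁻¹ u v| ≤ 2 ^ (γ * X)) ∧
    (∀ b, |ph b| ≤ 2 ^ (γ * X)) ∧ ∀ ω, 0 < q ω → E ω → ∀ (b : Fin (k0 + k1)) (u : Fin c),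
      |(Sv D z X C (S m') ys gs ω u b : ℝ) / 2 ^ X -
        ph b * (Mt *ᵥ fun v => (Sv D z X C (S m) ys gs ω v b : ℝ) / 2 ^ X) u| ≤
          2 ^ (γ * X) / 2 ^ X
  /-- the record of the visible side knows the closed context and the window -/
  hR : ∀ m ≤ Np, Det q (V m).R (rcR D J w (i m) j)
  /-- the visible side -/
  vis : ∀ m ≤ Np, VisF (c := c) (k0 := k0) (k1 := k1) D J w z (i m) j r d X n th gam C (P m) (S m)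
    ys gs M q E (V m) (Dv m) N₁ γ io h x ϖ (2 ^ (A * δ * X))

/-- **The two calls.** `X` are the digits of the first call, `X'` the digits of the second call. -/
def CoreStmt (c k0 k1 d : ℕ) : Prop :=
  ∀ (h x x₀ e : ℝ) (A : ℕ), 0 < h → h ≤ 1 → 0 ≤ x → 0 < x₀ → x + x₀ < h → 0 < e → e ≤ 1 / 4 →
  ∃ (Np m₁ : ℕ) (γ δ δ₂ io io' ϖ : ℝ), 1 ≤ m₁ ∧ 0 < γ ∧ 0 < δ ∧ 0 < δ₂ ∧ 0 < io ∧ 0 < io' ∧
    0 < ϖ ∧
  ∀ s : ℝ, 0 < s → s ≤ 1 → ∃ N N₁ : ℝ, 1 ≤ N ∧ 1 ≤ N₁ ∧ ∃ X0 : ℕ,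
  ∀ (D : NDat2) (n K K' J a₀ w₀ z M w j r r2 r' r'' y a x' : ℕ) (th : ℝ) (lam gam : ℕ → ℝ)
    (κ C₁ C : ℝ) (q : D.Ω → ℝ) (E : D.Ω → Prop) (i : ℕ → ℕ) (P : ℕ → D.Γ × D.Γ → ℕ → PN)
    (S : ℕ → Slo D) (ys : Fin (k0 + k1) → ℕ) (gs : Fin c → ℕ),
    X0 ≤ x' * z →
    Col D n d K K' J a₀ w₀ z M w j r r2 r' r'' y a (m₁ * x' * z) Np th lam gam κ C₁ C q E i P S
      ys gs →
    Pb q (fun ω => ¬ E ω) ≤ 1 / 4 →
    ∀ (V V' : ℕ → Vis D.Ω c) (Dv : ∀ m, (Fin c → ℝ) → (V m).Dr)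
      (Dv' : ∀ m, (Fin c → ℝ) → (V' m).Dr),
    Sid D n d J w z j r M (m₁ * x' * z) Np th gam C q E i P S ys gs V Dv A N₁ γ δ δ₂ io io' h x
      ϖ s →
    Sid D n d J w z j r M (x' * z) Np th gam C q E i P S ys gs V' Dv' A N₁ γ δ δ₂ io io' h x ϖ s →
    ∃ m ≤ Np, ∃ (ep : D.Ω → Fin (2 * d + 1) → Fin c → Fin (k0 + k1) → ℝ) (Ev : D.Ω → Prop),
      Pb q (fun ω => ¬ Ev ω) ≤ Pb q (fun ω => ¬ E ω) + e ∧
      (∀ ω, Ev ω → 0 < q ω ∧ E ω) ∧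
      (∀ ω ω', Ev ω → Ev ω' → D.wn J w ω = D.wn J w ω' → ep ω = ep ω') ∧
      (∀ ω, Ev ω → ∀ t u b, |ep ω t u b| ≤ N) ∧
      ∀ ω, Ev ω → ∀ u b,
        |(Sv D z (x' * z) C (S m) ys gs ω u b : ℝ) / 2 ^ (x' * z) -
          ∑ t : Fin (2 * d + 1), ep ω t u b *
            (((tq J w (x' * z) (D.T ω) : ℤ) : ℝ) / 2 ^ (x' * z)) ^ (t : ℕ)| ≤
          N * 2 ^ (-(x₀ * (x' * z : ℕ)))

end Pool.TC
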