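import Pool.Agent.H30.TC.Blk

/-!
# TC: the two calls

`core`: `TcStmt c k1 d` and `TcStmt c k0 (2 d)` imply `CoreStmt c k0 k1 d`.
-/

set_option autoImplicit false

namespace Pool.TC

open Finset Real Matrix
open Pool.Agent.H49.Ent Pool.Agent.H32.Dense Pool.STK Pool.STAT Pool.POT
open Pool.BFL (Pb)
open Pool.SLO (tup)
open Pool.TT37 (dd)
open Pool.BD64 (QHd)
open Pool.TC35 (TcStmt)
open Pool.P4 (t0 rt bb ze zt z0 cl1 dg dgp Ry cb LLC tq GoodS FrP err)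

/-- A sum over the powers up to `d` as a sum over the powers up to `2 d`. -/
theorem sum_ext {d : ℕ} (g : Fin (d + 1) → ℝ) (x : ℝ) :
    ∑ n : Fin (2 * d + 1), (if h : (n : ℕ) < d + 1 then g ⟨n, h⟩ else 0) * x ^ (n : ℕ) =
      ∑ n : Fin (d + 1), g n * x ^ (n : ℕ) := by
  obtain ⟨G, hG⟩ : ∃ G : ℕ → ℝ, G = fun n => (if h : n < d + 1 then g ⟨n, h⟩ else 0) * x ^ n :=
    ⟨_, rfl⟩
  have e1 : ∑ n : Fin (2 * d + 1), (if h : (n : ℕ) < d + 1 then g ⟨n, h⟩ else 0) * x ^ (n : ℕ) =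
      ∑ n ∈ Finset.range (2 * d + 1), G n := by
    rw [Finset.sum_range]
    rw [hG]
  have e2 : ∑ n : Fin (d + 1), g n * x ^ (n : ℕ) = ∑ n ∈ Finset.range (d + 1), G n := by
    rw [Finset.sum_range, hG]
    refine Finset.sum_congr rfl fun n _ => ?_
    beta_reduce
    rw [dif_pos n.2]
  rw [e1, e2]
  refine (Finset.sum_subset (Finset.range_subset_range.2 (by omega)) fun n _ hn => ?_).symm
  rw [hG]
  beta_reduce
  rw [dif_neg (by simpa using hn), zero_mul]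

/-- The price of the digits of the coefficients is a logarithm. -/
theorem log_price {N₀ : ℝ} (hN : 0 ≤ N₀) (Y : ℕ) (hY : Real.log (2 * N₀ + 3) ≤ Y) :
    Real.log (2 * (2 ^ Y * N₀ + 1) + 1) ≤ 2 * Y := by
  have h1 : (1 : ℝ) ≤ 2 ^ Y := one_le_pow₀ (by norm_num)
  have h2 : 2 * (2 ^ Y * N₀ + 1) + 1 ≤ 2 ^ Y * (2 * N₀ + 3) := by nlinarith
  have h3 : Real.log (2 * (2 ^ Y * N₀ + 1) + 1) ≤ Real.log (2 ^ Y * (2 * N₀ + 3)) :=
    Real.log_le_log (by positivity) h2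
  rw [Real.log_mul (by positivity) (by positivity), Real.log_pow] at h3
  have h4 : Real.log 2 ≤ 1 := by linarith [Real.log_two_lt_d9]
  have h5 : (Y : ℝ) * Real.log 2 ≤ Y := mul_le_of_le_one_right (Nat.cast_nonneg _) h4
  linarith

/-- A good event and the events of finitely many places. -/
theorem pb_fin {Ω : Type} [Fintype Ω] {q : Ω → ℝ} (hq : IsLaw q) {E : Ω → Prop}
    (hE : 0 < Pb q E) {Nb : ℕ} (F : ℕ → Ω → Prop) {β : ℝ}
    (h : ∀ b ≤ Nb, Pb (Pool.Agent.H49.Ent.cond q E True) (fun ω => ¬ F b ω) ≤ β)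
    (hl : IsLaw (Pool.Agent.H49.Ent.cond q E True)) :
    Pb q (fun ω => ¬ (E ω ∧ ∀ b ≤ Nb, F b ω)) ≤ Pb q (fun ω => ¬ E ω) + (Nb + 1) * β := by
  classical
  refine (pb_sub hq hE _).trans (add_le_add le_rfl ?_)
  have h1 : Pb (Pool.Agent.H49.Ent.cond q E True) (fun ω => ¬ ∀ b ≤ Nb, F b ω) ≤
      Pb (Pool.Agent.H49.Ent.cond q E True) (fun ω => ∃ b : Fin (Nb + 1), ¬ F b ω) := by
    refine Pool.TT37.pb_mono hl.nonneg fun ω _ h2 => ?_
    push Not at h2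
    obtain ⟨b, hb, h3⟩ := h2
    exact ⟨⟨b, by omega⟩, h3⟩
  refine h1.trans ((Pool.TT37.pb_union hl.nonneg _).trans ?_)
  refine (Finset.sum_le_sum fun (b : Fin (Nb + 1)) _ => h b.1 (by have := b.2; omega)).trans
    (le_of_eq ?_)
  rw [Finset.sum_const, Finset.card_univ, Fintype.card_fin, nsmul_eq_mul]
  push_cast
  ring

/-- Large enough. -/
theorem lrg (a ε : ℝ) (hε : 0 < ε) : ∃ X0 : ℕ, ∀ X : ℕ, X0 ≤ X → a ≤ ε * X := by
  obtain ⟨X0, h⟩ := exists_nat_gt (a / ε)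
  refine ⟨X0, fun X hX => ?_⟩
  have h1 : (X0 : ℝ) ≤ X := by exact_mod_cast hX
  rw [div_lt_iff₀ hε] at h
  nlinarith

/-- **The two calls.** -/
theorem core {c k0 k1 d : ℕ} (hd : 1 ≤ d) (hA : TcStmt c k1 d) (hB : TcStmt c k0 (2 * d)) :
    CoreStmt c k0 k1 d := by
  classical
  intro h x x₀ e A hh hh1 hx hx₀ hxx he he1
  obtain ⟨Nb, γb, δb, δ₂b, iob, ϖb, p1, p2, p3, p4, p5, hcB⟩ :=
    call_col (k0 := k0) (k1 := k1) (d := d) (Fin.castAdd k1) (by omega : 1 ≤ 2 * d) hB A hh hh1 hx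
      hx₀ hxx (ε₀ := e / (4 * (2 * d + 2))) (by positivity)
  obtain ⟨Na, γa, δa, δ₂a, ioa, ϖa, q1, q2, q3, q4, q5, hcA⟩ :=
    blk (k0 := k0) hd hA A hh hh1 hx hx₀ hxx (ε₀ := e / (4 * ((Nb + 1) * (d + 2))))
      (by positivity)
  obtain ⟨io, hio⟩ : ∃ io : ℝ, io = min ioa iob := ⟨_, rfl⟩
  have io0 : 0 < io := by
    rw [hio]
    exact lt_min q4 p4
  obtain ⟨W, hW⟩ : ∃ W : ℝ, W = 768 * ((d + 1) ^ 3 * (c * k1) + 1) := ⟨_, rfl⟩
  have W0 : 0 < W := by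
    rw [hW]
    positivity
  obtain ⟨δ₃, hδ₃⟩ : ∃ δ₃ : ℝ, δ₃ = min (min (δ₂a / 4) (δ₂b / 4))
    (min (min (e / (16 * (2 * d + 2) ^ 2)) (e / (16 * ((Nb + 1) * (d + 2) ^ 2)))) (io / W)) :=
    ⟨_, rfl⟩
  have δ0 : 0 < δ₃ := by
    rw [hδ₃]
    refine lt_min (lt_min (by positivity) (by positivity))
      (lt_min (lt_min (by positivity) (by positivity)) (div_pos io0 W0))
  have δ1 : 4 * δ₃ ≤ δ₂a := by
    have : δ₃ ≤ δ₂a / 4 := by
      rw [hδ₃]
      exact (min_le_left _ _).trans (min_le_left _ _)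
    linarith
  have δ2 : 4 * δ₃ ≤ δ₂b := by
    have : δ₃ ≤ δ₂b / 4 := by
      rw [hδ₃]
      exact (min_le_left _ _).trans (min_le_right _ _)
    linarith
  have δ4 : δ₃ ≤ e / (16 * (2 * d + 2) ^ 2) := by
    rw [hδ₃]
    exact (min_le_right _ _).trans ((min_le_left _ _).trans (min_le_left _ _))
  have δ5 : δ₃ ≤ e / (16 * ((Nb + 1) * (d + 2) ^ 2)) := by
    rw [hδ₃]
    exact (min_le_right _ _).trans ((min_le_left _ _).trans (min_le_right _ _))
  have δ6 : δ₃ ≤ io / W := by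
    rw [hδ₃]
    exact (min_le_right _ _).trans (min_le_right _ _)
  obtain ⟨m₁, hm₁⟩ : ∃ m₁ : ℕ, m₁ = ⌈2 / x₀⌉₊ := ⟨_, rfl⟩
  have m1 : 2 ≤ x₀ * m₁ := by
    have h1 := Nat.le_ceil (2 / x₀)
    rw [← hm₁, div_le_iff₀ hx₀] at h1
    linarith
  have m2 : 1 ≤ m₁ := by
    rcases Nat.eq_zero_or_pos m₁ with h0 | h0
    · rw [h0] at m1
      norm_num at m1
    · exact h0
  have m2' : (1 : ℝ) ≤ m₁ := by exact_mod_cast m2
  obtain ⟨io', hio'⟩ : ∃ io' : ℝ, io' = io / (64 * ((d + 1) * m₁)) := ⟨_, rfl⟩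
  have io'0 : 0 < io' := by
    rw [hio']
    positivity
  have io'1 : (d + 1) * io' * m₁ = io / 64 := by
    rw [hio']
    field_simp
  have d0 : (0 : ℝ) ≤ d := Nat.cast_nonneg d
  have io'2 : io' ≤ io / 64 := by
    rw [← io'1]
    have h1 : 1 * io' ≤ ((d + 1) * m₁) * io' := by
      refine mul_le_mul_of_nonneg_right ?_ io'0.le
      nlinarith
    linarith
  refine ⟨(Nb + 1) * (Na + 1) - 1, m₁, min γa γb, min δa δb, δ₃ * δ₃, io, io', min ϖa ϖb, m2,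
    lt_min q1 p1, lt_min q2 p2, mul_pos δ0 δ0, io0, io'0, lt_min q5 p5, ?_⟩
  obtain ⟨Np, hNp⟩ : ∃ Np : ℕ, Np = (Nb + 1) * (Na + 1) - 1 := ⟨_, rfl⟩
  have hNp' : Np + 1 = (Nb + 1) * (Na + 1) := by
    have : 1 ≤ (Nb + 1) * (Na + 1) := Nat.mul_pos (by omega) (by omega)
    omega
  rw [← hNp]
  intro s hs hs1
  obtain ⟨N₀, hN₀⟩ : ∃ N₀ : ℝ, N₀ = (d + 1) * (1 * (2 / s) ^ (d + 1)) := ⟨_, rfl⟩
  have N₀0 : 0 ≤ N₀ := by
    rw [hN₀]
    positivity
  obtain ⟨Nq, hNq⟩ : ∃ Nq : ℝ, Nq = ((2 * d : ℕ) + 1 : ℝ) * (1 * (2 / s) ^ (2 * d + 1)) := ⟨_, rfl⟩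
  have Nq0 : 0 ≤ Nq := by
    rw [hNq]
    positivity
  obtain ⟨N', hN'⟩ : ∃ N' : ℝ, N' = 3 + d + (d + 1) * (N₀ * d) := ⟨_, rfl⟩
  have N'0 : 0 ≤ N' := by
    rw [hN']
    positivity
  obtain ⟨Ns, hNs⟩ : ∃ Ns : ℝ, Ns = 1 / s ^ (2 * d + 2) := ⟨_, rfl⟩
  have Ns0 : 0 ≤ Ns := by
    rw [hNs]
    positivity
  obtain ⟨Xb, hcB⟩ := hcB (cBb d k0 k1 N₀) s (by linarith [(cBb_ge d k0 k1 N₀0).1]) hs hs1
  obtain ⟨Xa, hcA⟩ := hcA s hs hs1
  obtain ⟨K1, hK1⟩ : ∃ K1 : ℝ, K1 = (d + 1) * cR c d k0 k1 +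
    ((d + 1) * (c * k1)) * (Real.log 2 + Real.log (2 * (N₀ + 1) + 1)) := ⟨_, rfl⟩
  obtain ⟨X1, hX1⟩ := lrg (cR c d k0 k1 + cA c d k0 k1) (io / 4) (by positivity)
  obtain ⟨X2, hX2⟩ := lrg (Real.log (2 * N₀ + 3)) 1 one_pos
  obtain ⟨X3, hX3⟩ := lrg (cR c d k0 k1 + cC c d k0 k1 N' + 3 * K1) (io / 4) (by positivity)
  obtain ⟨X4, hX4⟩ : ∃ X4 : ℕ, 1 / s ^ (d + 2) ≤ 2 ^ X4 := by
    obtain ⟨m, hm⟩ := pow_unbounded_of_one_lt (1 / s ^ (d + 2)) (one_lt_two (α := ℝ))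
    exact ⟨m, hm.le⟩
  refine ⟨1 + N₀ + Nq + N' + Ns, max (cN d k0 k1 + 1) (cNb d k0 k1 N'), by linarith,
    le_max_of_le_left (by linarith [cN_nn d k0 k1]), Xa + Xb + X1 + X2 + X3 + X4, ?_⟩
  intro D n K K' J a₀ w₀ z M w j r r2 r' r'' y a x' th lam gam κ C₁ C q E i P S ys gs hX0 HC hpE V
    V' Dv Dv' HS HS'
  obtain ⟨X', hX'⟩ : ∃ X' : ℕ, X' = x' * z := ⟨_, rfl⟩
  obtain ⟨X, hX⟩ : ∃ X : ℕ, X = m₁ * x' * z := ⟨_, rfl⟩
  have hXX : X = m₁ * X' := by rw [hX, hX', mul_assoc]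
  have hle : X' ≤ X := by
    rw [hXX]
    exact Nat.le_mul_of_pos_left _ m2
  have hlow : ∀ m ≤ Np, Hyp D n d K K' J a₀ w₀ z M w (i m) j r r2 r' r'' y a X' th lam gam κ C₁ C
      q E (P m) (S m) ys gs := fun m hm => by
    rw [hX']
    exact (HC.hyp m hm).lowX rfl (Nat.le_mul_of_pos_left _ m2)
  rw [← hX'] at hX0 HS' ⊢
  rw [← hX] at HC HS
  have hXr : (X : ℝ) = m₁ * X' := by
    rw [hXX]
    push_cast
    rfl
  have X'0 : (0 : ℝ) ≤ X' := Nat.cast_nonneg _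
  have hH0 := HC.hyp 0 (Nat.zero_le _)
  have hq := hH0.ok.isLaw
  have hE := hH0.pE
  have hE0 : 0 < Pb q E := by linarith
  have hwX := hH0.wX
  have hwX' : w + X' ≤ J := by omega
  -- the first call in the blocks
  have hblk : ∀ b, ∃ (m : ℕ) (ep : LA D.Γ c k0 k1 d → Fin (d + 1) → Fin c → Fin k1 → ℝ),
      b ≤ Nb → b * (Na + 1) ≤ m ∧ m < b * (Na + 1) + Na ∧ (∀ z n u l, |ep z n u l| ≤ N₀) ∧
        Pb (Pool.Agent.H49.Ent.cond q E True) (fun ω => ¬ Nr D J w z j r X C i S ys gs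
          (Fin.natAdd k0) d m (lnA (c := c) (k0 := k0) (k1 := k1) D d J w z j r X C q E i P S ys gs
            m) ep (2 ^ (-(x₀ * X)) / s ^ (d + 2)) ω) ≤
          (d + 2) * (e / (4 * ((Nb + 1) * (d + 2)))) + (d + 2) ^ 2 * (4 * δ₃) := by
    intro b
    by_cases hb : b ≤ Nb
    · have hm0 : b * (Na + 1) + Na ≤ Np := by
        have h1 : (b + 1) * (Na + 1) ≤ (Nb + 1) * (Na + 1) := Nat.mul_le_mul_right _ (by omega)
        have h2 : (b + 1) * (Na + 1) = b * (Na + 1) + (Na + 1) := by ring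
        omega
      obtain ⟨m, g1, g2, ep, g3, g4⟩ := hcA D n K K' J a₀ w₀ z M w j r r2 r' r'' y a X Np th lam gam
        κ C₁ C q E i P S ys gs (by omega) HC V Dv _ _ _ δ₃ io io' _ (min_le_left γa γb)
        (min_le_left δa δb) δ0 δ1 (by rw [hio]; exact min_le_left _ _) (min_le_left ϖa ϖb)
        (le_max_left (cN d k0 k1 + 1) (cNb d k0 k1 N')) io'0.le (by
          have h1 := hX1 X (by omega)
          have h2 : io' * X ≤ io / 64 * X := mul_le_mul_of_nonneg_right io'2 (Nat.cast_nonneg _)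
          have h3 : 0 ≤ io * X := mul_nonneg io0.le (Nat.cast_nonneg _)
          linarith) HS (b * (Na + 1)) hm0
      exact ⟨m, ep, fun _ => ⟨g1, g2, by rw [hN₀]; exact g3, g4⟩⟩
    · exact ⟨0, fun _ _ _ _ => 0, fun h => absurd h hb⟩
  choose μ ep hblk using hblk
  have hμ : ∀ t < Nb, μ t < μ (t + 1) := fun t ht => by
    have h1 := (hblk t ht.le).2.1
    have h2 := (hblk (t + 1) ht).1
    have h3 : (t + 1) * (Na + 1) = t * (Na + 1) + (Na + 1) := by ring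
    omega
  have hμN : ∀ t ≤ Nb, μ t ≤ Np := fun t ht => by
    have h1 := (hblk t ht).2.1
    have h2 : (t + 1) * (Na + 1) ≤ (Nb + 1) * (Na + 1) := Nat.mul_le_mul_right _ (by omega)
    have h3 : (t + 1) * (Na + 1) = t * (Na + 1) + (Na + 1) := by ring
    omega
  obtain ⟨F, hF⟩ : ∃ F : ℕ → D.Ω → Prop, F = fun b => Nr D J w z j r X C i S ys gs
    (Fin.natAdd k0) d (μ b) (lnA (c := c) (k0 := k0) (k1 := k1) D d J w z j r X C q E i P S ys gs
      (μ b)) (ep b) (2 ^ (-(x₀ * X)) / s ^ (d + 2)) := ⟨_, rfl⟩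
  obtain ⟨G, hG⟩ : ∃ G : D.Ω → Prop, G = fun ω => E ω ∧ ∀ b ≤ Nb, F b ω := ⟨_, rfl⟩
  have hGE : ∀ ω, G ω → E ω := fun ω hω => by
    rw [hG] at hω
    exact hω.1
  have hpG : Pb q (fun ω => ¬ G ω) ≤ Pb q (fun ω => ¬ E ω) + e / 2 := by
    have h1 := pb_fin hq hE0 (Nb := Nb) F (β := (d + 2) * (e / (4 * ((Nb + 1) * (d + 2)))) +
      (d + 2) ^ 2 * (4 * δ₃)) (fun b hb => by
        rw [hF]
        exact (hblk b hb).2.2.2) (cnd_law hq hE)
    rw [hG]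
    refine h1.trans ?_
    have h2 : (0 : ℝ) < Nb + 1 := by positivity
    have h3 : (Nb + 1 : ℝ) * ((d + 2) * (e / (4 * ((Nb + 1) * (d + 2))))) = e / 4 := by
      field_simp
    have h4 : (Nb + 1 : ℝ) * ((d + 2) ^ 2 * (4 * (e / (16 * ((Nb + 1) * (d + 2) ^ 2))))) =
        e / 4 := by
      field_simp
      norm_num
    have h5 : (Nb + 1 : ℝ) * ((d + 2) ^ 2 * (4 * δ₃)) ≤
        (Nb + 1 : ℝ) * ((d + 2) ^ 2 * (4 * (e / (16 * ((Nb + 1) * (d + 2) ^ 2))))) := by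
      refine mul_le_mul_of_nonneg_left (mul_le_mul_of_nonneg_left ?_ (by positivity)) h2.le
      linarith
    rw [mul_add]
    linarith
  have hGh : 1 / 2 ≤ Pb q G := by
    rw [pb_not hq G]
    linarith
  obtain ⟨p, hp⟩ : ∃ p : D.Ω → ℝ, p = Pool.Agent.H49.Ent.cond q G True := ⟨_, rfl⟩
  have hpl : IsLaw p := by
    rw [hp]
    exact cnd_law hq hGh
  have hsup : ∀ ω, 0 < p ω → 0 < q ω ∧ G ω := fun ω hω => by
    rw [hp] at hω
    exact cond_sup hq.nonneg hω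
  -- the lines of the first pictures
  have hPcA : ∀ t ≤ Nb, PcOk D n d J w z j r X th gam C q E i P S ys gs (Fin.natAdd k0)
      p (max (cN d k0 k1 + 1) (cNb d k0 k1 N')) io (cB d k0 k1)
      (pcA (c := c) (k0 := k0) (k1 := k1) D d J w z j r X C q E i P S ys gs (μ t)) (μ t) := by
    intro t ht
    rw [hp]
    refine HC.pcA_ok (hμN t ht) le_rfl (HC.hyp _ (hμN t ht)) hGE hGh io'0.le
      (HS.ent _ (hμN t ht) G hGh) (le_max_left _ _) ?_
    have h1 := hX1 X (by omega)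
    have h2 : io' * X ≤ io / 64 * X := mul_le_mul_of_nonneg_right io'2 (Nat.cast_nonneg _)
    have h3 : 0 ≤ io * X := mul_nonneg io0.le (Nat.cast_nonneg _)
    linarith
  have hlnA : ∀ t ≤ Nb, Det p (rcR D J w (i (μ t + 1)) j)
      (lnA (c := c) (k0 := k0) (k1 := k1) D d J w z j r X C q E i P S ys gs (μ t)) :=
    fun t ht => (hPcA t ht).line
  -- the digits of the coefficients
  obtain ⟨jq, hjq⟩ : ∃ jq : ℕ → D.Ω → Fin (d + 1) × (Fin c × Fin k1) → ℤ, jq = fun t ω v =>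
    ⌊(2 : ℝ) ^ X' * ep t (lnA (c := c) (k0 := k0) (k1 := k1) D d J w z j r X C q E i P S ys gs
      (μ t) ω) v.1 v.2.1 v.2.2⌋ := ⟨_, rfl⟩
  have hjqL : ∀ t ≤ Nb, Det p (rcR D J w (i (μ t + 1)) j) (jq t) := by
    intro t ht ω ω' a1 a2 a3
    rw [hjq]
    beta_reduce
    rw [hlnA t ht ω ω' a1 a2 a3]
  have hη : (2 : ℝ) ^ (-(x₀ * X)) / s ^ (d + 2) ≤ 1 / 2 ^ X' := by
    have h1 : (2 : ℝ) ^ (-(x₀ * X)) ≤ 2 ^ (-(2 * (X' : ℝ))) := by
      refine Real.rpow_le_rpow_of_exponent_le one_le_two ?_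
      rw [hXr]
      nlinarith
    have h2 : (2 : ℝ) ^ (-(2 * (X' : ℝ))) = 1 / 2 ^ X' * (1 / 2 ^ X') := by
      rw [Real.rpow_neg (by norm_num), mul_comm (2 : ℝ) (X' : ℝ), Real.rpow_mul (by norm_num),
        Real.rpow_natCast]
      norm_num
      ring
    have h3 : 1 / s ^ (d + 2) ≤ (2 : ℝ) ^ X' :=
      hX4.trans (pow_le_pow_right₀ one_le_two (by omega))
    have h4 : (0 : ℝ) < 2 ^ X' := by positivity
    calc (2 : ℝ) ^ (-(x₀ * X)) / s ^ (d + 2) = 2 ^ (-(x₀ * X)) * (1 / s ^ (d + 2)) := by ring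
      _ ≤ (1 / 2 ^ X' * (1 / 2 ^ X')) * 2 ^ X' := by
          rw [← h2]
          exact mul_le_mul h1 h3 (by positivity) (by positivity)
      _ = 1 / 2 ^ X' := by field_simp
  have hej : ∀ t ≤ Nb, CH p (jq t) (cb D J w (i (μ t)) j r) ≤
      (d + 1) * (io' * X + cR c d k0 k1) + ((d + 1) * (c * k1)) * (Real.log 2 +
        (((d + 1) * 0 + (d + 1) ^ 2 * (4 * δ₃)) * Real.log (2 * (2 ^ X' * N₀ + 1) + 1) +
          Real.log (2 * (N₀ + 1) + 1))) := by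
    intro t ht
    have hP := hPcA t ht
    have hpm := HC.prm (hμN t ht) hGE hGh (le_refl X)
    have hent := HS.ent _ (hμN t ht) G hGh
    have hh0 := Prm.h0_rv (HC.hyp _ (hμN t ht)) hpm hent.h0
    rw [← hp] at hh0
    have hmi : MI p (tv (c := c) (k0 := k0) (k1 := k1) D J w z (i (μ t)) j r X C (S (μ t)) ys gs)
        (lnA (c := c) (k0 := k0) (k1 := k1) D d J w z j r X C q E i P S ys gs (μ t))
        (cb D J w (i (μ t)) j r) ≤ io' * X + cR c d k0 k1 := by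
      unfold MI
      have e1 : CH p (tv (c := c) (k0 := k0) (k1 := k1) D J w z (i (μ t)) j r X C (S (μ t)) ys gs)
          (fun ω => (lv (c := c) (k0 := k0) (k1 := k1) D J w z (i (μ t)) j r d X C (P (μ t)) ys gs
            (repr D J w (i (μ t + 1)) j q E ω), cb D J w (i (μ t)) j r ω)) ≤
          CH p (tv (c := c) (k0 := k0) (k1 := k1) D J w z (i (μ t)) j r X C (S (μ t)) ys gs)
          (fun ω => (lnA (c := c) (k0 := k0) (k1 := k1) D d J w z j r X C q E i P S ys gs (μ t) ω,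
            cb D J w (i (μ t)) j r ω)) := by
        refine CH_mono_cond hpl.nonneg fun ω ω' _ _ e => ?_
        have e1 := Prod.ext_iff.1 e
        have e3 : lv (c := c) (k0 := k0) (k1 := k1) D J w z (i (μ t)) j r d X C (P (μ t)) ys gs
            (repr D J w (i (μ t + 1)) j q E ω) = lv (c := c) (k0 := k0) (k1 := k1) D J w z
            (i (μ t)) j r d X C (P (μ t)) ys gs (repr D J w (i (μ t + 1)) j q E ω') := e1.1
        have e4 := Prod.ext_iff.1 e3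
        have e5 : cxa (lv (c := c) (k0 := k0) (k1 := k1) D J w z (i (μ t)) j r d X C (P (μ t)) ys
            gs (repr D J w (i (μ t + 1)) j q E ω)).2 = cxa (lv (c := c) (k0 := k0) (k1 := k1) D J
            w z (i (μ t)) j r d X C (P (μ t)) ys gs (repr D J w (i (μ t + 1)) j q E ω')).2 := by
          rw [e4.2]
        have e6 : (() : Unit) = () := rfl
        refine Prod.ext ?_ e1.2
        exact Prod.ext e4.1 (Prod.ext e4.2 (Prod.ext e1.2 (Prod.ext e6 e5)))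
      linarith
    have hLb : Det p (lnA (c := c) (k0 := k0) (k1 := k1) D d J w z j r X C q E i P S ys gs (μ t))
        (cb D J w (i (μ t)) j r) := by
      intro ω ω' _ _ e
      exact (Prod.ext_iff.1 (Prod.ext_iff.1 (Prod.ext_iff.1 e).2).2).1
    have htm := tm_cnd hq hGh (HC.rwn (m := μ t + 1) (by have := hμN t ht; omega))
      (by rw [← hp]; exact hlnA t ht) δ0 HS.tm
    rw [← hp] at htm
    have hcf := coef_few hpl
      (lnA (c := c) (k0 := k0) (k1 := k1) D d J w z j r X C q E i P S ys gs (μ t))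
      (tv (c := c) (k0 := k0) (k1 := k1) D J w z (i (μ t)) j r X C (S (μ t)) ys gs)
      (cb D J w (i (μ t)) j r) hLb (tauT J w X) d (ET X (Fin.natAdd k0)) (C := N₀)
      (e := 2 ^ (-(x₀ * X)) / s ^ (d + 2)) (δ₁ := 0) (δ₂ := 4 * δ₃) (D := N₀ + 1) N₀0 hs hs1
      (by positivity) (fun ω => by
        change 0 ≤ ((tq J w X (D.T ω) : ℕ) : ℤ) ∧ ((tq J w X (D.T ω) : ℕ) : ℤ) < 2 ^ X
        exact ⟨Int.natCast_nonneg _, by exact_mod_cast tq_lt hwX⟩)
      (ep t) (hblk t ht).2.2.1 (by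
        refine le_of_eq ?_
        unfold Pb
        refine Finset.sum_eq_zero fun ω _ => ?_
        rcases (hpl.nonneg ω).eq_or_lt with h0 | h0
        · rw [← h0]
          exact ite_self _
        · refine if_neg (not_not.2 ?_)
          have h1 := (hsup ω h0).2
          rw [hG] at h1
          have h2 := h1.2 t ht
          rw [hF] at h2
          exact h2) htm hmi X' (by
        have h1 : (2 : ℝ) ^ X' * (2 ^ (-(x₀ * X)) / s ^ (d + 2)) ≤ 1 := by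
          have h2 : (0 : ℝ) < 2 ^ X' := by positivity
          have h3 := mul_le_mul_of_nonneg_left hη h2.le
          refine h3.trans (le_of_eq ?_)
          field_simp
        have h4 : (2 : ℝ) ^ X' * ((d + 1) * (2 ^ (-(x₀ * X)) / s ^ (d + 2) *
            (2 / s) ^ (d + 1))) = (2 ^ X' * (2 ^ (-(x₀ * X)) / s ^ (d + 2))) *
            ((d + 1) * (2 / s) ^ (d + 1)) := by ring
        rw [h4, hN₀]
        have h5 : (0 : ℝ) ≤ (d + 1) * (2 / s) ^ (d + 1) := by positivity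
        have h6 := mul_le_mul_of_nonneg_right h1 h5
        linarith)
    rw [hjq]
    exact hcf
  -- the pictures of the second call
  have hej2 : ∀ ω, 0 < p ω → ∀ t ≤ Nb, ∀ (u : Fin c) (l : Fin k1),
      |(Sv D z X' C (S (μ t)) ys gs ω u (Fin.natAdd k0 l) : ℝ) / 2 ^ X' -
      ∑ n : Fin (d + 1), jrc N₀ X' (jq t ω) n u l * ((tq J w X' (D.T ω) : ℝ) / 2 ^ X') ^ (n : ℕ)| ≤
        N' / 2 ^ X' := by
    intro ω hω t ht u l
    have h1 := (hsup ω hω).2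
    rw [hG] at h1
    have h2 := h1.2 t ht
    rw [hF] at h2
    have h3 := h2 u l
    rw [hN']
    refine dig_pass hle hwX _ (fun n => ep t (lnA (c := c) (k0 := k0) (k1 := k1) D d J w z j r X C q
      E i P S ys gs (μ t) ω) n u l) (fun n => jrc N₀ X' (jq t ω) n u l) N₀0
      (fun n => (hblk t ht).2.2.1 _ _ _ _) (fun n => ?_) hη ?_
    · rw [hjq]
      exact jrc_near (ep := ep t (lnA (c := c) (k0 := k0) (k1 := k1) D d J w z j r X C q
        E i P S ys gs (μ t) ω)) (fun s u l => (hblk t ht).2.2.1 _ s u l) n u l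
    · refine le_trans (le_of_eq ?_) h3
      congr 1
  have hPcB : ∀ t ≤ Nb, PcOk D n d J w z j r X' th gam C q E i P S ys gs (Fin.castAdd k1)
      p (max (cN d k0 k1 + 1) (cNb d k0 k1 N')) io (cBb d k0 k1 N₀)
      (pcB (c := c) (k0 := k0) (k1 := k1) D d J w z j r X' C q E i P S ys gs (jq t) (jrc N₀ X')
        (μ t)) (μ t) := by
    intro t ht
    have h1 := hej t ht
    have h2 := hjqL t ht
    have h3 := hej2
    rw [hp] at h1 h2 h3 ⊢
    refine HC.pcB_ok (hμN t ht) hle (hlow _ (hμN t ht)) hGE hGh io'0.le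
      (HS'.ent _ (hμN t ht) G hGh) h2 N₀0 N'0 (fun jt s u l => jrc_bd N₀0 X' jt s u l)
      (fun ω hω u l => h3 ω hω t ht u l) h1 (le_max_right _ _) ?_
    have g1 := hX3 X' (by omega)
    have g2 := hX2 X' (by omega)
    rw [one_mul] at g2
    have g3 := log_price N₀0 X' g2
    have g4 : io' * X' ≤ io / 64 * X' := mul_le_mul_of_nonneg_right io'2 X'0
    have g5 : (d + 1) * (io' * X) = io / 64 * X' := by
      rw [hXr, ← io'1]
      ring
    have g6 : ((d + 1 : ℝ) ^ 3 * (c * k1)) * δ₃ ≤ io / 768 := by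
      have k1' : ((d + 1 : ℝ) ^ 3 * (c * k1)) ≤ W / 768 := by
        rw [hW]
        linarith
      calc ((d + 1 : ℝ) ^ 3 * (c * k1)) * δ₃ ≤ W / 768 * (io / W) :=
            mul_le_mul k1' δ6 δ0.le (by positivity)
        _ = io / 768 := by field_simp
    have g7 : ((d + 1 : ℝ) * (c * k1)) * (((d + 1) * 0 + (d + 1) ^ 2 * (4 * δ₃)) *
        Real.log (2 * (2 ^ X' * N₀ + 1) + 1)) ≤ io / 96 * X' := by
      have k2 : ((d + 1 : ℝ) * (c * k1)) * (((d + 1) * 0 + (d + 1) ^ 2 * (4 * δ₃)) *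
          Real.log (2 * (2 ^ X' * N₀ + 1) + 1)) = (4 * (((d + 1 : ℝ) ^ 3 * (c * k1)) * δ₃)) *
          Real.log (2 * (2 ^ X' * N₀ + 1) + 1) := by ring
      rw [k2]
      have k3 : 0 ≤ 4 * (((d + 1 : ℝ) ^ 3 * (c * k1)) * δ₃) := by positivity
      calc (4 * (((d + 1 : ℝ) ^ 3 * (c * k1)) * δ₃)) * Real.log (2 * (2 ^ X' * N₀ + 1) + 1) ≤
            (4 * (((d + 1 : ℝ) ^ 3 * (c * k1)) * δ₃)) * (2 * X') :=
            mul_le_mul_of_nonneg_left g3 k3
        _ ≤ (4 * (io / 768)) * (2 * X') := by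
            refine mul_le_mul_of_nonneg_right ?_ (by positivity)
            linarith
        _ = io / 96 * X' := by ring
    have g8 : (d + 1) * (io' * X + cR c d k0 k1) + ((d + 1) * (c * k1)) * (Real.log 2 +
        (((d + 1) * 0 + (d + 1) ^ 2 * (4 * δ₃)) * Real.log (2 * (2 ^ X' * N₀ + 1) + 1) +
          Real.log (2 * (N₀ + 1) + 1))) = (d + 1) * (io' * X) + K1 +
        ((d + 1 : ℝ) * (c * k1)) * (((d + 1) * 0 + (d + 1) ^ 2 * (4 * δ₃)) *
        Real.log (2 * (2 ^ X' * N₀ + 1) + 1)) := by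
      rw [hK1]
      ring
    rw [g8]
    have g9 : 0 ≤ io * X' := mul_nonneg io0.le X'0
    linarith
  -- the second call
  obtain ⟨t, htN, h3⟩ := hcB D n K K' J a₀ w₀ z M w j r r2 r' r'' y a X X' Np th lam gam κ C₁ C q
    E i P S ys gs (by omega) hle HC V' Dv' _ _ _ δ₃ io io' _ (min_le_right γa γb)
    (min_le_right δa δb) δ0 δ2 (by rw [hio]; exact min_le_right _ _) (min_le_right ϖa ϖb) HS' G hGE
    hGh (fun t => pcB (c := c) (k0 := k0) (k1 := k1) D d J w z j r X' C q E i P S ys gs (jq t)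
      (jrc N₀ X') (μ t)) μ hμ hμN (fun t ht => by
        have := hPcB t ht
        rw [hp] at this
        exact this)
  have ht := htN.le
  have hPB := hPcB t ht
  obtain ⟨L, hL⟩ : ∃ L, L = (pcB (c := c) (k0 := k0) (k1 := k1) D d J w z j r X' C q E i P S ys gs
    (jq t) (jrc N₀ X') (μ t)).line := ⟨_, rfl⟩
  have hLdet : Det p (rcR D J w (i (μ t + 1)) j) L := by
    rw [hL]
    exact hPB.line
  obtain ⟨eb, hb1, hb2⟩ := con_col (Fin.castAdd k1) hwX' hq hGh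
    (HC.rwn (m := μ t + 1) (by have := hμN t ht; omega)) (by rw [← hp]; exact hLdet) hs hs1 δ0
    HS'.tm (ε₀ := e / (4 * (2 * d + 2))) (by rw [hL]; exact h3)
  rw [← hp] at hb2
  obtain ⟨NB, hNB⟩ : ∃ NB : D.Ω → Prop, NB = Nr D J w z j r X' C i S ys gs (Fin.castAdd k1)
    (2 * d) (μ t) L eb (2 ^ (-(x₀ * X')) / s ^ (2 * d + 2)) := ⟨_, rfl⟩
  refine ⟨μ t, hμN t ht, fun ω n u b => Fin.addCases (fun a => eb (L ω) n u a)
    (fun l => if hn : (n : ℕ) < d + 1 then jrc N₀ X' (jq t ω) ⟨n, hn⟩ u l else 0) b,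
    fun ω => 0 < q ω ∧ G ω ∧ NB ω, ?_, ?_, ?_, ?_, ?_⟩
  · -- the mass
    have h5 : Pb q (fun ω => ¬ (0 < q ω ∧ G ω ∧ NB ω)) ≤ Pb q (fun ω => ¬ (G ω ∧ NB ω)) :=
      Pool.TT37.pb_mono hq.nonneg fun ω hω h6 h7 => h6 ⟨hω, h7⟩
    have h6 := pb_sub hq (by linarith : 0 < Pb q G) NB
    have hb3 : Pb p (fun ω => ¬ NB ω) ≤ ((2 * d : ℕ) + 2) * (e / (4 * (2 * d + 2))) +
        ((2 * d : ℕ) + 2) ^ 2 * (4 * δ₃) := by
      rw [hNB]
      exact hb2
    rw [← hp] at h6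
    push_cast at hb3
    have h7 : ((2 * d : ℝ) + 2) * (e / (4 * (2 * d + 2))) = e / 4 := by
      field_simp
    have h8 : ((2 * d : ℝ) + 2) ^ 2 * (4 * δ₃) ≤ e / 4 := by
      have k4 : ((2 * d : ℝ) + 2) ^ 2 * (4 * (e / (16 * (2 * d + 2) ^ 2))) = e / 4 := by
        field_simp
        norm_num
      rw [← k4]
      exact mul_le_mul_of_nonneg_left (by linarith) (by positivity)
    linarith
  · exact fun ω hω => ⟨hω.1, hGE ω hω.2.1⟩
  · -- closed
    intro ω ω' hω hω' hwn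
    have hpos : ∀ ω, 0 < q ω → G ω → 0 < p ω := by
      intro ω a1 a2
      rw [hp]
      exact (Pool.Agent.H49.Ent.cond_pos_iff hq.nonneg G True ω).2 ⟨a1, eq_true a2⟩
    have a1 := hpos ω hω.1 hω.2.1
    have a2 := hpos ω' hω'.1 hω'.2.1
    have e1 := HC.rwn (m := μ t + 1) (by have := hμN t ht; omega) ω ω' hω.1 hω'.1 hwn
    have e2 := hLdet ω ω' a1 a2 e1
    have e3 := hjqL t ht ω ω' a1 a2 e1
    beta_reduce
    rw [e2, e3]
  · -- bounded
    intro ω hω n u b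
    beta_reduce
    refine Fin.addCases (fun a => ?_) (fun l => ?_) b
    · rw [Fin.addCases_left]
      refine (hb1 _ _ _ _).trans ?_
      rw [← hNq]
      linarith
    · rw [Fin.addCases_right]
      split_ifs with hn
      · exact (jrc_bd N₀0 X' _ _ u l).trans (by linarith)
      · rw [abs_zero]
        linarith
  · -- near
    intro ω hω u b
    have h2 : (1 : ℝ) / 2 ^ X' ≤ 2 ^ (-(x₀ * X')) := by
      rw [one_div, ← Real.rpow_natCast, ← Real.rpow_neg (by norm_num)]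
      refine Real.rpow_le_rpow_of_exponent_le one_le_two ?_
      nlinarith
    have h4 : (0 : ℝ) < 2 ^ (-(x₀ * X')) := by positivity
    refine Fin.addCases (fun a => ?_) (fun l => ?_) b
    · simp only [Fin.addCases_left]
      have h5 := hω.2.2
      rw [hNB] at h5
      refine le_trans (le_of_eq ?_) ((h5 u a).trans ?_)
      · rfl
      · have h6 : (2 : ℝ) ^ (-(x₀ * X')) / s ^ (2 * d + 2) = Ns * 2 ^ (-(x₀ * X')) := by
          rw [hNs]
          ring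
        rw [h6]
        exact mul_le_mul_of_nonneg_right (by linarith) h4.le
    · simp only [Fin.addCases_right]
      rw [sum_ext (fun n => jrc N₀ X' (jq t ω) n u l)]
      have hω0 : 0 < p ω := by
        rw [hp]
        exact (Pool.Agent.H49.Ent.cond_pos_iff hq.nonneg G True ω).2 ⟨hω.1, eq_true hω.2.1⟩
      have h5 := hej2 ω hω0 t ht u l
      have h6 : N' / 2 ^ X' ≤ (1 + N₀ + Nq + N' + Ns) * 2 ^ (-(x₀ * X')) := by
        calc N' / 2 ^ X' = N' * (1 / 2 ^ X') := by ring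
          _ ≤ N' * 2 ^ (-(x₀ * X')) := mul_le_mul_of_nonneg_left h2 N'0
          _ ≤ _ := mul_le_mul_of_nonneg_right (by linarith) h4.le
      refine le_trans (le_of_eq ?_) (h5.trans h6)
      push_cast
      rfl

end Pool.TC
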