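import Pool.Agent.H30.TC.Gft
import Pool.Agent.H30.TC.CorS
import Pool.Agent.H25.P4.GfC

/-!
# TC: the end of a cell

`end_lab`: the own slopes are polynomials in the time with coefficients which are functions of the
line [the conclusion of `CoreStmt`], the labels with gain are fine: a new thin label.
-/

set_option autoImplicit false

namespace Pool.TC

open Finset Real MvPolynomial
open Pool.Agent.H49.Ent Pool.Agent.H32.Dense Pool.STK Pool.STAT Pool.MIC.Frm Pool.MIC7 Pool.FRM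
open Pool.GSD
open Pool.BFL (Pb)
open Pool.P4 (t0 rt pp bb ze zt z0 cl1 dg dgp Ry cb LLC tq GoodS FrP GnL NewLabT NBT GoodU gu_ev)
open Pool.STAT.Glu (kN)

/-- The numbers at the end of a cell. -/
theorem num_end {C₂ C₄ x₀ : ℝ} {A : ℕ} (hC₂ : 1 ≤ C₂) (hx₀ : 0 < x₀)
    (hx1 : x₀ ≤ 1) : ∃ X1 : ℕ, ∀ N : ℝ, 1 ≤ N → ∃ z₀ : ℕ, ∀ z x' y Q : ℕ, z₀ ≤ z → X1 ≤ x' →
      x' ≤ Q → (2 : ℝ) ^ (x' * z) ≤ 2 ^ (y * z) →
      exp (C₄ * z) * (N * (1 / 2 ^ (y * z) + 1 / 2 ^ (x' * z) +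
        exp (C₂ * z) * (1 / 2 ^ (y * z) + 1 / 2 ^ (Q * z))) +
        N * 2 ^ (-(x₀ * (x' * z : ℕ)))) * 2 ^ (A * z) ≤ 1 := by
  obtain ⟨X1, hX1⟩ := exists_nat_gt (2 * (C₄ + C₂ + 1 + A) / x₀)
  refine ⟨X1, fun N hN => ?_⟩
  obtain ⟨z₀, hz₀⟩ := exists_nat_gt (5 * N)
  refine ⟨z₀, fun z x' y Q hz hx' hQ hy => ?_⟩
  have hzr : 5 * N ≤ z := by
    have : (z₀ : ℝ) ≤ z := by exact_mod_cast hz
    linarith
  have hz0 : (0 : ℝ) ≤ z := Nat.cast_nonneg z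
  have hxr : 2 * (C₄ + C₂ + 1 + A) ≤ x₀ * x' := by
    have h1 : (X1 : ℝ) ≤ x' := by exact_mod_cast hx'
    rw [div_lt_iff₀ hx₀] at hX1
    nlinarith
  have p0 : (0 : ℝ) < 2 ^ (x' * z) := by positivity
  obtain ⟨W, hW⟩ : ∃ W : ℝ, W = 2 ^ (-(x₀ * (x' * z : ℕ))) := ⟨_, rfl⟩
  have W0 : 0 < W := by
    rw [hW]
    positivity
  have e1 : 1 / (2 : ℝ) ^ (x' * z) ≤ W := by
    rw [hW, one_div, ← Real.rpow_natCast, ← Real.rpow_neg (by norm_num)]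
    refine Real.rpow_le_rpow_of_exponent_le one_le_two ?_
    have : (0 : ℝ) ≤ ((x' * z : ℕ) : ℝ) := Nat.cast_nonneg _
    nlinarith
  have e2 : 1 / (2 : ℝ) ^ (y * z) ≤ W :=
    (one_div_le_one_div_of_le p0 hy).trans e1
  have e3 : 1 / (2 : ℝ) ^ (Q * z) ≤ W := by
    refine (one_div_le_one_div_of_le p0 ?_).trans e1
    exact pow_le_pow_right₀ one_le_two (Nat.mul_le_mul_right z hQ)
  have hE2 : 1 ≤ exp (C₂ * z) := Real.one_le_exp (by positivity)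
  have hE4 : 0 < exp (C₄ * z) := exp_pos _
  have a1 : N * (1 / 2 ^ (y * z) + 1 / 2 ^ (x' * z) +
        exp (C₂ * z) * (1 / 2 ^ (y * z) + 1 / 2 ^ (Q * z))) + N * W ≤
      5 * N * (exp (C₂ * z) * W) := by
    have b1 : exp (C₂ * z) * (1 / 2 ^ (y * z) + 1 / 2 ^ (Q * z)) ≤ exp (C₂ * z) * (W + W) :=
      mul_le_mul_of_nonneg_left (by linarith) (exp_pos _).le
    have b2 : W ≤ exp (C₂ * z) * W := by nlinarith
    have b3 : 1 / 2 ^ (y * z) + 1 / 2 ^ (x' * z) +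
        exp (C₂ * z) * (1 / 2 ^ (y * z) + 1 / 2 ^ (Q * z)) + W ≤ 5 * (exp (C₂ * z) * W) := by
      linarith
    have b4 := mul_le_mul_of_nonneg_left b3 (by linarith : (0 : ℝ) ≤ N)
    linarith
  have a2 : (2 : ℝ) ^ (A * z) ≤ exp (A * z) := by
    have b1 : (2 : ℝ) ≤ exp 1 := by
      have := Real.add_one_le_exp (1 : ℝ)
      linarith
    calc (2 : ℝ) ^ (A * z) ≤ (exp 1) ^ (A * z) := pow_le_pow_left₀ (by norm_num) b1 _
      _ = exp (A * z) := by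
          rw [← Real.exp_nat_mul]
          congr 1
          push_cast
          ring
  have a3 : 5 * N ≤ exp (1 * z) := by
    have := Real.add_one_le_exp (1 * (z : ℝ))
    linarith
  have a4 : W ≤ exp (-((C₄ + C₂ + 1 + A) * z)) := by
    have b1 : W = exp (-(x₀ * (x' * z : ℕ)) * Real.log 2) := by
      rw [hW, Real.rpow_def_of_pos (by norm_num)]
      congr 1
      ring
    rw [b1, Real.exp_le_exp]
    have b2 : (1 : ℝ) / 2 ≤ Real.log 2 := by linarith [Real.log_two_gt_d9]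
    push_cast
    have b3 : 2 * (C₄ + C₂ + 1 + A) * z ≤ x₀ * x' * z := mul_le_mul_of_nonneg_right hxr hz0
    have b4 : 0 ≤ x₀ * x' * z := by positivity
    nlinarith
  rw [← hW]
  calc exp (C₄ * z) * (N * (1 / 2 ^ (y * z) + 1 / 2 ^ (x' * z) +
        exp (C₂ * z) * (1 / 2 ^ (y * z) + 1 / 2 ^ (Q * z))) + N * W) * 2 ^ (A * z) ≤
      exp (C₄ * z) * (exp (1 * z) * (exp (C₂ * z) * exp (-((C₄ + C₂ + 1 + A) * z)))) *
        exp (A * z) := by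
        refine mul_le_mul ?_ a2 (by positivity) (by positivity)
        refine mul_le_mul_of_nonneg_left (a1.trans ?_) hE4.le
        refine mul_le_mul a3 ?_ (by positivity) (exp_pos _).le
        exact mul_le_mul_of_nonneg_left a4 (exp_pos _).le
    _ = 1 := by
        rw [← exp_add, ← exp_add, ← exp_add, ← exp_add, ← Real.exp_zero]
        congr 1
        ring

open Classical in
/-- **The end of a cell.** -/
theorem end_lab (hG : GfT) (n d K K' c k0 k1 : ℕ) (C₀ C₁ th : ℝ) (gam : ℕ → ℝ) (hC₀ : 0 ≤ C₀)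
    (hC₁ : 0 ≤ C₁) : ∃ F : ℝ, 1 ≤ F ∧ ∀ C : ℝ, F ≤ C → ∀ (A : ℕ) (x₀ : ℝ), 0 < x₀ → x₀ ≤ 1 →
    ∃ X1 : ℕ, ∀ (M : ℕ) (N e : ℝ), 1 ≤ N → 0 < e → ∃ (κ₀ : ℝ) (z₀ : ℕ), 0 < κ₀ ∧
    ∀ (D : NDat2) (U : GnL D) (R : ℕ → Prop) (J a₀ w₀ z w i j r r2 r' r'' y a x' Q : ℕ)
      (lam : ℕ → ℝ) (κ : ℝ) (q : D.Ω → ℝ) (E : D.Ω → Prop) (P : D.Γ × D.Γ → ℕ → PN)
      (S : Slo D) (ys : Fin (k0 + k1) → ℕ) (gs : Fin c → ℕ) (n₀ : Fin c),
      z₀ ≤ z → κ ≤ κ₀ → X1 ≤ x' → x' ≤ Q →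
      Hyp D n d K K' J a₀ w₀ z M w i j r r2 r' r'' y a (x' * z) th lam gam κ C₁ C q E P S ys gs →
      Geo D n d K' J w₀ z i j r r2 r' r'' th gam C₀ (exp (C₀ * z) / 2 ^ (y * z)) q E P S →
      (∀ ω, E ω → 0 < q ω ∧ GoodS D n K' w₀ z M C₀ ω ∧
        FrP D n K' z i j r C₀ (P (bb D i j r ω)) ω) →
      U.Ok n K J a₀ w₀ z M Q R C₁ q → gs n₀ = n →
      ∀ (η' : ℝ) (ep : D.Ω → Fin (2 * d + 1) → Fin c → Fin (k0 + k1) → ℝ) (Ev : D.Ω → Prop),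
        Pb q (fun ω => ¬ Ev ω) + e + η' ≤ 1 → (∀ ω, Ev ω → E ω) →
        (∀ ω ω', Ev ω → Ev ω' → D.wn J w ω = D.wn J w ω' → ep ω = ep ω') →
        (∀ ω, Ev ω → ∀ t u b, |ep ω t u b| ≤ N) →
        (∀ ω, Ev ω → ∀ u b,
          |(Sv D z (x' * z) C S ys gs ω u b : ℝ) / 2 ^ (x' * z) -
            ∑ t : Fin (2 * d + 1), ep ω t u b *
              (((tq J w (x' * z) (D.T ω) : ℤ) : ℝ) / 2 ^ (x' * z)) ^ (t : ℕ)| ≤
            N * 2 ^ (-(x₀ * (x' * z : ℕ)))) →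
        ∃ l : Fin c, (gs l = n ∨ R (gs l)) ∧ j + 1 < M ∧
          NewLabT D U J a₀ w₀ z Q R i (j + 1) (gs l) A (kN (max K K') (2 * d + 1)) η' q := by
  obtain ⟨Cu, hCu, HU⟩ := gu_ev n K C₁ hC₁
  obtain ⟨F1, hF1, HG⟩ := hG n d K K' c k0 k1 C₀ C₁ Cu th gam hC₀ hC₁ hCu
  obtain ⟨F2, hF2, HL⟩ := labTC n K K' c k0 k1 (2 * d) C₀ C₁ hC₀ hC₁
  refine ⟨max F1 F2, hF2.trans (le_max_right _ _), ?_⟩
  intro C hFC A x₀ hx₀ hx1
  have hC1 : 1 ≤ C := hF2.trans ((le_max_right _ _).trans hFC)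
  have hcr : (0 : ℝ) ≤ c := Nat.cast_nonneg c
  obtain ⟨C₂, hC₂, HG⟩ := HG C ((le_max_left _ _).trans hFC)
  obtain ⟨C₄, hC₄, HL⟩ := HL C (C₂ + (C + c)) gam ((le_max_right _ _).trans hFC) (by linarith)
  obtain ⟨X1, hX1⟩ := num_end (A := A) (C₄ := C₄) hC₂ hx₀ hx1
  refine ⟨X1, ?_⟩
  intro M N e hN he
  obtain ⟨κ₀, z₁, hκ₀, HU⟩ := HU M e he
  obtain ⟨z₂, hz₂⟩ := hX1 N hN
  refine ⟨κ₀, max z₁ z₂, hκ₀, ?_⟩
  intro D U R J a₀ w₀ z w i j r r2 r' r'' y a x' Q lam κ q E P S ys gs n₀ hz hκ hx' hQ H hG hgd hU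
    hn₀ η' ep Ev hEv hEE hcl hbd hnr
  have hz1 : z₁ ≤ z := (le_max_left _ _).trans hz
  have hz2 : z₂ ≤ z := (le_max_right _ _).trans hz
  have hq := H.ok.isLaw
  have hGu := HU D U R J a₀ w₀ z Q lam gam κ κ q hz1 hκ H.ok H.tmu hU
  -- the event
  obtain ⟨E', hE'⟩ : ∃ E' : D.Ω → Prop, E' = fun ω => Ev ω ∧ GoodU D U n J w₀ z M R Cu ω :=
    ⟨_, rfl⟩
  have hE'1 : ∀ ω, E' ω → Ev ω := fun ω h => by
    rw [hE'] at h
    exact h.1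
  have hE'2 : ∀ ω, E' ω → GoodU D U n J w₀ z M R Cu ω := fun ω h => by
    rw [hE'] at h
    exact h.2
  have hmass : η' ≤ Pb q E' := by
    have h1 := Pool.P4.gf_Pb_not hq.sum_one E'
    have h2 : Pb q (fun ω => ¬ E' ω) ≤ Pb q (fun ω => ¬ Ev ω) +
        Pb q (fun ω => ¬ GoodU D U n J w₀ z M R Cu ω) := by
      refine Pool.P4.gf_Pb_or hq.nonneg _ _ _ fun ω h => ?_
      rw [hE'] at h
      by_cases h3 : Ev ω
      · exact Or.inr fun h4 => h ⟨h3, h4⟩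
      · exact Or.inl h3
    linarith
  have hyX : (2 : ℝ) ^ (x' * z) ≤ 2 ^ (y * z) := by
    have h1 := H.yX
    have h2 := H.e1
    have h3 : (0 : ℝ) < 2 ^ (x' * z) := by positivity
    nlinarith
  obtain ⟨ε, hε⟩ : ∃ ε : ℝ, ε = exp (C₂ * z) * (1 / 2 ^ (y * z) + 1 / 2 ^ (Q * z)) := ⟨_, rfl⟩
  have hε0 : 0 ≤ ε := by
    rw [hε]
    positivity
  obtain ⟨fL, fp, g1, g2, g3, g4⟩ := gft_data (Ev := E') (U := U) (R := R) (C₂ := C₂) (ε := ε)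
    (2 * d) H hε0 (fun ω hω g hg1 hg2 => by
      rw [hε]
      exact HG D U R J a₀ w₀ z M w i j r r2 r' r'' y a (x' * z) Q lam κ q E P S ys gs H hG hgd hU ω
        (hEE ω (hE'1 ω hω)) (hE'2 ω hω) g hg1 hg2)
  refine HL D U R d J a₀ w₀ z M w i j r r2 r' r'' y a (x' * z) Q A th lam κ q E P S ys gs n₀ H hG
    hgd hU hn₀ N (N * 2 ^ (-(x₀ * (x' * z : ℕ)))) ε η' ep fL fp E' hN (by positivity) hε0 hmass
    (fun ω hω => hEE ω (hE'1 ω hω)) ?_ (fun ω hω => hbd ω (hE'1 ω hω))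
    (fun ω hω => hnr ω (hE'1 ω hω)) g1 g2 g3 g4 ?_
  · intro ω ω' h1 h2 h3
    refine hcl ω ω' (hE'1 ω h1) (hE'1 ω' h2) ?_
    -- a finer window
    obtain ⟨e1, e2⟩ := Prod.ext_iff.1 h3
    refine Prod.ext e1 ?_
    have e2' : D.T ω / 2 ^ (J - (w₀ + (j + 1) * z)) = D.T ω' / 2 ^ (J - (w₀ + (j + 1) * z)) := e2
    change D.T ω / 2 ^ (J - w) = D.T ω' / 2 ^ (J - w)
    have hw := H.w2
    have hwJ : w₀ + (j + 1) * z ≤ J := by
      have h5 := H.ok.thin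
      have h6 := H.ok.top
      have h7 := H.j2
      have h8 : (j + 1) * z ≤ (M + 1) * z := Nat.mul_le_mul_right _ (by omega)
      omega
    have h9 : (2 : ℕ) ^ (J - w) = 2 ^ (J - (w₀ + (j + 1) * z)) * 2 ^ (w₀ + (j + 1) * z - w) := by
      rw [← pow_add]
      congr 1
      omega
    rw [h9, ← Nat.div_div_eq_div_mul, ← Nat.div_div_eq_div_mul, e2']
  · rw [hε]
    exact hz₂ z x' y Q hz2 hx' hQ hyX

end Pool.TC
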