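import Pool.Agent.H30.TC.Cd
import Pool.Agent.H14.TC.H0
import Pool.Agent.H89.TC.H2
import Pool.Agent.H97.TC.Ful
import Pool.Agent.H48.TC.Tm
import Pool.Agent.H48.TC.Prm

/-!
# TC: the entropies of a place, given a large event

`EntP`: the entropic properties of the data of a place for a law `p`. `ent_cnd`: they hold for
`p = cond q G True`, `G ⊆ E` of probability `≥ 1 / 2`. `Hyp.lowX`: less digits.
-/

set_option autoImplicit false

namespace Pool.TC

open Finset Real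
open Pool.Agent.H49.Ent Pool.Agent.H32.Dense Pool.STK Pool.STAT Pool.POT
open Pool.BFL (Pb)
open Pool.P4 (t0 rt bb ze zt z0 cl1 dg dgp Ry cb LLC tq GoodS FrP err)

/-! ### Digits -/

/-- The first digits. -/
theorem dg_low {X' X : ℕ} (h : X' ≤ X) (x : ℝ) : dg X' x = dg X x / 2 ^ (X - X') := by
  have h1 : (2 : ℝ) ^ X = 2 ^ X' * 2 ^ (X - X') := by
    rw [← pow_add]
    congr 1
    omega
  have h2 : ⌊(2 : ℝ) ^ X * cl1 x / ((2 ^ (X - X') : ℕ) : ℝ)⌋ =
      ⌊(2 : ℝ) ^ X * cl1 x⌋ / ((2 ^ (X - X') : ℕ) : ℤ) := Int.floor_div_natCast _ _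
  unfold dg
  push_cast at h2
  rw [← h2]
  congr 1
  rw [h1]
  field_simp

/-- The first digits. -/
theorem dgp_low {X' X : ℕ} (h : X' ≤ X) (x : ℝ) : dgp X' x = dgp X x / 2 ^ (X - X') := by
  have h1 : (2 : ℝ) ^ X = 2 ^ X' * 2 ^ (X - X') := by
    rw [← pow_add]
    congr 1
    omega
  have h2 : ⌊(2 : ℝ) ^ X * x / ((2 ^ (X - X') : ℕ) : ℝ)⌋ =
      ⌊(2 : ℝ) ^ X * x⌋ / ((2 ^ (X - X') : ℕ) : ℤ) := Int.floor_div_natCast _ _
  push_cast at h2
  have h3 : (2 : ℝ) ^ X * x / 2 ^ (X - X') = 2 ^ X' * x := by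
    rw [h1]
    field_simp
  rw [h3] at h2
  unfold dgp
  rw [h2]
  obtain ⟨m, hm⟩ : ∃ m : ℤ, m = ⌊(2 : ℝ) ^ X * x⌋ := ⟨_, rfl⟩
  obtain ⟨s, hs⟩ : ∃ s : ℕ, s = X - X' := ⟨_, rfl⟩
  rw [← hm, ← hs]
  have hX : (2 : ℤ) ^ X = 2 ^ X' * 2 ^ s := by
    rw [← pow_add]
    congr 1
    omega
  have hp : (0 : ℤ) < 2 ^ s := by positivity
  have hp' : (0 : ℤ) < 2 ^ X' := by positivity
  have mono : Monotone fun a : ℤ => a / 2 ^ s := fun a b hab => Int.ediv_le_ediv hp hab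
  have e1 : (2 ^ X - 1 : ℤ) / 2 ^ s = 2 ^ X' - 1 := by
    rw [hX]
    have : (2 ^ X' * 2 ^ s - 1 : ℤ) = (2 ^ s - 1) + (2 ^ X' - 1) * 2 ^ s := by ring
    rw [this, Int.add_mul_ediv_right _ _ hp.ne', Int.ediv_eq_zero_of_lt (by
      have : (1 : ℤ) ≤ 2 ^ s := hp
      omega) (by omega), zero_add]
  have e2 : max 0 (min (2 ^ X - 1) m) / 2 ^ s = max (0 / 2 ^ s) (min ((2 ^ X - 1) / 2 ^ s)
      (m / 2 ^ s)) := by
    rw [mono.map_max, mono.map_min]
  rw [e2, e1, Int.zero_ediv]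

/-- The first digits of the time. -/
theorem tq_low {J w X' X T : ℕ} (h : X' ≤ X) (hX : w + X ≤ J) :
    tq J w X' T = tq J w X T / 2 ^ (X - X') := by
  unfold tq
  rw [Nat.div_div_eq_div_mul, ← pow_add]
  congr 2
  omega

section

variable {c k0 k1 : ℕ} (D : NDat2) (J w z i j r d : ℕ) {X' X : ℕ} (C : ℝ)
  (P : D.Γ × D.Γ → ℕ → PN) (S : Slo D) (ys : Fin (k0 + k1) → ℕ) (gs : Fin c → ℕ)

/-- The data with less digits are functions of the data. -/
theorem lv_low (h : X' ≤ X) {ω ω' : D.Ω} (e : lv (c := c) (k0 := k0) (k1 := k1) D J w z i j r d X C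
    P ys gs ω = lv (c := c) (k0 := k0) (k1 := k1) D J w z i j r d X C P ys gs ω') :
    lv (c := c) (k0 := k0) (k1 := k1) D J w z i j r d X' C P ys gs ω =
      lv (c := c) (k0 := k0) (k1 := k1) D J w z i j r d X' C P ys gs ω' := by
  obtain ⟨e1, e2⟩ := Prod.ext_iff.1 e
  obtain ⟨e3, e4⟩ := Prod.ext_iff.1 e2
  obtain ⟨e5, e6⟩ := Prod.ext_iff.1 e4
  obtain ⟨e7, e8⟩ := Prod.ext_iff.1 e6
  refine Prod.ext ?_ (Prod.ext e3 (Prod.ext ?_ (Prod.ext ?_ ?_)))
  · funext u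
    have h1 : nuv D J w z i j r X C P gs ω u = nuv D J w z i j r X C P gs ω' u := congrFun e1 u
    change nuv D J w z i j r X' C P gs ω u = nuv D J w z i j r X' C P gs ω' u
    unfold nuv at h1 ⊢
    rw [dg_low h, dg_low h, h1]
  · funext a
    have h1 : yv D J w z i j r X C P ys ω a = yv D J w z i j r X C P ys ω' a := congrFun e5 a
    change yv D J w z i j r X' C P ys ω a = yv D J w z i j r X' C P ys ω' a
    unfold yv at h1 ⊢
    rw [dgp_low h, dgp_low h, h1]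
  · funext l s
    have h1 : mv (k0 := k0) (k1 := k1) D J w z i j r d X C P ys ω l s =
      mv (k0 := k0) (k1 := k1) D J w z i j r d X C P ys ω' l s := congrFun (congrFun e7 l) s
    change mv (k0 := k0) (k1 := k1) D J w z i j r d X' C P ys ω l s =
      mv (k0 := k0) (k1 := k1) D J w z i j r d X' C P ys ω' l s
    unfold mv at h1 ⊢
    rw [dg_low h, dg_low h, h1]
  · funext u s
    have h1 : bev D J w z i j r d X C P gs ω u s =
      bev D J w z i j r d X C P gs ω' u s := congrFun (congrFun e8 u) s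
    change bev D J w z i j r d X' C P gs ω u s = bev D J w z i j r d X' C P gs ω' u s
    unfold bev at h1 ⊢
    rw [dg_low h, dg_low h, h1]

theorem tv_low (h : X' ≤ X) {ω ω' : D.Ω} (e : tv (c := c) (k0 := k0) (k1 := k1) D J w z i j r X C
    S ys gs ω = tv (c := c) (k0 := k0) (k1 := k1) D J w z i j r X C S ys gs ω') :
    tv (c := c) (k0 := k0) (k1 := k1) D J w z i j r X' C S ys gs ω =
      tv (c := c) (k0 := k0) (k1 := k1) D J w z i j r X' C S ys gs ω' := by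
  obtain ⟨e1, e2⟩ := Prod.ext_iff.1 e
  obtain ⟨e3, e4⟩ := Prod.ext_iff.1 e2
  refine Prod.ext e1 (Prod.ext e3 ?_)
  funext u a
  have h1 : Sv D z X C S ys gs ω u a = Sv D z X C S ys gs ω' u a := congrFun (congrFun e4 u) a
  change Sv D z X' C S ys gs ω u a = Sv D z X' C S ys gs ω' u a
  unfold Sv at h1 ⊢
  rw [dg_low h, dg_low h, h1]

end

/-! ### The hypotheses with less digits -/

/-- Less digits. -/
theorem Hyp.lowX {D : NDat2} {n d K K' J a₀ w₀ z M w i j r r2 r' r'' y a X : ℕ} {th : ℝ}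
    {lam gam : ℕ → ℝ} {κ C₁ C : ℝ} {q : D.Ω → ℝ} {E : D.Ω → Prop} {P : D.Γ × D.Γ → ℕ → PN}
    {S : Slo D} {c k0 k1 : ℕ} {ys : Fin (k0 + k1) → ℕ} {gs : Fin c → ℕ} {x x' : ℕ}
    (H : Hyp D n d K K' J a₀ w₀ z M w i j r r2 r' r'' y a X th lam gam κ C₁ C q E P S ys gs)
    (hx : X = x * z) (hx' : x' ≤ x) :
    Hyp D n d K K' J a₀ w₀ z M w i j r r2 r' r'' y a (x' * z) th lam gam κ C₁ C q E P S ys gs where
  ok := H.ok
  dma := H.dma
  llc := H.llc
  tmu := H.tmu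
  n1 := H.n1
  C1 := H.C1
  Cg := H.Cg
  κ0 := H.κ0
  z1 := H.z1
  lam1 := H.lam1
  gam0 := H.gam0
  plc := H.plc
  w1 := H.w1
  w2 := H.w2
  pE := H.pE
  geo := H.geo
  gd := H.gd
  dep := H.dep
  yX := by
    refine le_trans ?_ H.yX
    refine mul_le_mul_of_nonneg_left (pow_le_pow_right₀ one_le_two ?_) (exp_pos _).le
    rw [hx]
    exact Nat.mul_le_mul_right z hx'
  Xz := by
    obtain ⟨x₁, h1, h2⟩ := H.Xz
    have hz := H.z1
    have h3 : x₁ = x := by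
      rw [hx] at h1
      exact (Nat.eq_of_mul_eq_mul_right (by omega) h1).symm
    exact ⟨x', rfl, by omega⟩
  Xr := by
    intro x₁ h1
    have hz := H.z1
    have h3 : x' = x₁ := Nat.eq_of_mul_eq_mul_right (by omega) h1
    have h4 := H.Xr x hx
    rw [← h3]
    have : x' * r ≤ x * r := Nat.mul_le_mul_right r hx'
    omega
  ys_in := H.ys_in
  ys0 := H.ys0
  ys1 := H.ys1
  ys_on0 := H.ys_on0
  ys_on1 := H.ys_on1
  gs_gr := H.gs_gr
  gs_in := H.gs_in
  gs_on := H.gs_on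

/-! ### Entropies -/

/-- **The entropic properties of a place** for the law `p`. -/
structure EntP (D : NDat2) (n d J w z i j r X : ℕ) (th : ℝ) (gam : ℕ → ℝ) (C : ℝ)
    (P : D.Γ × D.Γ → ℕ → PN) (S : Slo D) {c k0 k1 : ℕ} (ys : Fin (k0 + k1) → ℕ)
    (gs : Fin c → ℕ) (p : D.Ω → ℝ) (e : ℝ) : Prop where
  law : IsLaw p
  h0 : CH p (tv (c := c) (k0 := k0) (k1 := k1) D J w z i j r X C S ys gs) (cb D J w i j r) ≤
    CH p (tv (c := c) (k0 := k0) (k1 := k1) D J w z i j r X C S ys gs)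
      (fun ω => (lv (c := c) (k0 := k0) (k1 := k1) D J w z i j r d X C P ys gs ω,
        cb D J w i j r ω)) + e
  h2 : CH p (hv (c := c) (k0 := k0) (k1 := k1) D z i j r X C P S gs n th gam)
      (tv (c := c) (k0 := k0) (k1 := k1) D J w z i j r X C S ys gs) ≤
    CH p (hv (c := c) (k0 := k0) (k1 := k1) D z i j r X C P S gs n th gam)
      (fun ω => (vv (c := c) (k0 := k0) (k1 := k1) D J w z i j r d X C P ys gs ω,
        tv (c := c) (k0 := k0) (k1 := k1) D J w z i j r X C S ys gs ω)) + e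
  lf : (k1 : ℝ) * X * Real.log 2 ≤ CH p (y1v (k0 := k0) (k1 := k1) D J w z i j r X C P ys)
      (fun ω => (cb D J w i j r ω, (y0v (k0 := k0) (k1 := k1) D J w z i j r X C P ys ω,
        mv (k0 := k0) (k1 := k1) D J w z i j r d X C P ys ω))) + e
  yf : (k0 : ℝ) * X * Real.log 2 ≤ CH p (y0v (k0 := k0) (k1 := k1) D J w z i j r X C P ys)
      (cb D J w i j r) + e
  tf : X * Real.log 2 ≤ CH p (fun ω => tq J w X (D.T ω)) (cb D J w i j r) + e

/-- Digits are counted. -/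
theorem digN_le {Ω U : Type} [Fintype Ω] {p : Ω → ℝ} (hp : IsLaw p) {X : ℕ} (t : Ω → ℕ)
    (Z : Ω → U) (h : ∀ ω, t ω < 2 ^ X) : CH p t Z ≤ X * Real.log 2 := by
  classical
  have k := CH_le_card hp.nonneg hp.sum_one t Z (fun _ => Finset.range (2 ^ X)) (fun ω _ => by
    rw [Finset.mem_range]
    exact h ω)
  rw [Ex_const hp.sum_one, Finset.card_range] at k
  refine k.trans (le_of_eq ?_)
  push_cast
  rw [Real.log_pow]

open Classical in
/-- **The entropic properties of a place, given a large event.** -/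
theorem ent_cnd (h0 : H0Stmt) (h2 : H2Stmt) (hy : YFStmt) (hl : LFStmt) (ht : TFStmt)
    (n d K K' c k0 k1 : ℕ) (C₁ C : ℝ) : ∃ A : ℝ, 0 ≤ A ∧
    ∀ (D : NDat2) (J a₀ w₀ z M w i j r r2 r' r'' y a X : ℕ) (th : ℝ) (lam gam : ℕ → ℝ) (κ : ℝ)
      (q : D.Ω → ℝ) (E : D.Ω → Prop) (P : D.Γ × D.Γ → ℕ → PN) (S : Slo D)
      (ys : Fin (k0 + k1) → ℕ) (gs : Fin c → ℕ),
      Hyp D n d K K' J a₀ w₀ z M w i j r r2 r' r'' y a X th lam gam κ C₁ C q E P S ys gs →
      ∀ G : D.Ω → Prop, 1 / 2 ≤ Pb q G →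
      EntP D n d J w z i j r X th gam C P S ys gs (Pool.Agent.H49.Ent.cond q G True)
        (err A κ z X (Pb q (fun ω => ¬ E ω))) := by
  obtain ⟨A0, hA0, H0⟩ := h0 n d K K' c k0 k1 C₁ C
  obtain ⟨A2, hA2, H2⟩ := h2 n d K K' c k0 k1 C₁ C
  obtain ⟨Ay, hAy, Hy⟩ := hy n d K K' c k0 k1 C₁ C
  obtain ⟨Al, hAl, Hl⟩ := hl n d K K' c k0 k1 C₁ C
  obtain ⟨At, hAt, Ht⟩ := ht n d K K' c k0 k1 C₁ C
  obtain ⟨A, hA⟩ : ∃ A : ℝ, A = A0 + A2 + Ay + Al + At := ⟨_, rfl⟩
  refine ⟨2 * (A + 1), by rw [hA]; positivity, ?_⟩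
  intro D J a₀ w₀ z M w i j r r2 r' r'' y a X th lam gam κ q E P S ys gs H G hG
  have hq := H.ok.isLaw
  have hp := cnd_law hq hG
  have hz1 : (1 : ℝ) ≤ z := by exact_mod_cast H.z1
  have hκ := H.κ0
  have b0 := H.b0
  have hl2 : Real.log 2 ≤ 1 := by linarith [Real.log_two_lt_d9]
  have hX0 : (0 : ℝ) ≤ X := Nat.cast_nonneg X
  have key : ∀ A' : ℝ, 0 ≤ A' → A' ≤ A → 2 * (err A' κ z X (Pb q (fun ω => ¬ E ω)) +
      Real.log 2) ≤ err (2 * (A + 1)) κ z X (Pb q (fun ω => ¬ E ω)) := by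
    intro A' _ hA'
    unfold err
    have h1 : 1 ≤ (1 + κ) * z + X * Pb q (fun ω => ¬ E ω) := by
      have := mul_nonneg hX0 b0
      nlinarith
    have h2 : A' * ((1 + κ) * z + X * Pb q (fun ω => ¬ E ω)) ≤
        A * ((1 + κ) * z + X * Pb q (fun ω => ¬ E ω)) :=
      mul_le_mul_of_nonneg_right hA' (by linarith)
    nlinarith
  have g0 := H0 D J a₀ w₀ z M w i j r r2 r' r'' y a X th lam gam κ q E P S ys gs H
  have g2 := H2 D J a₀ w₀ z M w i j r r2 r' r'' y a X th lam gam κ q E P S ys gs H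
  have gy := Hy D J a₀ w₀ z M w i j r r2 r' r'' y a X th lam gam κ q E P S ys gs H
  have gl := Hl D J a₀ w₀ z M w i j r r2 r' r'' y a X th lam gam κ q E P S ys gs H
  have gt := Ht D J a₀ w₀ z M w i j r r2 r' r'' y a X th lam gam κ q E P S ys gs H
  simp only at g0 g2 gy gl gt
  have n0 := hq.nonneg
  refine ⟨hp, ?_, ?_, ?_, ?_, ?_⟩
  · have e1 : CH q (tv (c := c) (k0 := k0) (k1 := k1) D J w z i j r X C S ys gs)
        (lv (c := c) (k0 := k0) (k1 := k1) D J w z i j r d X C P ys gs) ≤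
        CH q (tv (c := c) (k0 := k0) (k1 := k1) D J w z i j r X C S ys gs)
        (fun ω => (lv (c := c) (k0 := k0) (k1 := k1) D J w z i j r d X C P ys gs ω,
          cb D J w i j r ω)) :=
      CH_mono_cond n0 fun ω ω' _ _ e => Prod.ext e (Prod.ext_iff.1 (Prod.ext_iff.1 e).2).1
    have e2 := mi_cnd hq (tv (c := c) (k0 := k0) (k1 := k1) D J w z i j r X C S ys gs)
      (lv (c := c) (k0 := k0) (k1 := k1) D J w z i j r d X C P ys gs) (cb D J w i j r) hG
      (d := err A0 κ z X (Pb q (fun ω => ¬ E ω))) (by unfold MI; linarith)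
    have e3 := key A0 hA0 (by rw [hA]; linarith)
    unfold MI at e2
    linarith
  · have e2 := mi_cnd hq (hv (c := c) (k0 := k0) (k1 := k1) D z i j r X C P S gs n th gam)
      (vv (c := c) (k0 := k0) (k1 := k1) D J w z i j r d X C P ys gs)
      (tv (c := c) (k0 := k0) (k1 := k1) D J w z i j r X C S ys gs) hG
      (d := err A2 κ z X (Pb q (fun ω => ¬ E ω))) (by unfold MI; linarith)
    have e3 := key A2 hA2 (by rw [hA]; linarith)
    unfold MI at e2
    linarith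
  · have e2 := low_cnd hq (y1v (k0 := k0) (k1 := k1) D J w z i j r X C P ys)
      (fun ω => (cb D J w i j r ω, (y0v (k0 := k0) (k1 := k1) D J w z i j r X C P ys ω,
        mv (k0 := k0) (k1 := k1) D J w z i j r d X C P ys ω))) hG
      (d := err Al κ z X (Pb q (fun ω => ¬ E ω))) (R := (k1 : ℝ) * X * Real.log 2)
      (by linarith) (fun p' hp' => digs_le hp' _ _ fun ω l => yv_rg ω (Fin.natAdd k0 l))
    have e3 := key Al hAl (by rw [hA]; linarith)
    linarith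
  · have e1 : CH q (y0v (k0 := k0) (k1 := k1) D J w z i j r X C P ys)
        (fun ω => (cb D J w i j r ω, D.T ω)) ≤
        CH q (y0v (k0 := k0) (k1 := k1) D J w z i j r X C P ys) (cb D J w i j r) :=
      CH_mono_cond n0 fun ω ω' _ _ e => (Prod.ext_iff.1 e).1
    have e2 := low_cnd hq (y0v (k0 := k0) (k1 := k1) D J w z i j r X C P ys)
      (cb D J w i j r) hG
      (d := err Ay κ z X (Pb q (fun ω => ¬ E ω))) (R := (k0 : ℝ) * X * Real.log 2)
      (by linarith) (fun p' hp' => digs_le hp' _ _ fun ω l => yv_rg ω (Fin.castAdd k1 l))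
    have e3 := key Ay hAy (by rw [hA]; linarith)
    linarith
  · have e2 := low_cnd hq (fun ω => tq J w X (D.T ω)) (cb D J w i j r) hG
      (d := err At κ z X (Pb q (fun ω => ¬ E ω))) (R := (X : ℝ) * Real.log 2)
      (by linarith) (fun p' hp' => digN_le hp' _ _ fun ω => tq_lt H.wX)
    have e3 := key At hAt (by rw [hA]; linarith)
    linarith

end Pool.TC
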