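import Pool.Agent.H30.TT.LabD
import Pool.Agent.H48.TC.Bas
import Pool.Agent.H52.P5.LabS

/-!
# TC: the label of a cell whose own slopes are polynomials of the time

`labTC`: the own slopes of the group over all the slow coordinates are polynomials of the relative
time, the coefficients are functions of the line. The contact covectors of the coordinates with
labels with gain are data.
-/

set_option autoImplicit false

namespace Pool.TC

open Finset Real MvPolynomial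
open Pool.Agent.H49.Ent Pool.Agent.H32.Dense Pool.STK Pool.STAT Pool.MIC.Frm Pool.MIC7 Pool.FRM
open Pool.GSD
open Pool.BFL (Pb)
open Pool.P4 (t0 rt pp bb ze zt z0 cl1 dg dgp Ry cb LLC tq GoodS FrP GnL NewLabT NBT Fx Dic
  rt_near ex_one ex_mono win_le)
open Pool.P5 (PB lpc lpc_nn Enm Sh5 dig_fun5)
open Pool.TT30 (labTG pold pold_ev pold_pb)
open Pool.LBL (Ld)
open Pool.STAT.Glu (kN)

section

variable {D : NDat2} {n d K K' J a₀ w₀ z M w i j r r2 r' r'' y a X : ℕ} {th : ℝ}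
  {lam gam : ℕ → ℝ} {κ C₁ C C₀ : ℝ} {q : D.Ω → ℝ} {E : D.Ω → Prop} {P : D.Γ × D.Γ → ℕ → PN}
  {S : Slo D} {c k0 k1 : ℕ} {ys : Fin (k0 + k1) → ℕ} {gs : Fin c → ℕ}

/-- The target is in the group. -/
theorem Hyp.gr_n
    (H : Hyp D n d K K' J a₀ w₀ z M w i j r r2 r' r'' y a X th lam gam κ C₁ C q E P S ys gs) :
    gr th gam n n := ⟨H.n1, le_rfl, H.plc.stp.gn⟩

theorem Hyp.r_pos
    (H : Hyp D n d K K' J a₀ w₀ z M w i j r r2 r' r'' y a X th lam gam κ C₁ C q E P S ys gs) :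
    1 ≤ r := by
  rcases Nat.eq_zero_or_pos r with h | h
  · exfalso
    have h1 := H.plc.stp.s2 n H.gr_n
    rw [h, Nat.cast_zero, mul_zero] at h1
    have h2 : (1 : ℝ) ≤ y := by exact_mod_cast H.y1
    have h3 : (0 : ℝ) ≤ r' := Nat.cast_nonneg r'
    linarith
  · exact h

/-- **The data of a place**, from the cell. -/
theorem Hyp.fx
    (H : Hyp D n d K K' J a₀ w₀ z M w i j r r2 r' r'' y a X th lam gam κ C₁ C q E P S ys gs)
    (hg : Geo D n d K' J w₀ z i j r r2 r' r'' th gam C₀ (exp (C₀ * z) / 2 ^ (y * z)) q E P S)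
    (gd : ∀ ω, E ω → 0 < q ω ∧ GoodS D n K' w₀ z M C₀ ω ∧
      FrP D n K' z i j r C₀ (P (bb D i j r ω)) ω) :
    Fx D n (max K K') K K' J a₀ w₀ z M i j r r' a y lam gam κ C₁ C₀ q E P (sl th gam n)
      (gr th gam n) where
  ok := H.ok
  k1 := le_max_left _ _
  k2 := le_max_right _ _
  z1 := H.z1
  lam1 := H.lam1
  num := {
    i1 := by
      have := H.i2
      omega
    j1 := H.j2.le
    r1 := H.r1.trans H.i1
    s1 := fun l hl => by
      have h1 := H.plc.stp.s1 l hl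
      have h2 : (0 : ℝ) ≤ y := Nat.cast_nonneg y
      linarith
    s2 := fun l hl => H.plc.stp.s2 l hl
    dic := fun l h1 h2 => by
      by_cases h3 : th ≤ gam l
      · exact Or.inr ⟨h1, h2, h3⟩
      · refine Or.inl ⟨h1, ?_, not_le.1 h3⟩
        rcases Nat.lt_or_ge l n with h4 | h4
        · exact h4
        · exfalso
          have h5 : l = n := le_antisymm h2 h4
          rw [h5] at h3
          exact h3 H.plc.stp.gn }
  iM := by
    have := H.i2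
    omega
  jM := H.j2
  ai := H.plc.a1
  rj := H.j1
  ya := H.plc.stp.s7
  dic := {
    s1 := fun l hl => ⟨hl.1, hl.2.1⟩
    g1 := fun l hl => ⟨hl.1, hl.2.1⟩
    dis := fun l hl hl' => sl_gr hl hl' }
  fr := gd
  bz := fun ω hω l h1 h2 => hg.bz ω (gd ω hω).1 hω l h1 h2

/-- The enumeration, from the cell. -/
theorem Hyp.enm
    (H : Hyp D n d K K' J a₀ w₀ z M w i j r r2 r' r'' y a X th lam gam κ C₁ C q E P S ys gs) :
    Enm (sl th gam n) (gr th gam n) ys gs :=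
  ⟨H.ys_in, H.gs_in, H.ys_sl, H.gs_gr, fun _ hl => H.ys_on hl, H.gs_on⟩

/-- The own sheets, from the geometry. -/
theorem Geo.sh5
    (hg : Geo D n d K' J w₀ z i j r r2 r' r'' th gam C₀ (exp (C₀ * z) / 2 ^ (y * z)) q E P S)
    (gd : ∀ ω, E ω → 0 < q ω ∧ GoodS D n K' w₀ z M C₀ ω ∧
      FrP D n K' z i j r C₀ (P (bb D i j r ω)) ω) :
    Sh5 D n z i j r r' y C₀ E P (sl th gam n) (gr th gam n) S.S where
  tS := fun ω _ u k huk => hg.tS ω u k huk
  sheet := fun ω hω Bx hB b h0 h1 h2 u hu => hg.sheet ω (gd ω hω).1 hω Bx hB b h0 h1 h2 u hu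

end

open Classical in
/-- **(T), the label of a cell** in TC letters: the own slopes are polynomials of degree `m` in the
time, the coefficients are functions of the line; the contact covectors are data. -/
theorem labTC (n K K' c k0 k1 m : ℕ) (C₀ C₁ : ℝ) (hC₀ : 0 ≤ C₀) (hC₁ : 0 ≤ C₁) :
    ∃ F : ℝ, 1 ≤ F ∧ ∀ (C C₂ : ℝ) (gam : ℕ → ℝ), F ≤ C → 0 ≤ C₂ → ∃ C₄ : ℝ, 1 ≤ C₄ ∧
    ∀ (D : NDat2) (U : GnL D) (R : ℕ → Prop) (d J a₀ w₀ z M w i j r r2 r' r'' y a X Q A : ℕ)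
      (th : ℝ) (lam : ℕ → ℝ) (κ : ℝ) (q : D.Ω → ℝ) (E : D.Ω → Prop) (P : D.Γ × D.Γ → ℕ → PN)
      (S : Slo D) (ys : Fin (k0 + k1) → ℕ) (gs : Fin c → ℕ) (n₀ : Fin c),
      Hyp D n d K K' J a₀ w₀ z M w i j r r2 r' r'' y a X th lam gam κ C₁ C q E P S ys gs →
      Geo D n d K' J w₀ z i j r r2 r' r'' th gam C₀ (exp (C₀ * z) / 2 ^ (y * z)) q E P S →
      (∀ ω, E ω → 0 < q ω ∧ GoodS D n K' w₀ z M C₀ ω ∧
        FrP D n K' z i j r C₀ (P (bb D i j r ω)) ω) →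
      U.Ok n K J a₀ w₀ z M Q R C₁ q → gs n₀ = n →
      ∀ (N δ ε η' : ℝ) (e : D.Ω → Fin (m + 1) → Fin c → Fin (k0 + k1) → ℝ)
        (fL : D.Ω → Fin c → Fin c → ℝ) (fp : D.Ω → Fin c → Fin (k0 + k1) → Polynomial ℝ)
        (Ev : D.Ω → Prop), 1 ≤ N → 0 ≤ δ → 0 ≤ ε → η' ≤ Pb q Ev → (∀ ω, Ev ω → E ω) →
        (∀ ω ω', Ev ω → Ev ω' → D.wn J (w₀ + (j + 1) * z) ω = D.wn J (w₀ + (j + 1) * z) ω' →
          e ω = e ω') →
        (∀ ω, Ev ω → ∀ s u a, |e ω s u a| ≤ N) →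
        (∀ ω, Ev ω → ∀ u a, |(Sv (c := c) (k0 := k0) (k1 := k1) D z X C S ys gs ω u a : ℝ) /
          2 ^ X - ∑ s : Fin (m + 1), e ω s u a *
            (((tq J w X (D.T ω) : ℤ) : ℝ) / 2 ^ X) ^ (s : ℕ)| ≤ δ) →
        (∀ ω, Ev ω → ∀ g, gs g < n → ¬ R (gs g) →
          Ld g (fL ω g) ∧ ∀ u, |fL ω g u| ≤ exp (C₂ * z)) →
        (∀ ω, Ev ω → ∀ g, gs g < n → ¬ R (gs g) → ∀ a, PB m (exp (C₂ * z)) (fp ω g a) ∧
          (gs g < ys a → fp ω g a = 0)) →
        (∀ ω, Ev ω → ∀ g, gs g < n → ¬ R (gs g) → ∀ a,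
          |∑ u, fL ω g u * S.S ω (gs u) (ys a) - (fp ω g a).eval (rt D J w ω)| ≤ ε) →
        (∀ ω, Ev ω → ∀ l g, gs g < n → ¬ R (gs g) → gs g < gs l → ∀ b : ℕ → ℝ,
          NBT D U z Q R i (j + 1) (a₀ + i * z) (gs l) ω b →
          |∑ u, fL ω g u * (nat (D.g i j) (P (bb D i j r ω)) b (gs u) - ze D i j r P ω (gs u)) -
            ∑ a, (fp ω g a).eval (rt D J w ω) *
              (nat (D.g i j) (P (bb D i j r ω)) b (ys a) - ze D i j r P ω (ys a))| ≤ ε) →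
        exp (C₄ * z) * (N * (1 / 2 ^ (y * z) + 1 / 2 ^ X + ε) + δ) * 2 ^ (A * z) ≤ 1 →
        ∃ l : Fin c, (gs l = n ∨ R (gs l)) ∧ j + 1 < M ∧
          NewLabT D U J a₀ w₀ z Q R i (j + 1) (gs l) A (kN (max K K') (m + 1)) η' q := by
  obtain ⟨F, hF1, HL⟩ := labTG n (max K K') c (k0 + k1) m C₀ C₁ hC₀ hC₁
  refine ⟨F, hF1, fun C C₂ gam hCF hC₂ => ?_⟩
  have hC0 : 0 ≤ C := by linarith
  by_cases hgam : ∀ l, 0 ≤ gam l
  swap
  · refine ⟨1, le_rfl, ?_⟩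
    intro D U R d J a₀ w₀ z M w i j r r2 r' r'' y a X Q A th lam κ q E P S ys gs n₀ H
    exact absurd H.gam0 hgam
  obtain ⟨c₄, hc₄, HL⟩ := HL C₂ gam hC₂ hgam
  have hl2 := lpc_nn m
  obtain ⟨C₅, hC₅⟩ : ∃ C₅ : ℝ, C₅ = C + (1 + lpc m) := ⟨_, rfl⟩
  have hC₅0 : 0 ≤ C₅ := by
    rw [hC₅]
    linarith
  refine ⟨c₄ + C₅, by linarith, ?_⟩
  intro D U R d J a₀ w₀ z M w i j r r2 r' r'' y a X Q A th lam κ q E P S ys gs n₀ H hG hgd hU hn₀ N
    δ ε η' e fL fp Ev hN hδ hε hη hEE hcl he hS hfL hfp haf hbx hnum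
  have hF := H.fx hG hgd
  have hzr : (1 : ℝ) ≤ z := by exact_mod_cast hF.z1
  have hN0 : 0 ≤ N := by linarith
  have hX0 : (0 : ℝ) < 2 ^ X := by positivity
  have hX1 : (1 : ℝ) ≤ 2 ^ X := one_le_pow₀ (by norm_num)
  have hO := H.ok
  have hr1 := H.r_pos
  have hj1 : j + 1 < M := by
    have := H.j2
    omega
  have haz : exp (F * z) ≤ 2 ^ (a * z) := by
    have h1 := H.yX
    have h2 : exp (C * z) ≤ exp (C * z) * 2 ^ X :=
      le_mul_of_one_le_right (exp_pos _).le hX1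
    have h3 : (2 : ℝ) ^ (y * z) ≤ 2 ^ (a * z) :=
      pow_le_pow_right₀ one_le_two (Nat.mul_le_mul_right z hF.ya)
    exact (ex_mono hCF hzr).trans (h2.trans (h1.trans h3))
  have hE5 : 1 ≤ exp (C₅ * z) := ex_one hC₅0 hzr
  have eC5 : exp (C₅ * z) = exp (C * z) * exp ((1 + lpc m) * z) := by
    rw [← exp_add, hC₅]
    ring_nf
  have el : 1 + (1 + lpc m) ≤ exp ((1 + lpc m) * z) := by
    have h1 := Real.add_one_le_exp ((1 + lpc m) * (z : ℝ))
    have h2 : 1 + lpc m ≤ (1 + lpc m) * z := le_mul_of_one_le_right (by linarith) hzr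
    linarith
  have hNx : 0 ≤ N / 2 ^ X := by positivity
  have hEC : exp (C * z) ≤ exp (C₅ * z) := ex_mono (by rw [hC₅]; linarith) hzr
  have hrt : ∀ ω, |rt D J w ω| ≤ 1 ∧ |(tq J w X (D.T ω) : ℝ) - 2 ^ X * rt D J w ω| ≤ 1 :=
    fun ω => rt_near (hO.X_zero ω) H.wX
  have hres := HL D U R K K' J a₀ w₀ z M w i j r r' y a X Q A lam κ q E P (sl th gam n)
    (gr th gam n) S.S ys gs n₀ hF H.enm (hG.sh5 hgd) haz hj1 H.w1 H.w2 H.wX hU hn₀
    (exp (C₅ * z) * N) (exp (C₅ * z) * (δ + N / 2 ^ X)) ε η'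
    (fun ω u b => Polynomial.C (exp (C * z)) * pold (fun s => e ω s u b)) fL fp Ev
    (hN.trans (le_mul_of_one_le_left hN0 hE5)) (by positivity) hε hη hEE ?_ ?_ hfL hfp ?_ haf hbx ?_
  · obtain ⟨l, hl, hres⟩ := hres
    exact ⟨l, hl, hj1, hres⟩
  · intro ω ω' hω hω' h
    rw [hcl ω ω' hω hω' h]
  · intro ω hω u b
    refine (Pool.P5.PB.mulC (pold_pb fun s => he ω hω s u b) (exp_pos _).le).mono le_rfl ?_
    exact mul_le_mul_of_nonneg_right hEC hN0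
  · intro ω hω u b
    have h0 := hS ω hω u b
    have h1 := dig_fun5 (c := 1) (X := X) (z := z) (d := m) (C := C) (N := N) (δ := δ)
      (τ := rt D J w ω) (t := (tq J w X (D.T ω) : ℤ)) (f := fun _ => 1)
      (s := fun _ => S.S ω (gs u) (ys b)) (p := pold fun s => e ω s u b)
      (fun _ => H.geo.bS ω (gs u) (ys b))
      (fun _ => by rw [abs_one]; exact hN) hN0 (pold_pb fun s => he ω hω s u b)
      (by have := (hrt ω).2; push_cast; exact this) (hrt ω).1 (by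
        rw [Finset.sum_const, Finset.card_univ, Fintype.card_fin, one_smul, one_mul, pold_ev]
        exact h0)
    rw [Finset.sum_const, Finset.card_univ, Fintype.card_fin, one_smul, one_mul] at h1
    refine h1.trans ?_
    rw [eC5]
    push_cast
    have k1 : δ + (1 + lpc m) * (N / 2 ^ X) ≤ exp ((1 + lpc m) * z) * (δ + N / 2 ^ X) := by
      nlinarith
    calc exp (C * z) * (δ + (1 + lpc m) * (N / 2 ^ X)) ≤
        exp (C * z) * (exp ((1 + lpc m) * z) * (δ + N / 2 ^ X)) :=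
          mul_le_mul_of_nonneg_left k1 (exp_pos _).le
      _ = _ := by ring
  · refine le_trans ?_ hnum
    refine mul_le_mul_of_nonneg_right ?_ (by positivity)
    have e5 : exp ((c₄ + C₅) * z) = exp (c₄ * z) * exp (C₅ * z) := by
      rw [← exp_add]
      ring_nf
    rw [e5]
    refine le_of_eq ?_
    ring

end Pool.TC
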