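import Pool.Agent.H30.TC.CalA

/-!
# TC: between the two calls

Less digits, the coefficients from the digits, events.
-/

set_option autoImplicit false

namespace Pool.TC

open Finset Real Matrix
open Pool.Agent.H49.Ent Pool.Agent.H32.Dense Pool.STK Pool.STAT Pool.POT
open Pool.BFL (Pb)
open Pool.SLO (tup)
open Pool.TT37 (dd)
open Pool.BD64 (QHd)
open Pool.TC35 (TcStmt)
open Pool.P4 (t0 rt bb ze zt z0 cl1 dg dgp Ry cb LLC tq GoodS FrP err)

/-! ### Events -/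

section ev

variable {Ω : Type} [Fintype Ω]

open Classical in
theorem pb_cnd {q : Ω → ℝ} (hq : IsLaw q) {E : Ω → Prop} (hE : 0 < Pb q E) (B : Ω → Prop) :
    Pb q (fun ω => E ω ∧ B ω) ≤ Pb (Pool.Agent.H49.Ent.cond q E True) B := by
  have h0 := hq.nonneg
  have h1 : law q E True = Pb q E := by
    unfold law Pb
    refine Finset.sum_congr rfl fun ω _ => ?_
    by_cases h : E ω
    · rw [if_pos (by simpa using h), if_pos h]
    · rw [if_neg (by simpa using h), if_neg h]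
  have h2 : Pb q E ≤ 1 := by
    rw [← hq.sum_one]
    unfold Pb
    refine Finset.sum_le_sum fun ω _ => ?_
    split_ifs
    · exact le_rfl
    · exact h0 ω
  unfold Pb
  refine Finset.sum_le_sum fun ω _ => ?_
  by_cases hB : B ω
  · rw [if_pos hB]
    by_cases h : E ω
    · rw [if_pos ⟨h, hB⟩]
      unfold Pool.Agent.H49.Ent.cond
      rw [if_pos (by simpa using h), h1, le_div_iff₀ hE]
      have := h0 ω
      nlinarith
    · rw [if_neg (fun h3 => h h3.1)]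
      exact cond_nonneg h0 E True ω
  · rw [if_neg (fun h3 => hB h3.2), if_neg hB]

open Classical in
theorem pb_not {q : Ω → ℝ} (hq : IsLaw q) (E : Ω → Prop) :
    Pb q E = 1 - Pb q (fun ω => ¬ E ω) := by
  have h1 : Pb q E + Pb q (fun ω => ¬ E ω) = 1 := by
    rw [← hq.sum_one]
    unfold Pb
    rw [← Finset.sum_add_distrib]
    refine Finset.sum_congr rfl fun ω _ => ?_
    by_cases h : E ω
    · rw [if_pos h, if_neg (not_not.2 h), add_zero]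
    · rw [if_neg h, if_pos h, zero_add]
  linarith

open Classical in
/-- A smaller good event. -/
theorem pb_sub {q : Ω → ℝ} (hq : IsLaw q) {E : Ω → Prop} (hE : 0 < Pb q E) (F : Ω → Prop) :
    Pb q (fun ω => ¬ (E ω ∧ F ω)) ≤ Pb q (fun ω => ¬ E ω) +
      Pb (Pool.Agent.H49.Ent.cond q E True) (fun ω => ¬ F ω) := by
  have h1 := pb_cnd hq hE (fun ω => ¬ F ω)
  have h2 : Pb q (fun ω => ¬ (E ω ∧ F ω)) ≤ Pb q (fun ω => ¬ E ω) +
      Pb q (fun ω => E ω ∧ ¬ F ω) := by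
    unfold Pb
    rw [← Finset.sum_add_distrib]
    refine Finset.sum_le_sum fun ω _ => ?_
    have h0 := hq.nonneg ω
    by_cases h : E ω
    · by_cases h3 : F ω
      · rw [if_neg (not_not.2 ⟨h, h3⟩), if_neg (not_not.2 h), if_neg (fun h4 => h4.2 h3), add_zero]
      · rw [if_pos (fun h4 => h3 h4.2), if_neg (not_not.2 h), if_pos ⟨h, h3⟩, zero_add]
    · rw [if_pos (fun h4 => h h4.1), if_pos h, if_neg (fun h4 => h h4.1), add_zero]
  linarith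

end ev

/-! ### Less digits -/

theorem pow_near0 {x y : ℝ} (hx0 : 0 ≤ x) (hx1 : x ≤ 1) (hy0 : 0 ≤ y) (hy1 : y ≤ 1) (n : ℕ) :
    |x ^ n - y ^ n| ≤ n * |x - y| := by
  induction n with
  | zero => simp
  | succ n ih =>
    have e : x ^ (n + 1) - y ^ (n + 1) = x ^ n * (x - y) + (x ^ n - y ^ n) * y := by ring
    have h1 : |x ^ n * (x - y)| ≤ |x - y| := by
      rw [abs_mul, abs_of_nonneg (pow_nonneg hx0 n)]
      exact mul_le_of_le_one_left (abs_nonneg _) (pow_le_one₀ hx0 hx1)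
    have h2 : |(x ^ n - y ^ n) * y| ≤ n * |x - y| := by
      rw [abs_mul, abs_of_nonneg hy0]
      exact (mul_le_of_le_one_right (abs_nonneg _) hy1).trans ih
    rw [e]
    push_cast
    refine (abs_add_le _ _).trans ?_
    linarith

/-- Less digits of an integer. -/
theorem low_near {X' X : ℕ} (h : X' ≤ X) (m : ℤ) :
    |((m / 2 ^ (X - X') : ℤ) : ℝ) / 2 ^ X' - (m : ℝ) / 2 ^ X| ≤ 1 / 2 ^ X' := by
  obtain ⟨s, hs⟩ : ∃ s : ℕ, s = X - X' := ⟨_, rfl⟩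
  have hX : X = X' + s := by omega
  rw [← hs, hX]
  have hp : (0 : ℤ) < 2 ^ s := by positivity
  have h1 := Int.mul_ediv_add_emod m (2 ^ s)
  have h2 := Int.emod_nonneg m hp.ne'
  have h3 := Int.emod_lt_of_pos m hp
  have h1' : (2 : ℝ) ^ s * ((m / 2 ^ s : ℤ) : ℝ) + ((m % 2 ^ s : ℤ) : ℝ) = m := by
    exact_mod_cast h1
  have h2' : (0 : ℝ) ≤ ((m % 2 ^ s : ℤ) : ℝ) := by exact_mod_cast h2
  have h3' : ((m % 2 ^ s : ℤ) : ℝ) ≤ 2 ^ s := by exact_mod_cast h3.le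
  obtain ⟨A, hA⟩ : ∃ A : ℝ, A = ((m / 2 ^ s : ℤ) : ℝ) := ⟨_, rfl⟩
  obtain ⟨B, hB⟩ : ∃ B : ℝ, B = ((m % 2 ^ s : ℤ) : ℝ) := ⟨_, rfl⟩
  rw [← hA, ← hB] at h1'
  rw [← hB] at h2' h3'
  rw [← hA, ← h1']
  have p1 : (0 : ℝ) < 2 ^ X' := by positivity
  have p2 : (0 : ℝ) < 2 ^ s := by positivity
  have e : A / 2 ^ X' - (2 ^ s * A + B) / 2 ^ (X' + s) = -(B / 2 ^ s) / 2 ^ X' := by
    rw [pow_add]
    field_simp
    ring
  rw [e, abs_div, abs_of_pos p1, abs_neg]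
  refine div_le_div_of_nonneg_right ?_ p1.le
  rw [abs_of_nonneg (by positivity), div_le_one p2]
  exact h3'

/-- **The slopes with less digits.** -/
theorem dig_pass {d J w X X' T : ℕ} (hX : X' ≤ X) (hwX : w + X ≤ J) (xr : ℝ)
    (ep jr : Fin (d + 1) → ℝ) {N₀ η : ℝ} (hN₀ : 0 ≤ N₀) (hep : ∀ n, |ep n| ≤ N₀)
    (hjr : ∀ n, |jr n - ep n| ≤ 1 / 2 ^ X') (hη : η ≤ 1 / 2 ^ X')
    (h : |(dg X xr : ℝ) / 2 ^ X - ∑ n, ep n * ((tq J w X T : ℝ) / 2 ^ X) ^ (n : ℕ)| ≤ η) :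
    |(dg X' xr : ℝ) / 2 ^ X' - ∑ n, jr n * ((tq J w X' T : ℝ) / 2 ^ X') ^ (n : ℕ)| ≤
      (3 + d + (d + 1) * (N₀ * d)) / 2 ^ X' := by
  have p1 : (0 : ℝ) < 2 ^ X' := by positivity
  have p2 : (0 : ℝ) < 2 ^ X := by positivity
  have hwX' : w + X' ≤ J := by omega
  have t1 : (tq J w X T : ℝ) ≤ 2 ^ X := by exact_mod_cast (tq_lt hwX).le
  have t2 : (tq J w X' T : ℝ) ≤ 2 ^ X' := by exact_mod_cast (tq_lt hwX').le
  obtain ⟨x, hx⟩ : ∃ x : ℝ, x = (tq J w X T : ℝ) / 2 ^ X := ⟨_, rfl⟩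
  obtain ⟨x', hx'⟩ : ∃ x' : ℝ, x' = (tq J w X' T : ℝ) / 2 ^ X' := ⟨_, rfl⟩
  have x0 : 0 ≤ x := by
    rw [hx]
    positivity
  have x1 : x ≤ 1 := by
    rw [hx, div_le_one p2]
    exact t1
  have x0' : 0 ≤ x' := by
    rw [hx']
    positivity
  have x1' : x' ≤ 1 := by
    rw [hx', div_le_one p1]
    exact t2
  have hxx : |x' - x| ≤ 1 / 2 ^ X' := by
    have e1 := low_near hX ((tq J w X T : ℕ) : ℤ)
    have e2 : ((tq J w X' T : ℕ) : ℤ) = ((tq J w X T : ℕ) : ℤ) / 2 ^ (X - X') := by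
      rw [tq_low hX hwX]
      push_cast
      rfl
    rw [← e2, Int.cast_natCast, Int.cast_natCast] at e1
    rw [hx, hx']
    exact e1
  have hdd : |(dg X' xr : ℝ) / 2 ^ X' - (dg X xr : ℝ) / 2 ^ X| ≤ 1 / 2 ^ X' := by
    rw [dg_low hX]
    exact low_near hX _
  rw [← hx] at h
  rw [← hx']
  have hterm : ∀ n : Fin (d + 1), |jr n * x' ^ (n : ℕ) - ep n * x ^ (n : ℕ)| ≤
      (1 + N₀ * d) / 2 ^ X' := by
    intro n
    have e : jr n * x' ^ (n : ℕ) - ep n * x ^ (n : ℕ) =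
        (jr n - ep n) * x' ^ (n : ℕ) + ep n * (x' ^ (n : ℕ) - x ^ (n : ℕ)) := by ring
    have a1 : |(jr n - ep n) * x' ^ (n : ℕ)| ≤ 1 / 2 ^ X' := by
      rw [abs_mul, abs_of_nonneg (pow_nonneg x0' _)]
      exact (mul_le_of_le_one_right (abs_nonneg _) (pow_le_one₀ x0' x1')).trans (hjr n)
    have a2 : |ep n * (x' ^ (n : ℕ) - x ^ (n : ℕ))| ≤ N₀ * (d * (1 / 2 ^ X')) := by
      rw [abs_mul]
      refine mul_le_mul (hep n) ?_ (abs_nonneg _) hN₀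
      refine (pow_near0 x0' x1' x0 x1 n).trans ?_
      have hn : ((n : ℕ) : ℝ) ≤ d := by exact_mod_cast Nat.lt_succ_iff.1 n.2
      exact mul_le_mul hn hxx (abs_nonneg _) (Nat.cast_nonneg _)
    rw [e]
    refine (abs_add_le _ _).trans ((add_le_add a1 a2).trans (le_of_eq ?_))
    field_simp
  have hsum : |∑ n, jr n * x' ^ (n : ℕ) - ∑ n, ep n * x ^ (n : ℕ)| ≤
      ((1 + N₀ * d) / 2 ^ X') * ((d + 1 : ℕ) : ℝ) := by
    rw [← Finset.sum_sub_distrib]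
    exact Pool.P5.sum_bd fun n => hterm n
  push_cast at hsum
  have e : (3 + d + (d + 1) * (N₀ * d)) / 2 ^ X' = 1 / 2 ^ X' + 1 / 2 ^ X' +
      ((1 + N₀ * d) / 2 ^ X') * (d + 1) := by
    field_simp
    ring
  rw [e]
  rw [abs_le] at h hdd hsum ⊢
  constructor <;> linarith [h.1, h.2, hdd.1, hdd.2, hsum.1, hsum.2]

/-! ### The coefficients from the digits -/

/-- A coefficient from its digits. -/
noncomputable def jrc {c k d : ℕ} (N : ℝ) (X : ℕ) (jt : Fin (d + 1) × (Fin c × Fin k) → ℤ)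
    (s : Fin (d + 1)) (u : Fin c) (l : Fin k) : ℝ :=
  max (-N) (min N ((jt (s, (u, l)) : ℝ) / 2 ^ X))

theorem jrc_bd {c k d : ℕ} {N : ℝ} (hN : 0 ≤ N) (X : ℕ) (jt : Fin (d + 1) × (Fin c × Fin k) → ℤ)
    (s : Fin (d + 1)) (u : Fin c) (l : Fin k) : |jrc N X jt s u l| ≤ N := by
  unfold jrc
  rw [abs_le]
  exact ⟨le_max_left _ _, max_le (by linarith) (min_le_left _ _)⟩

theorem jrc_near {c k d : ℕ} {N : ℝ} {X : ℕ}
    {ep : Fin (d + 1) → Fin c → Fin k → ℝ} (hep : ∀ s u l, |ep s u l| ≤ N)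
    (s : Fin (d + 1)) (u : Fin c) (l : Fin k) :
    |jrc N X (fun v => ⌊(2 : ℝ) ^ X * ep v.1 v.2.1 v.2.2⌋) s u l - ep s u l| ≤ 1 / 2 ^ X := by
  have p1 : (0 : ℝ) < 2 ^ X := by positivity
  have h1 := Int.floor_le ((2 : ℝ) ^ X * ep s u l)
  have h2 := Int.lt_floor_add_one ((2 : ℝ) ^ X * ep s u l)
  obtain ⟨a, ha⟩ : ∃ a : ℝ, a = (⌊(2 : ℝ) ^ X * ep s u l⌋ : ℝ) / 2 ^ X := ⟨_, rfl⟩
  have h3 : a ≤ ep s u l := by
    rw [ha, div_le_iff₀ p1]
    linarith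
  have h4 : ep s u l ≤ a + 1 / 2 ^ X := by
    rw [ha, ← add_div, le_div_iff₀ p1]
    linarith
  have h5 := abs_le.1 (hep s u l)
  have e : jrc N X (fun v => ⌊(2 : ℝ) ^ X * ep v.1 v.2.1 v.2.2⌋) s u l = max (-N) (min N a) := by
    rw [ha]
    rfl
  rw [e]
  have h6 : (0 : ℝ) ≤ 1 / 2 ^ X := by positivity
  rw [abs_le]
  constructor
  · have : a ≤ max (-N) (min N a) := by
      rw [min_eq_right (by linarith)]
      exact le_max_right _ _
    linarith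
  · have : max (-N) (min N a) ≤ ep s u l := max_le h5.1 ((min_le_right _ _).trans h3)
    linarith

end Pool.TC
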