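import Pool.Agent.H35.TC.Def
import Pool.Agent.H64.BD.Dd

/-!
# TC: the place of a picture

`Vis`: the visible side of a place: the record, the slow digits with the time, the heights over the
visible labels, and these modulo a direction. `plOf`: the place of the picture `H` with the visible
side `V` and the body `A0`. `plOf_ok`: its hypotheses, from `OkNS`, the body theorem and the
hypotheses on the visible side.
-/

set_option autoImplicit false

namespace Pool.TC

open Finset Real Matrix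
open Pool.Agent.H49.Ent Pool.Agent.H32.Dense Pool.STK Pool.POT Pool.FAD Pool.SLO Pool.TQ
open Pool.BFL (Pb)
open Pool.TT37 (dd)
open Pool.BD64 (QHd BodyDS)
open Pool.TC35 (Pl Chn TcStmt)

/-- **The visible side of a place.** -/
structure Vis (Ω : Type) (c : ℕ) where
  ρ : Type
  β : Type
  Dr : Type
  R : Ω → ρ
  Wd : Ω → β
  Z : Ω → Fin c → ℤ
  Q : Dr → β → ρ → (Fin c → ℤ) → Fin c → ℤ

/-- **The place of a picture.** The abstract times are those of the samples. -/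
def plOf {c k d : ℕ} (H : QHd c k d) (V : Vis H.Ω c)
    (A0 : (Fin (d + 2) → H.Tt) → Matrix (Fin c) (Fin c) ℝ) : Pl H.Ω c k d where
  Λ := (Fin c → ℤ) × (H.Vt × H.B)
  τ := {t : H.Tt // ∃ ω, H.th ω = t}
  B := H.B
  ρ := V.ρ
  β := V.β
  Dr := V.Dr
  L := H.line
  th := fun ω => ⟨H.th ω, ω, rfl⟩
  b := H.b
  R := V.R
  Wd := V.Wd
  hgt := H.hgt
  Z := V.Z
  Q := V.Q
  tau := fun t => H.tau t.1
  E := fun t => H.E t.1
  A := fun t => A0 fun j => (t j).1

/-- **The hypotheses on the visible side** of a picture with the law `p`, the abstract times `th`,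
the contexts `b`, the heights `hgt`. -/
structure Vis.Ok {Ω : Type} [Fintype Ω] {c : ℕ} (V : Vis Ω c) (p : Ω → ℝ) {τ B : Type}
    (th : Ω → τ) (b : Ω → B) (hgt : Ω → Fin c → ℤ) (X : ℕ) (γ io h x ϖ : ℝ) : Prop where
  bR : Det p b V.R
  Z_b : ∀ ω i, |(V.Z ω i : ℝ)| ≤ 2 ^ (γ * X) * 2 ^ X
  Q_b : ∀ ω e i, |(V.Q e (V.Wd ω) (V.R ω) (V.Z ω) i : ℝ)| ≤ 2 ^ (γ * X) * 2 ^ X
  rel : ∀ ω ω', 0 < p ω → 0 < p ω' → V.Z ω = V.Z ω' → V.Wd ω = V.Wd ω' → th ω = th ω' →
    b ω = b ω' → ∀ i, |((hgt ω i - hgt ω' i : ℤ) : ℝ)| ≤ 2 ^ (γ * X)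
  wd : MI p hgt V.Wd (fun ω => (th ω, b ω)) ≤ io * X
  b1 : ∀ G : Ω → Prop, ϖ ≤ Pool.K2S.Pe p G →
    CH (cond p G True) V.Z (fun ω => (V.Wd ω, V.R ω)) ≤ (c - h) * X * Real.log 2
  b2 : ∀ (f : V.ρ → V.Dr) (G : Ω → Prop), ϖ ≤ Pool.K2S.Pe p G →
    (c - 1 - x) * X * Real.log 2 ≤
      CH (cond p G True) (fun ω => V.Q (f (V.R ω)) (V.Wd ω) (V.R ω) (V.Z ω))
        (fun ω => (V.Wd ω, V.R ω))

section

variable {Ω : Type} [Fintype Ω] {p : Ω → ℝ}

/-- The same context, in other letters. -/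
theorem CH_inj (h0 : ∀ ω, 0 ≤ p ω) {S T U : Type} (X : Ω → S) {W : Ω → T} {W' : Ω → U}
    (h : ∀ ω ω', W ω = W ω' ↔ W' ω = W' ω') : CH p X W = CH p X W' := by
  refine le_antisymm (CH_mono_cond h0 fun ω ω' _ _ e => (h ω ω').1 e)
    (CH_mono_cond h0 fun ω ω' _ _ e => (h ω ω').2 e)

end

/-- **The hypotheses of a place.** -/
theorem plOf_ok {c k d : ℕ} (hB : BodyDS c k d) {η : ℝ} (hη : 0 < η) : ∃ io₀ : ℝ, 0 < io₀ ∧
    ∀ C : ℝ, 1 ≤ C → ∃ (K1 : ℝ) (X0 : ℕ), ∀ (H : QHd c k d) (X : ℕ), X0 ≤ X →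
      H.OkNS X C (io₀ * X) → ∃ A0 : (Fin (d + 2) → H.Tt) → Matrix (Fin c) (Fin c) ℝ,
        ∀ (V : Vis H.Ω c) (s γ δ₂ io h x ϖ : ℝ), H.OkNS X C (io * X) →
        V.Ok H.p H.th H.b H.hgt X γ io h x ϖ →
        (Pb (tup H.p H.line 1) (fun w =>
          |((H.tau (H.th (w 0)) - H.tau (H.th (w 1)) : ℤ) : ℝ)| ≤ s * 2 ^ X) ≤ δ₂) →
        (plOf H V A0).Ok H.p X C K1 s γ δ₂ io η h x ϖ := by
  obtain ⟨io₀, h1, h2⟩ := hB η hη
  refine ⟨io₀, h1, fun C hC => ?_⟩
  obtain ⟨K1, X0, h3⟩ := h2 C hC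
  refine ⟨K1, X0, fun H X hX hO => ?_⟩
  obtain ⟨A0, g1, g2, g3⟩ := h3 H X hX hO
  refine ⟨A0, fun V s γ δ₂ io h x ϖ hO' hV htm => ?_⟩
  have h0 := hO.law.nonneg
  have ht0 := fun (L : H.Ω → (Fin c → ℤ) × (H.Vt × H.B)) (n : ℕ) => tup_nonneg h0 L n
  have hsub : ∀ ω ω' : H.Ω, ((plOf H V A0).th ω = (plOf H V A0).th ω') ↔ H.th ω = H.th ω' :=
    fun ω ω' => Subtype.ext_iff
  exact
    { Lb := fun ω ω' _ _ e => (Prod.ext_iff.1 (Prod.ext_iff.1 e).2).2
      bR := hV.bR
      tau_r := hO.tau_r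
      E_b := hO.E_b
      tm := htm
      h0 := by
        have e1 : MI H.p (plOf H V A0).th (plOf H V A0).L (plOf H V A0).b =
            CH H.p H.th H.b - CH H.p H.th H.line := by
          unfold MI
          congr 1
          · exact CH_congr h0 (fun ω ω' _ _ e => (hsub ω ω').1 (Prod.ext_iff.1 e).1)
              (fun ω ω' _ _ e => (hsub ω ω').2 (Prod.ext_iff.1 e).1) (fun _ _ _ _ e => e)
              fun _ _ _ _ e => e
          · refine CH_congr h0 (fun ω ω' _ _ e => (hsub ω ω').1 (Prod.ext_iff.1 e).1)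
              (fun ω ω' _ _ e => (hsub ω ω').2 (Prod.ext_iff.1 e).1)
              (fun _ _ _ _ e => (Prod.ext_iff.1 e).1)
              fun _ _ _ _ e => Prod.ext e (Prod.ext_iff.1 (Prod.ext_iff.1 e).2).2
        rw [e1]
        exact hO'.h0
      A_det := fun t => (g1 _).1
      A_b := fun t => (g1 _).2.1
      A_inv := fun t => (g1 _).2.2
      A_dd := fun t u i => by
        choose f hf using fun j => (t j).2
        have e1 := g2 f u i
        have e2 : (fun j => H.th (f j)) = fun j => (t j).1 := funext hf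
        rw [e2] at e1
        exact e1
      body := by
        refine le_trans (le_of_eq ?_) g3
        unfold DF
        congr 1
        refine CH_inj (ht0 _ _) _ fun w w' => ?_
        constructor
        · intro e
          obtain ⟨e1, e2⟩ := Prod.ext_iff.1 e
          obtain ⟨e3, e4⟩ := Prod.ext_iff.1 e2
          obtain ⟨e5, e6⟩ := Prod.ext_iff.1 e4
          exact Prod.ext e1 (Prod.ext e3 (Prod.ext ((hsub _ _).1 e5)
            (funext fun j => (hsub _ _).1 (congrFun e6 j))))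
        · intro e
          obtain ⟨e1, e2⟩ := Prod.ext_iff.1 e
          obtain ⟨e3, e4⟩ := Prod.ext_iff.1 e2
          obtain ⟨e5, e6⟩ := Prod.ext_iff.1 e4
          exact Prod.ext e1 (Prod.ext e3 (Prod.ext ((hsub _ _).2 e5)
            (funext fun j => (hsub _ _).2 (congrFun e6 j))))
      Z_b := hV.Z_b
      Q_b := hV.Q_b
      rel := fun ω ω' p1 p2 e1 e2 e3 => hV.rel ω ω' p1 p2 e1 e2 ((hsub ω ω').1 e3)
      wd := by
        refine le_trans (le_of_eq ?_) hV.wd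
        unfold MI
        congr 1
        · refine CH_inj h0 _ fun ω ω' => ?_
          constructor
          · intro e
            exact Prod.ext ((hsub _ _).1 (Prod.ext_iff.1 e).1) (Prod.ext_iff.1 e).2
          · intro e
            exact Prod.ext ((hsub _ _).2 (Prod.ext_iff.1 e).1) (Prod.ext_iff.1 e).2
        · refine CH_inj h0 _ fun ω ω' => ?_
          constructor
          · intro e
            obtain ⟨e1, e2⟩ := Prod.ext_iff.1 e
            exact Prod.ext e1 (Prod.ext ((hsub _ _).1 (Prod.ext_iff.1 e2).1)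
              (Prod.ext_iff.1 e2).2)
          · intro e
            obtain ⟨e1, e2⟩ := Prod.ext_iff.1 e
            exact Prod.ext e1 (Prod.ext ((hsub _ _).2 (Prod.ext_iff.1 e2).1)
              (Prod.ext_iff.1 e2).2)
      b1 := hV.b1
      b2 := hV.b2 }

end Pool.TC
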